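import Pool.Agent.Helper57.UB.SupK

namespace Pool.Agent.Helper57.UB

open Set MeasureTheory Filter Topology
open Pool.Agent.Helper57.LH
open Pool.Agent.Helper57.LS
open Pool.Agent.Helper57.UV
open Pool.Agent.Helper57.PC (pcDensity pcDensity_le_one pcDensity_nonneg SN SN_pos)
open Pool.Agent.Helper4.PU (AT AT_close CAT CAT_pos)
open Pool.Agent.Helper4.PC (Gs_integrable phiF_int pcDensity_measurable)
open scoped SchwartzMap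

lemma tc_cont : Continuous (fun u : ℝ => ∫ t in (0:ℝ)..1, t * Real.cos (2 * Real.pi * u * t)) :=
  intervalIntegral.continuous_parametric_intervalIntegral_of_continuous' (f := fun u t => t * Real.cos (2 * Real.pi * u * t)) (by
    unfold Function.uncurry; fun_prop) 0 1

lemma tc_abs (u : ℝ) : |∫ t in (0:ℝ)..1, t * Real.cos (2 * Real.pi * u * t)| ≤ 1 := by
  have h := intervalIntegral.norm_integral_le_of_norm_le_const (a := 0) (b := 1) (C := 1) (f := fun t => t * Real.cos (2 * Real.pi * u * t)) (by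
    intro t ht
    rw [uIoc_of_le zero_le_one] at ht
    rw [norm_mul, Real.norm_of_nonneg ht.1.le, Real.norm_eq_abs]
    have h1 := Real.abs_cos_le_one (2 * Real.pi * u * t)
    calc t * |Real.cos (2 * Real.pi * u * t)| ≤ 1 * 1 := by
          gcongr
          exact ht.2
      _ = 1 := one_mul _)
  rw [Real.norm_eq_abs, sub_zero, abs_one, mul_one] at h
  exact h

lemma KD_cont (T : ℝ) : Continuous (KD T) := by
  unfold KD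
  have h1 := PT_cont (Real.log T)
  have h2 := tc_cont
  fun_prop

lemma rh_meas (T : ℝ) : Measurable (rh T) := by
  unfold rh
  exact pcDensity_measurable.add (KD_cont T).measurable

lemma rh_abs {T : ℝ} (hT : 3 ≤ T) (hA : |AT T| ≤ 2) (u : ℝ) : |rh T u| ≤ 8 + 2 * CMe := by
  have hL := one_le_log hT
  have h1 := PT_abs hL u
  have h2 := tc_abs u
  have h3 := pcDensity_nonneg u
  have h4 := pcDensity_le_one u
  unfold rh KD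
  have a1 := abs_le.mp h1
  have a2 := abs_le.mp h2
  have a3 := abs_le.mp hA
  rw [abs_le]
  constructor <;> linarith [a1.1, a1.2, a2.1, a2.2, a3.1, a3.2]

lemma EF_add {T : ℝ} {ρ φ ψ : ℝ → ℝ} {M : ℝ} (hφ : Integrable φ) (hψ : Integrable ψ) (hρ : Measurable ρ) (hM : ∀ u, |ρ u| ≤ M) :
    EF T ρ (fun u => φ u + ψ u) = EF T ρ φ + EF T ρ ψ := by
  have i1 : Integrable (fun u => φ u * ρ u) := hφ.mul_bdd (c := M) hρ.aestronglyMeasurable (Eventually.of_forall fun u => by rw [Real.norm_eq_abs]; exact hM u)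
  have i2 : Integrable (fun u => ψ u * ρ u) := hψ.mul_bdd (c := M) hρ.aestronglyMeasurable (Eventually.of_forall fun u => by rw [Real.norm_eq_abs]; exact hM u)
  unfold EF
  rw [WP_add]
  have e : ∫ u, (φ u + ψ u) * ρ u = (∫ u, φ u * ρ u) + ∫ u, ψ u * ρ u := by
    rw [← integral_add i1 i2]
    congr 1
    funext u
    ring
  rw [e]
  ring

/-- integrable majorant of the weight -/
noncomputable def Dq (f : 𝓢(ℝ, ℝ)) (x : ℝ) : ℝ := |D3 f x| / 4 * (1 + x ^ 6)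

lemma Dq_int (f : 𝓢(ℝ, ℝ)) : IntegrableOn (Dq f) (Ioi 0) := by
  have h0 : Integrable (fun x => ‖x‖ ^ 0 * ‖D3 f x‖) := (D3 f).integrable_pow_mul volume 0
  have h6 : Integrable (fun x => ‖x‖ ^ 6 * ‖D3 f x‖) := (D3 f).integrable_pow_mul volume 6
  have h := ((h0.add h6).const_mul (1/4)).integrableOn (s := Ioi (0:ℝ))
  refine h.congr ?_
  filter_upwards with x
  unfold Dq
  simp only [Pi.add_apply]
  rw [Real.norm_eq_abs, Real.norm_eq_abs, pow_zero, ← abs_pow, abs_of_nonneg (by positivity : 0 ≤ x ^ 6)]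
  ring

lemma Dq_nonneg (f : 𝓢(ℝ, ℝ)) (x : ℝ) : 0 ≤ Dq f x := by unfold Dq; positivity

lemma wt_abs (f : 𝓢(ℝ, ℝ)) (x : ℝ) : |wt f x| = x ^ 2 * (|D3 f x| / 4) := by
  unfold wt
  rw [abs_neg, abs_mul, abs_of_nonneg (by positivity)]
  ring

/-- elementary power bounds -/
lemma pow_bds {x : ℝ} (hx : 0 < x) : 1 ≤ 1 + x ^ 6 ∧ x ≤ 1 + x ^ 6 ∧ x ^ 2 ≤ 1 + x ^ 6 ∧ x ^ 3 ≤ 1 + x ^ 6 ∧ x ^ 4 ≤ 1 + x ^ 6 ∧ x ^ 5 ≤ 1 + x ^ 6 ∧ x ^ 6 ≤ 1 + x ^ 6 := by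
  have key : ∀ k : ℕ, k ≤ 6 → x ^ k ≤ 1 + x ^ 6 := by
    intro k hk
    rcases le_total x 1 with h | h
    · have : x ^ k ≤ 1 := pow_le_one₀ hx.le h
      have : 0 ≤ x ^ 6 := by positivity
      linarith
    · have : x ^ k ≤ x ^ 6 := pow_le_pow_right₀ h hk
      linarith
  have h0 := key 0 (by norm_num)
  have h1 := key 1 (by norm_num)
  rw [pow_zero] at h0
  rw [pow_one] at h1
  exact ⟨h0, h1, key 2 (by norm_num), key 3 (by norm_num), key 4 (by norm_num), key 5 (by norm_num), key 6 le_rfl⟩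

lemma bd_even {x R s Y d : ℝ} (hx : 0 < x) (hR : 0 < R) (hY : 0 < Y) (hd : 0 ≤ d) :
    (x ^ 2 * d) * x * (1 / (R / x) ^ 2 + (1 + R / x) * ((R / x / Y) ^ 2 + (s / Y) ^ 2)) ≤ d * (1 + x ^ 6) * (1 / R ^ 2 + (1 + R) * (R ^ 2 + 2 * s ^ 2) / Y ^ 2) := by
  obtain ⟨p0, p1, p2, p3, p4, p5, p6⟩ := pow_bds hx
  have e : (x ^ 2 * d) * x * (1 / (R / x) ^ 2 + (1 + R / x) * ((R / x / Y) ^ 2 + (s / Y) ^ 2)) =
      d * (x ^ 5 * (1 / R ^ 2) + (x + R * 1) * (R ^ 2 / Y ^ 2) + (x ^ 3 + R * x ^ 2) * (s ^ 2 / Y ^ 2)) := by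
    field_simp
    ring
  have h1 : x ^ 5 * (1 / R ^ 2) ≤ (1 + x ^ 6) * (1 / R ^ 2) := by gcongr
  have h2 : (x + R * 1) * (R ^ 2 / Y ^ 2) ≤ ((1 + x ^ 6) + R * (1 + x ^ 6)) * (R ^ 2 / Y ^ 2) := by gcongr
  have h3 : (x ^ 3 + R * x ^ 2) * (s ^ 2 / Y ^ 2) ≤ ((1 + x ^ 6) + R * (1 + x ^ 6)) * (s ^ 2 / Y ^ 2) := by gcongr
  have h4 : 0 ≤ ((1 + x ^ 6) + R * (1 + x ^ 6)) * (s ^ 2 / Y ^ 2) := by positivity
  rw [e]
  calc d * (x ^ 5 * (1 / R ^ 2) + (x + R * 1) * (R ^ 2 / Y ^ 2) + (x ^ 3 + R * x ^ 2) * (s ^ 2 / Y ^ 2))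
      ≤ d * ((1 + x ^ 6) * (1 / R ^ 2) + ((1 + x ^ 6) + R * (1 + x ^ 6)) * (R ^ 2 / Y ^ 2) + (((1 + x ^ 6) + R * (1 + x ^ 6)) * (s ^ 2 / Y ^ 2) + ((1 + x ^ 6) + R * (1 + x ^ 6)) * (s ^ 2 / Y ^ 2))) := by
        apply mul_le_mul_of_nonneg_left _ hd
        linarith
    _ = _ := by ring

lemma bd_odd {x R s t Y d a : ℝ} (hx : 0 < x) (hR : 0 < R) (hY : 0 < Y) (hd : 0 ≤ d) (ha : 0 ≤ a) :
    (2 * Real.pi * (x ^ 2 * d) * x ^ 2 * a) * (1 / (R / x) ^ 2 + (1 + R / x) * ((R / x / Y) ^ 2 + ((s + t * (R / x)) / Y) ^ 2)) ≤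
      (2 * Real.pi * (d * (1 + x ^ 6)) * (1 / R ^ 2 + (1 + R) * (R ^ 2 + 2 * s ^ 2) / Y ^ 2)) * (a * (1 + 2 * t ^ 2)) := by
  obtain ⟨p0, p1, p2, p3, p4, p5, p6⟩ := pow_bds hx
  have hpi := Real.pi_pos
  have h0 : ((s + t * (R / x)) / Y) ^ 2 ≤ 2 * (s / Y) ^ 2 + 2 * t ^ 2 * (R / x / Y) ^ 2 := by
    have e : 2 * (s / Y) ^ 2 + 2 * t ^ 2 * (R / x / Y) ^ 2 - ((s + t * (R / x)) / Y) ^ 2 = ((s - t * (R / x)) / Y) ^ 2 := by ring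
    have := sq_nonneg ((s - t * (R / x)) / Y)
    linarith
  have h1 : (1 / (R / x) ^ 2 + (1 + R / x) * ((R / x / Y) ^ 2 + ((s + t * (R / x)) / Y) ^ 2)) ≤
      (1 + 2 * t ^ 2) * (1 / (R / x) ^ 2 + (1 + R / x) * ((R / x / Y) ^ 2 + 2 * (s / Y) ^ 2)) := by
    have k1 : 0 ≤ 2 * t ^ 2 * (1 / (R / x) ^ 2) := by positivity
    have k2 : 0 ≤ 2 * t ^ 2 * ((1 + R / x) * (2 * (s / Y) ^ 2)) := by positivity
    have k3 : (1 + R / x) * ((R / x / Y) ^ 2 + ((s + t * (R / x)) / Y) ^ 2) ≤ (1 + R / x) * ((R / x / Y) ^ 2 + (2 * (s / Y) ^ 2 + 2 * t ^ 2 * (R / x / Y) ^ 2)) := by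
      gcongr
    calc _ ≤ 1 / (R / x) ^ 2 + (1 + R / x) * ((R / x / Y) ^ 2 + (2 * (s / Y) ^ 2 + 2 * t ^ 2 * (R / x / Y) ^ 2)) := by linarith
      _ ≤ 1 / (R / x) ^ 2 + (1 + R / x) * ((R / x / Y) ^ 2 + (2 * (s / Y) ^ 2 + 2 * t ^ 2 * (R / x / Y) ^ 2)) + (2 * t ^ 2 * (1 / (R / x) ^ 2) + 2 * t ^ 2 * ((1 + R / x) * (2 * (s / Y) ^ 2))) := by linarith
      _ = _ := by ring
  have h2 : x ^ 4 * (1 / (R / x) ^ 2 + (1 + R / x) * ((R / x / Y) ^ 2 + 2 * (s / Y) ^ 2)) ≤ (1 + x ^ 6) * (1 / R ^ 2 + (1 + R) * (R ^ 2 + 2 * s ^ 2) / Y ^ 2) := by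
    have e : x ^ 4 * (1 / (R / x) ^ 2 + (1 + R / x) * ((R / x / Y) ^ 2 + 2 * (s / Y) ^ 2)) =
        x ^ 6 * (1 / R ^ 2) + (x ^ 2 + R * x) * (R ^ 2 / Y ^ 2) + (x ^ 4 + R * x ^ 3) * (2 * s ^ 2 / Y ^ 2) := by
      field_simp
      ring
    have k1 : x ^ 6 * (1 / R ^ 2) ≤ (1 + x ^ 6) * (1 / R ^ 2) := by gcongr
    have k2 : (x ^ 2 + R * x) * (R ^ 2 / Y ^ 2) ≤ ((1 + x ^ 6) + R * (1 + x ^ 6)) * (R ^ 2 / Y ^ 2) := by gcongr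
    have k3 : (x ^ 4 + R * x ^ 3) * (2 * s ^ 2 / Y ^ 2) ≤ ((1 + x ^ 6) + R * (1 + x ^ 6)) * (2 * s ^ 2 / Y ^ 2) := by gcongr
    rw [e]
    calc _ ≤ (1 + x ^ 6) * (1 / R ^ 2) + ((1 + x ^ 6) + R * (1 + x ^ 6)) * (R ^ 2 / Y ^ 2) + ((1 + x ^ 6) + R * (1 + x ^ 6)) * (2 * s ^ 2 / Y ^ 2) := by linarith
      _ = _ := by ring
  calc _ ≤ (2 * Real.pi * (x ^ 2 * d) * x ^ 2 * a) * ((1 + 2 * t ^ 2) * (1 / (R / x) ^ 2 + (1 + R / x) * ((R / x / Y) ^ 2 + 2 * (s / Y) ^ 2))) := by gcongr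
    _ = (2 * Real.pi * d * a * (1 + 2 * t ^ 2)) * (x ^ 4 * (1 / (R / x) ^ 2 + (1 + R / x) * ((R / x / Y) ^ 2 + 2 * (s / Y) ^ 2))) := by ring
    _ ≤ (2 * Real.pi * d * a * (1 + 2 * t ^ 2)) * ((1 + x ^ 6) * (1 / R ^ 2 + (1 + R) * (R ^ 2 + 2 * s ^ 2) / Y ^ 2)) := by gcongr
    _ = _ := by ring

lemma E_bd {R s Z Y : ℝ} (hR : 0 < R) (hRZ : R ≤ Z) (hs : |s| ≤ Z) (hZ : 1 ≤ Z) (hY : Z ^ 5 = Y ^ 2) (hY0 : 0 < Y) :
    1 / R ^ 2 + (1 + R) * (R ^ 2 + 2 * s ^ 2) / Y ^ 2 ≤ 7 / R ^ 2 := by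
  have h1 : s ^ 2 ≤ Z ^ 2 := by rw [← sq_abs]; gcongr
  have h2 : (1 + R) * (R ^ 2 + 2 * s ^ 2) * R ^ 2 ≤ 6 * Y ^ 2 := by
    have h3 : 1 + R ≤ 2 * Z := by linarith
    calc (1 + R) * (R ^ 2 + 2 * s ^ 2) * R ^ 2 ≤ (2 * Z) * (Z ^ 2 + 2 * Z ^ 2) * Z ^ 2 := by gcongr
      _ = 6 * Z ^ 5 := by ring
      _ = 6 * Y ^ 2 := by rw [hY]
  have h4 : (1 + R) * (R ^ 2 + 2 * s ^ 2) / Y ^ 2 ≤ 6 / R ^ 2 := by
    rw [div_le_div_iff₀ (by positivity) (by positivity)]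
    exact h2
  calc _ ≤ 1 / R ^ 2 + 6 / R ^ 2 := by linarith
    _ = _ := by ring

end Pool.Agent.Helper57.UB
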