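import Pool.Agent.Helper57.UB.Cmp
import Pool.Agent.Helper4.PU.Final

namespace Pool.Agent.Helper57.UB

open Set MeasureTheory Filter Topology
open Pool.Agent.Helper57.LH
open Pool.Agent.Helper57.LS
open Pool.Agent.Helper57.UV
open Pool.Agent.Helper4.PC (Tr)
open Pool.Agent.Helper57.PC (SN SN_pos pairCount)
open Pool.Agent.Helper4.PU (AT)

lemma GW_nonneg (T B v : ℝ) : 0 ≤ GW T B v := WP_nonneg fun _ => Gm_nonneg _

lemma PXc_even (X δ : ℝ) : PXc X (-δ) = PXc X δ := by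
  unfold PXc
  congr 1
  refine Finset.sum_congr rfl fun n _ => ?_
  rw [neg_mul, Real.cos_neg]

lemma QB_ii {L B0 b : ℝ} (hL : 0 < L) (hB0 : 0 < B0) (hb : B0 ≤ b) (h : ℝ) :
    IntervalIntegrable (fun B => 2 * (PXc (L / B) 0 - PXc (L / B) h) / B) volume B0 b := by
  have h1 : IntervalIntegrable (QB L h (NX (L / B0))) volume B0 b := (QB_cont L h _).intervalIntegrable _ _
  refine h1.congr ?_
  intro B hB
  rw [uIoc_of_le hb] at hB
  exact (QB_eq hL hB0 hB.1.le h).symm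

lemma QB_integral {L B0 b : ℝ} (hL : 0 < L) (hB0 : 0 < B0) (hb : B0 ≤ b) (h : ℝ) :
    ∫ B in B0..b, 2 * (PXc (L / B) 0 - PXc (L / B) h) / B = ∫ B in B0..b, QB L h (NX (L / B0)) B := by
  apply intervalIntegral.integral_congr
  intro B hB
  rw [uIcc_of_le hb] at hB
  exact QB_eq hL hB0 hB.1 h

lemma scale_ev : ∀ᶠ T : ℝ in atTop, T ^ (1/200 : ℝ) ≤ T ^ (1/100 : ℝ) / 2 ∧ 9600 ≤ T ^ (1/100 : ℝ) / 2 ∧ Real.log T ≤ T ^ (1/100 : ℝ) / 2 * Real.log 2 := by
  have hlog2 : 0 < Real.log 2 := Real.log_pos (by norm_num)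
  have h1 : Tendsto (fun T : ℝ => T ^ (1/200 : ℝ)) atTop atTop := tendsto_rpow_atTop (by norm_num)
  have h2 := (isLittleO_log_rpow_atTop (r := 1/100) (by norm_num)).bound (c := Real.log 2 / 2) (by positivity)
  filter_upwards [h1.eventually_ge_atTop 2, (tendsto_rpow_atTop (show (0:ℝ) < 1/100 by norm_num)).eventually_ge_atTop 19200, h2, eventually_ge_atTop 1] with T h3 h4 h5 h6
  have hT0 : 0 < T := by linarith
  refine ⟨?_, by linarith, ?_⟩
  · have e : T ^ (1/100 : ℝ) = T ^ (1/200 : ℝ) * T ^ (1/200 : ℝ) := by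
      rw [← Real.rpow_add hT0]; norm_num
    rw [e, le_div_iff₀ (by norm_num)]
    have : 0 < T ^ (1/200 : ℝ) := by linarith
    gcongr
  · rw [Real.norm_of_nonneg (Real.log_nonneg h6), Real.norm_of_nonneg (by positivity)] at h5
    linarith

/-- the law for the triangle, at all scales up to a power of `T` -/
theorem tri_law : ∃ C : ℝ, 0 ≤ C ∧ ∀ᶠ T : ℝ in atTop, ∀ X : ℝ, 0 < X → X ≤ T ^ (1/200 : ℝ) →
    |WP T (Tr X) - SN T * (AT T * X ^ 2 + (Real.log (Real.log T) -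
      Real.log ‖riemannZeta (((1 + 1 / Real.log T : ℝ) : ℂ) + ((2 * Real.pi * X / Real.log T : ℝ) : ℂ) * Complex.I)‖) / Real.pi ^ 2)| ≤ C * SN T := by
  obtain ⟨C, hC, hU⟩ := ULawP_holds
  obtain ⟨C', hC', hu⟩ := uni
  unfold ULawP at hU
  have hCM := CMe_pos
  have hKz : 0 ≤ Kz 9600 := by
    unfold Kz
    have := Kp_nonneg
    have := CNP_nonneg
    have : 0 < Real.log 2 := Real.log_pos (by norm_num)
    positivity
  refine ⟨(100 + 30 * C + 4 * C' * (1 + 9600) * 9600) + (12 * (1 + CMe) + Kz 9600), by positivity, ?_⟩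
  have hz := Real.tendsto_log_atTop.eventually (zeta_cmp (B0 := 9600) (by norm_num))
  filter_upwards [hU, hu, scale_ev, hz, eventually_ge_atTop 3, Real.tendsto_log_atTop.eventually_ge_atTop 9600] with T h1 h2 h3 h4 h5 h6 X hX0 hXT
  obtain ⟨h3a, h3b, h3c⟩ := h3
  have hL : 0 < Real.log T := by linarith
  have hpi := Real.pi_gt_three
  have hpi2 : 1 ≤ Real.pi ^ 2 := by nlinarith
  have hS := SN_pos (show 1 < T by linarith)
  have hb : (9600:ℝ) ≤ T ^ (1/100 : ℝ) / 2 := h3b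
  have k := comb (T := T) (S := SN T) (A := AT T) (C := C) (C' := C') (y := T ^ (1/100 : ℝ)) (B0 := 9600) (b := T ^ (1/100 : ℝ) / 2)
    (P := fun B v => PXc (Real.log T / B) (2 * Real.pi * v / Real.log T)) hX0 (hXT.trans h3a) (by norm_num) hb (by linarith) hS.le hC hC'.le
    (fun B v hB => PXc_abs (by positivity) _)
    (fun B => by
      rw [show 2 * Real.pi * -X / Real.log T = -(2 * Real.pi * X / Real.log T) by ring, PXc_even])
    (by
      simp only [mul_zero, zero_div]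
      exact QB_ii hL (by norm_num) hb _)
    (fun B v hB hB' hv => h1 B v hB hB' hv)
    (fun B v => GW_nonneg T B v) (fun B hB v => h2 B hB v)
  simp only [mul_zero, zero_div] at k
  rw [QB_integral hL (by norm_num) hb, QB_int hL h3c] at k
  have k2 := EN_cmp (B0 := 9600) (by norm_num) h6 (2 * Real.pi * X / Real.log T)
  have k3 := h4 (2 * Real.pi * X / Real.log T)
  obtain ⟨W, hW⟩ : ∃ W, W = WP T (Tr X) := ⟨_, rfl⟩
  obtain ⟨Z, hZ⟩ : ∃ Z, Z = Real.log (Real.log T) - Real.log ‖riemannZeta (((1 + 1 / Real.log T : ℝ) : ℂ) + ((2 * Real.pi * X / Real.log T : ℝ) : ℂ) * Complex.I)‖ := ⟨_, rfl⟩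
  obtain ⟨E1, hE1⟩ : ∃ E1, E1 = ∑ n ∈ Finset.range (NX (Real.log T / 9600) + 1), ArithmeticFunction.vonMangoldt n ^ 2 / (n * Real.log n ^ 2) * (1 - Real.cos (2 * Real.pi * X / Real.log T * Real.log n)) * Rc (9600 * (Real.log n / Real.log T)) := ⟨_, rfl⟩
  rw [← hW, ← hE1] at k
  rw [← hE1] at k2
  rw [← hZ] at k3
  rw [← hW, ← hZ]
  have k4 : |E1 - Z| ≤ 12 * (1 + CMe) + Kz 9600 := by
    have := abs_add_le (E1 - EN (2 * Real.pi * X / Real.log T) (NX (Real.log T / 9600))) (EN (2 * Real.pi * X / Real.log T) (NX (Real.log T / 9600)) - Z)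
    rw [sub_add_sub_cancel] at this
    linarith
  have e : W - SN T * (AT T * X ^ 2 + Z / Real.pi ^ 2) = (W - SN T * (AT T * X ^ 2 + 1 / Real.pi ^ 2 * E1)) + SN T * ((E1 - Z) / Real.pi ^ 2) := by ring
  rw [e]
  refine (abs_add_le _ _).trans ?_
  have k5 : |SN T * ((E1 - Z) / Real.pi ^ 2)| ≤ (12 * (1 + CMe) + Kz 9600) * SN T := by
    rw [abs_mul, abs_div, abs_of_pos hS, abs_of_pos (by positivity : 0 < Real.pi ^ 2)]
    have : |E1 - Z| / Real.pi ^ 2 ≤ 12 * (1 + CMe) + Kz 9600 := by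
      rw [div_le_iff₀ (by positivity)]
      refine k4.trans ?_
      exact le_mul_of_one_le_right (by positivity) hpi2
    calc SN T * (|E1 - Z| / Real.pi ^ 2) ≤ SN T * (12 * (1 + CMe) + Kz 9600) := by gcongr
      _ = _ := by ring
  linarith

/-- unconditional number variance up to a power of `T` -/
theorem berry : ∃ C T₀ : ℝ, 0 < C ∧ ∀ T : ℝ, T₀ ≤ T → ∀ X : ℝ, 0 < X → X ≤ T ^ (1/200 : ℝ) →
    |(∫ β in (0:ℝ)..X, pairCount T (-β) β) - (T * Real.log T / (2 * Real.pi)) *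
        ((∫ t in (0:ℝ)..T, Real.log (t / (2 * Real.pi)) ^ 2) / (T * Real.log T ^ 2) * X ^ 2 +
          (Real.log (Real.log T) - Real.log ‖riemannZeta (1 + 1 / Real.log T + 2 * Real.pi * X / Real.log T * Complex.I)‖) / Real.pi ^ 2)| ≤
      C * (T * Real.log T / (2 * Real.pi)) := by
  obtain ⟨C, hC, h⟩ := tri_law
  obtain ⟨T₀, hT₀⟩ := eventually_atTop.mp (h.and (eventually_ge_atTop 3))
  refine ⟨C + 1, T₀, by positivity, fun T hT X hX0 hX => ?_⟩
  obtain ⟨h1, h2⟩ := hT₀ T hT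
  have h3 := h1 X hX0 hX
  have hT0 : 0 < T := by linarith
  have hS := SN_pos (show 1 < T by linarith)
  have e1 : WP T (Tr X) = ∫ β in (0:ℝ)..X, pairCount T (-β) β := by
    have e1 : ∀ β, pairCount T (-β) β = WP T (fun u => ic (Icc (-β) β) u) := fun β => pairCount_WP T _ _
    simp_rw [e1]
    rw [Pool.Agent.Helper4.PC.integral_WP T (fun β u => ic (Icc (-β) β) u) (fun u => Pool.Agent.Helper4.PC.ic_beta_int u 0 X)]
    congr 1; funext u
    exact Pool.Agent.Helper4.PC.Tr_int_ic hX0 u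
  rw [e1, Pool.Agent.Helper4.PU.AT_eq hT0] at h3
  have e2 : ((1 + 1 / Real.log T : ℝ) : ℂ) + ((2 * Real.pi * X / Real.log T : ℝ) : ℂ) * Complex.I =
      1 + 1 / Real.log T + 2 * Real.pi * X / Real.log T * Complex.I := by push_cast; ring
  rw [e2] at h3
  have hS2 : SN T = T * Real.log T / (2 * Real.pi) := rfl
  rw [hS2] at h3 hS
  refine h3.trans ?_
  linarith

end Pool.Agent.Helper57.UB
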