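import Pool.Agent.Helper57.UB.Zc

namespace Pool.Agent.Helper57.UB

open Set MeasureTheory Filter Topology
open Pool.Agent.Helper57.LH
open Pool.Agent.Helper57.LS
open Pool.Agent.Helper57.UV
open scoped ArithmeticFunction

open Classical in
/-- the prime summand -/
noncomputable def fp (L h : ℝ) (n : ℕ) : ℝ := if n.Prime then (n:ℝ) ^ (-(1 + 1 / L)) * (1 - Real.cos (h * Real.log n)) else 0

lemma cos_bd (x : ℝ) : 0 ≤ 1 - Real.cos x ∧ 1 - Real.cos x ≤ 2 := by
  have := Real.cos_le_one x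
  have := Real.neg_one_le_cos x
  constructor <;> linarith

lemma fp_nonneg (L h : ℝ) (n : ℕ) : 0 ≤ fp L h n := by
  unfold fp
  split_ifs
  · exact mul_nonneg (by positivity) (cos_bd _).1
  · exact le_rfl

lemma rpow_split {n : ℕ} (hn : 2 ≤ n) (L : ℝ) : (n:ℝ) ^ (-(1 + 1 / L)) = 1 / n * (n:ℝ) ^ (-(1 / L)) := by
  have hn0 : (0:ℝ) < n := by
    have : 0 < n := by omega
    exact_mod_cast this
  rw [neg_add, Real.rpow_add hn0, Real.rpow_neg_one]
  simp only [one_div]

/-- finite part -/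
lemma fin_part {L : ℝ} (hL : 0 < L) (h : ℝ) (n : ℕ) :
    |Λ n ^ 2 / (n * Real.log n ^ 2) * (1 - Real.cos (h * Real.log n)) - fp L h n| ≤ 2 / L * (Λ n / n) + 2 / Real.log 2 * (aN n / n) := by
  have hv := @ArithmeticFunction.vonMangoldt_nonneg n
  have hlog2 : 0 < Real.log 2 := Real.log_pos (by norm_num)
  have ha := aN_nonneg n
  have hc := cos_bd (h * Real.log n)
  rcases Nat.lt_or_ge n 2 with hn | hn
  · have h1 : Λ n = 0 := by interval_cases n <;> simp
    have h2 : ¬ n.Prime := by intro h3; have := h3.two_le; omega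
    unfold fp
    rw [if_neg h2, h1]
    simp only [ne_eq, OfNat.ofNat_ne_zero, not_false_eq_true, zero_pow, zero_div, zero_mul, sub_zero, abs_zero, mul_zero, zero_add]
    positivity
  have hn2 : (2:ℝ) ≤ n := by exact_mod_cast hn
  have hn0 : (0:ℝ) < n := by linarith
  have hl : 0 < Real.log n := Real.log_pos (by linarith)
  by_cases hp : n.Prime
  · have h1 : Λ n = Real.log n := ArithmeticFunction.vonMangoldt_apply_prime hp
    have h2 : aN n = 0 := by unfold aN; rw [if_pos hp]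
    unfold fp
    rw [if_pos hp, h2, rpow_split hn, h1]
    have h3 : (n:ℝ) ^ (-(1 / L)) = Real.exp (-(Real.log n / L)) := by
      rw [Real.rpow_def_of_pos hn0]
      congr 1
      ring
    have h4 : (n:ℝ) ^ (-(1 / L)) ≤ 1 := by
      rw [h3, Real.exp_le_one_iff]
      have : 0 ≤ Real.log n / L := by positivity
      linarith
    have h5 : 1 - Real.log n / L ≤ (n:ℝ) ^ (-(1 / L)) := by
      rw [h3]
      have := Real.add_one_le_exp (-(Real.log n / L))
      linarith
    have e : Real.log n ^ 2 / (n * Real.log n ^ 2) * (1 - Real.cos (h * Real.log n)) - 1 / n * (n:ℝ) ^ (-(1 / L)) * (1 - Real.cos (h * Real.log n)) =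
        1 / n * (1 - (n:ℝ) ^ (-(1 / L))) * (1 - Real.cos (h * Real.log n)) := by
      have : Real.log n ^ 2 / (n * Real.log n ^ 2) = 1 / n := by field_simp
      rw [this]
      ring
    rw [e, abs_of_nonneg (mul_nonneg (mul_nonneg (by positivity) (by linarith)) hc.1)]
    calc 1 / n * (1 - (n:ℝ) ^ (-(1 / L))) * (1 - Real.cos (h * Real.log n)) ≤ 1 / n * (Real.log n / L) * 2 := by
          apply mul_le_mul _ hc.2 hc.1 (by positivity)
          apply mul_le_mul_of_nonneg_left _ (by positivity)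
          linarith
      _ = 2 / L * (Real.log n / n) + 2 / Real.log 2 * (0 / n) := by
          rw [zero_div, mul_zero, add_zero]
          ring
  · have h2 : aN n = Λ n := by unfold aN; rw [if_neg hp]
    unfold fp
    rw [if_neg hp, h2, sub_zero, abs_of_nonneg (mul_nonneg (by positivity) hc.1)]
    have h6 := @ArithmeticFunction.vonMangoldt_le_log n
    have h7 : Real.log 2 ≤ Real.log n := Real.log_le_log (by norm_num) hn2
    have h8 : Λ n ^ 2 / (n * Real.log n ^ 2) ≤ 1 / Real.log 2 * (Λ n / n) := by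
      calc Λ n ^ 2 / (n * Real.log n ^ 2) = (Λ n / Real.log n) * (1 / Real.log n) * (Λ n / n) := by field_simp
        _ ≤ 1 * (1 / Real.log 2) * (Λ n / n) := by
            gcongr
            rw [div_le_one hl]; exact h6
        _ = _ := by ring
    have h9 : 0 ≤ 2 / L * (Λ n / n) := by positivity
    calc Λ n ^ 2 / (n * Real.log n ^ 2) * (1 - Real.cos (h * Real.log n)) ≤ (1 / Real.log 2 * (Λ n / n)) * 2 := by
          apply mul_le_mul h8 hc.2 hc.1 (by positivity)
      _ = 2 / Real.log 2 * (Λ n / n) := by ring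
      _ ≤ _ := by linarith

lemma fp_le {L B0 : ℝ} (hL : 0 < L) (hB0 : 0 < B0) (h : ℝ) {n : ℕ} (hn : NX (L / B0) < n) :
    fp L h n ≤ 2 * B0 / L * (Λ n / n * (n:ℝ) ^ (-(1 / L))) := by
  have hv := @ArithmeticFunction.vonMangoldt_nonneg n
  unfold fp
  split_ifs with hp
  · have hn2 : 2 ≤ n := hp.two_le
    have hn2' : (2:ℝ) ≤ n := by exact_mod_cast hn2
    have hn0 : (0:ℝ) < n := by linarith
    have h1 : Λ n = Real.log n := ArithmeticFunction.vonMangoldt_apply_prime hp
    have h6 : Real.exp (L / B0) < n := (Nat.floor_lt (Real.exp_pos _).le).mp hn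
    have h7 : L / B0 < Real.log n := by rwa [Real.lt_log_iff_exp_lt hn0]
    have h8 : 1 ≤ B0 / L * Real.log n := by
      calc (1:ℝ) = B0 / L * (L / B0) := by field_simp
        _ ≤ B0 / L * Real.log n := by gcongr
    rw [rpow_split hn2, h1]
    have hc := cos_bd (h * Real.log n)
    calc 1 / n * (n:ℝ) ^ (-(1 / L)) * (1 - Real.cos (h * Real.log n)) ≤ 1 / n * (n:ℝ) ^ (-(1 / L)) * 2 := by
          gcongr
          exact hc.2
      _ = 2 * (1 / n * (n:ℝ) ^ (-(1 / L))) * 1 := by ring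
      _ ≤ 2 * (1 / n * (n:ℝ) ^ (-(1 / L))) * (B0 / L * Real.log n) := by gcongr
      _ = _ := by ring
  · positivity

lemma prime_tsum {L : ℝ} (h : ℝ) : ∑' p : Nat.Primes, (p : ℝ) ^ (-(1 + 1 / L)) * (1 - Real.cos (h * Real.log p)) = ∑' n : ℕ, fp L h n := by
  have h1 := tsum_subtype {p : ℕ | p.Prime} (fun n : ℕ => (n : ℝ) ^ (-(1 + 1 / L)) * (1 - Real.cos (h * Real.log n)))
  refine Eq.trans ?_ (h1.trans ?_)
  · rfl
  · congr 1
    funext n
    unfold fp indicator
    simp only [mem_ofPred_eq]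

lemma fp_summable {L : ℝ} (hL : 0 < L) (h : ℝ) : Summable (fp L h) := by
  have hs : Summable (fun n : ℕ => 2 * (1 / (n:ℝ) ^ (1 + 1 / L))) := by
    apply Summable.mul_left
    rw [Real.summable_one_div_nat_rpow]
    have : 0 < 1 / L := by positivity
    linarith
  refine Summable.of_nonneg_of_le (fp_nonneg L h) (fun n => ?_) hs
  unfold fp
  split_ifs with hp
  · have hc := cos_bd (h * Real.log n)
    rw [Real.rpow_neg (by positivity), ← one_div, mul_comm]
    apply mul_le_mul_of_nonneg_right hc.2 (by positivity)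
  · positivity

/-- the constant -/
noncomputable def Kz (B0 : ℝ) : ℝ := 2 * Kp + 1 + 2 * (1 + CMe) + 2 / Real.log 2 * CNP + 2 * B0 * (1 + CMe)

/-- comparison of the arithmetic sum with zeta -/
theorem zeta_cmp {B0 : ℝ} (hB0 : 1 ≤ B0) : ∀ᶠ L : ℝ in atTop, ∀ h : ℝ,
    |EN h (NX (L / B0)) - (Real.log L - Real.log ‖riemannZeta (((1 + 1 / L : ℝ) : ℂ) + (h : ℂ) * Complex.I)‖)| ≤ Kz B0 := by
  filter_upwards [zeta_pole, eventually_ge_atTop 1] with L hzp hL1 h
  have hL : 0 < L := by linarith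
  have hB0' : 0 < B0 := by linarith
  have hlog2 : 0 < Real.log 2 := Real.log_pos (by norm_num)
  have hCM := CMe_pos
  have hσ : 1 < 1 + 1 / L := by
    have : 0 < 1 / L := by positivity
    linarith
  have hX : 0 ≤ L / B0 := by positivity
  have a1 := log_zeta hσ h
  have a0 := log_zeta hσ 0
  simp only [zero_mul, Real.cos_zero, mul_one] at a0
  have e1 : (∑' p : Nat.Primes, (p : ℝ) ^ (-(1 + 1 / L))) - ∑' p : Nat.Primes, (p : ℝ) ^ (-(1 + 1 / L)) * Real.cos (h * Real.log p) = ∑' n : ℕ, fp L h n := by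
    rw [← prime_tsum, ← (psum hσ).tsum_sub (psum_cos hσ h)]
    congr 1
    funext p
    ring
  have hsplit := (fp_summable hL h).sum_add_tsum_nat_add (NX (L / B0) + 1)
  have htail : ∑' i : ℕ, fp L h (i + (NX (L / B0) + 1)) ≤ 2 * B0 * (1 + CMe) := by
    apply Real.tsum_le_of_sum_range_le
    · intro i; exact fp_nonneg _ _ _
    · intro m
      have h1 : ∑ i ∈ Finset.range m, fp L h (i + (NX (L / B0) + 1)) ≤ ∑ i ∈ Finset.range m, 2 * B0 / L * (Λ (i + (NX (L / B0) + 1)) / ((i + (NX (L / B0) + 1) : ℕ) : ℝ) * ((i + (NX (L / B0) + 1) : ℕ) : ℝ) ^ (-(1 / L))) := by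
        apply Finset.sum_le_sum
        intro i _
        exact fp_le hL hB0' h (by omega)
      refine h1.trans ?_
      rw [← Finset.mul_sum]
      have h2 := vM_right hL (m + (NX (L / B0) + 1))
      rw [add_comm m, Finset.sum_range_add] at h2
      have h3 : 0 ≤ ∑ n ∈ Finset.range (NX (L / B0) + 1), Λ n / n * (n:ℝ) ^ (-(1 / L)) := by
        apply Finset.sum_nonneg
        intro n _
        have := @ArithmeticFunction.vonMangoldt_nonneg n
        positivity
      have h4 : ∑ i ∈ Finset.range m, (Λ (i + (NX (L / B0) + 1)) / ((i + (NX (L / B0) + 1) : ℕ) : ℝ) * ((i + (NX (L / B0) + 1) : ℕ) : ℝ) ^ (-(1 / L))) ≤ L + CMe := by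
        have h5 : ∑ i ∈ Finset.range m, (Λ (i + (NX (L / B0) + 1)) / ((i + (NX (L / B0) + 1) : ℕ) : ℝ) * ((i + (NX (L / B0) + 1) : ℕ) : ℝ) ^ (-(1 / L))) =
            ∑ x ∈ Finset.range m, Λ (NX (L / B0) + 1 + x) / ((NX (L / B0) + 1 + x : ℕ) : ℝ) * ((NX (L / B0) + 1 + x : ℕ) : ℝ) ^ (-(1 / L)) := by
          refine Finset.sum_congr rfl fun i _ => ?_
          rw [add_comm i]
        rw [h5]
        linarith
      calc 2 * B0 / L * _ ≤ 2 * B0 / L * (L + CMe) := by gcongr
        _ = 2 * B0 * (1 + CMe / L) := by field_simp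
        _ ≤ 2 * B0 * (1 + CMe) := by
            gcongr
            exact div_le_self hCM.le hL1
  have htail0 : 0 ≤ ∑' i : ℕ, fp L h (i + (NX (L / B0) + 1)) := tsum_nonneg fun i => fp_nonneg _ _ _
  have hfin : |EN h (NX (L / B0)) - ∑ n ∈ Finset.range (NX (L / B0) + 1), fp L h n| ≤ 2 * (1 + CMe) + 2 / Real.log 2 * CNP := by
    unfold EN
    rw [← Finset.sum_sub_distrib]
    refine (Finset.abs_sum_le_sum_abs _ _).trans ((Finset.sum_le_sum fun n _ => fin_part hL h n).trans ?_)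
    rw [Finset.sum_add_distrib, ← Finset.mul_sum, ← Finset.mul_sum]
    have h8 := (abs_le.mp (mertens hX)).2
    have h9 := nonprime_sum (NX (L / B0))
    apply add_le_add
    · calc 2 / L * ∑ n ∈ Finset.range (NX (L / B0) + 1), Λ n / n ≤ 2 / L * (L / B0 + CMe) := by gcongr; linarith
        _ = 2 * (1 / B0 + CMe / L) := by field_simp
        _ ≤ 2 * (1 + CMe) := by
            gcongr
            · rw [div_le_one hB0']; exact hB0
            · exact div_le_self hCM.le hL1
    · gcongr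
  unfold Kz
  obtain ⟨Z0, hZ0⟩ : ∃ Z0, Z0 = Real.log ‖riemannZeta (((1 + 1 / L : ℝ) : ℂ) + (0:ℝ) * Complex.I)‖ := ⟨_, rfl⟩
  obtain ⟨Z1, hZ1⟩ : ∃ Z1, Z1 = Real.log ‖riemannZeta (((1 + 1 / L : ℝ) : ℂ) + (h : ℂ) * Complex.I)‖ := ⟨_, rfl⟩
  rw [← hZ0] at a0 hzp
  rw [← hZ1] at a1 ⊢
  have u0 := abs_le.mp a0
  have u1 := abs_le.mp a1
  have u2 := abs_le.mp hfin
  have u3 := abs_le.mp hzp
  rw [abs_le]
  constructor
  · linarith [u0.1, u0.2, u1.1, u1.2, u2.1, u2.2, u3.1, u3.2]
  · linarith [u0.1, u0.2, u1.1, u1.2, u2.1, u2.2, u3.1, u3.2]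

end Pool.Agent.Helper57.UB
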