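import Pool.Agent.Helper57.UB.Pr
import Pool.Agent.Helper57.LS.PrimeAsym
import Pool.Agent.Helper4.PU.BE

namespace Pool.Agent.Helper57.UB

open Set MeasureTheory Filter Topology
open Pool.Agent.Helper57.LH
open Pool.Agent.Helper57.LS
open Pool.Agent.Helper57.UV
open Pool.Agent.Helper4.PU (AT AT_close CAT CAT_pos)
open scoped ArithmeticFunction

/-- the arithmetic sum of cosines -/
noncomputable def PT (L u : ℝ) : ℝ := 2 / L ^ 2 * ∑ n ∈ Finset.range (NX L + 1), Λ n ^ 2 / n * Real.cos (2 * Real.pi * u * (Real.log n / L))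

/-- the correction to the density -/
noncomputable def KD (T u : ℝ) : ℝ := AT T - 1 + PT (Real.log T) u - 2 * ∫ t in (0:ℝ)..1, t * Real.cos (2 * Real.pi * u * t)

lemma hc_deriv (δ y : ℝ) : HasDerivAt (fun y => y * Real.cos (δ * y)) (Real.cos (δ * y) + y * (-Real.sin (δ * y) * δ)) y := by
  have h3 : HasDerivAt (fun y : ℝ => Real.cos (δ * y)) (-Real.sin (δ * y) * δ) y := by
    have h4 : HasDerivAt (fun y : ℝ => δ * y) δ y := by simpa using (hasDerivAt_id y).const_mul δ
    exact h4.cos
  have h5 := (hasDerivAt_id y).fun_mul h3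
  refine h5.congr_deriv ?_
  simp only [id]
  ring

/-- general partial summation against the von Mangoldt function -/
lemma psum_gen {X : ℝ} (hX : 0 < X) {h h' : ℝ → ℝ} (hd : ∀ y, HasDerivAt h (h' y) y) (hc : Continuous h') (h0 : h 0 = 0) {K : ℝ} (hK : ∀ y, 0 ≤ y → y ≤ X → |h' y| ≤ K) :
    |(∑ n ∈ Finset.range (NX X + 1), (Λ n / n) * h (Real.log n)) - ∫ y in (0:ℝ)..X, h y| ≤ CMe * (|h X| + K * X) := by
  set S := Finset.range (NX X + 1) with hS
  have hlog : ∀ n ∈ S, 0 ≤ Real.log n ∧ Real.log n ≤ X := by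
    intro n hn
    rw [hS, Finset.mem_range] at hn
    refine ⟨Real.log_natCast_nonneg n, ?_⟩
    rcases Nat.eq_zero_or_pos n with rfl | hn0
    · simpa using hX.le
    have h1 : (0:ℝ) < n := by exact_mod_cast hn0
    have h2 : (n:ℝ) ≤ Real.exp X := (Nat.le_floor_iff (Real.exp_pos X).le).mp (by unfold NX at hn; omega)
    rwa [Real.log_le_iff_le_exp h1]
  have hii : ∀ a : ℝ, IntervalIntegrable (fun y => if a ≤ y then h' y else 0) volume 0 X := by
    intro a
    have h0 : (fun y => if a ≤ y then h' y else 0) = (Ici a).indicator h' := by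
      funext y
      by_cases h : a ≤ y
      · rw [if_pos h, indicator_of_mem (mem_Ici.mpr h)]
      · rw [if_neg h, indicator_of_notMem (fun h' => h (mem_Ici.mp h'))]
    rw [h0, intervalIntegrable_iff]
    rw [IntegrableOn, integrable_indicator_iff measurableSet_Ici]
    have : IntegrableOn h' (uIoc 0 X) := intervalIntegrable_iff.mp (hc.intervalIntegrable _ _)
    exact this.integrable.integrableOn
  have hrep : ∀ a : ℝ, 0 ≤ a → a ≤ X → h a = h X - ∫ y in (0:ℝ)..X, (if a ≤ y then h' y else 0) := by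
    intro a ha haX
    have h1 : ∫ y in a..X, h' y = h X - h a :=
      intervalIntegral.integral_eq_sub_of_hasDerivAt (fun y _ => hd y) (hc.intervalIntegrable _ _)
    have h2 : ∫ y in (0:ℝ)..X, (if a ≤ y then h' y else 0) = ∫ y in a..X, h' y := by
      rw [intervalIntegral.integral_of_le hX.le, intervalIntegral.integral_of_le haX, ← integral_indicator measurableSet_Ioc,
        ← integral_indicator measurableSet_Ioc]
      apply integral_congr_ae
      have : ∀ᵐ y : ℝ, y ≠ a := by
        rw [ae_iff]; simp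
      filter_upwards [this] with y hy
      by_cases h3 : y ∈ Ioc 0 X
      · rw [indicator_of_mem h3]
        by_cases h4 : a ≤ y
        · have h5 : y ∈ Ioc a X := ⟨lt_of_le_of_ne h4 (Ne.symm hy), h3.2⟩
          rw [if_pos h4, indicator_of_mem h5]
        · rw [if_neg h4, indicator_of_notMem (fun h => h4 h.1.le)]
      · rw [indicator_of_notMem h3]
        by_cases h4 : y ∈ Ioc a X
        · exact absurd ⟨lt_of_le_of_lt ha h4.1, h4.2⟩ h3
        · rw [indicator_of_notMem h4]
    rw [h2, h1]
    ring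
  have e1 : ∑ n ∈ S, (Λ n / n) * h (Real.log n) = h X * Me X - ∫ y in (0:ℝ)..X, h' y * Me y := by
    have e2 : ∀ n ∈ S, (Λ n / n) * h (Real.log n) = h X * (Λ n / n) - ∫ y in (0:ℝ)..X, (Λ n / n) * (if Real.log n ≤ y then h' y else 0) := by
      intro n hn
      obtain ⟨h1, h2⟩ := hlog n hn
      rw [hrep _ h1 h2, intervalIntegral.integral_const_mul]
      ring
    rw [Finset.sum_congr rfl e2, Finset.sum_sub_distrib, ← intervalIntegral.integral_finsetSum (fun n _ => (hii _).const_mul _), ← Finset.mul_sum]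
    congr 1
    apply intervalIntegral.integral_congr
    intro y hy
    rw [uIcc_of_le hX.le] at hy
    simp only
    rw [← Me_eq hy.2 hy.1, Finset.mul_sum]
    refine Finset.sum_congr rfl fun n _ => ?_
    split_ifs <;> ring
  have hMi : IntervalIntegrable (fun y => h' y * Me y) volume 0 X := by
    have h1 : IntervalIntegrable (fun y => ∑ n ∈ S, (Λ n / n) * (if Real.log n ≤ y then h' y else 0)) volume 0 X := by
      have := IntervalIntegrable.sum S (fun n _ => (hii (Real.log n)).const_mul (Λ n / (n:ℝ)))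
      refine this.congr_ae ?_
      filter_upwards with y
      simp
    refine h1.congr ?_
    intro y hy
    rw [uIoc_of_le hX.le] at hy
    simp only
    rw [← Me_eq hy.2 hy.1.le, Finset.mul_sum]
    refine Finset.sum_congr rfl fun n _ => ?_
    split_ifs <;> ring
  have hyi : IntervalIntegrable (fun y => h' y * y) volume 0 X := by
    apply Continuous.intervalIntegrable
    exact hc.mul continuous_id
  have e3 : ∫ y in (0:ℝ)..X, h' y * y = X * h X - ∫ y in (0:ℝ)..X, h y := by
    have h1 := intervalIntegral.integral_mul_deriv_eq_deriv_mul (a := 0) (b := X) (u := fun y => y) (v := h) (u' := fun _ => 1) (v' := h')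
      (fun y _ => hasDerivAt_id y) (fun y _ => hd y) (by simp) (hc.intervalIntegrable _ _)
    rw [h0] at h1
    simp only [mul_zero, sub_zero, one_mul] at h1
    rw [← h1]
    apply intervalIntegral.integral_congr
    intro y _
    simp only
    ring
  have e4 : (∑ n ∈ S, (Λ n / n) * h (Real.log n)) - ∫ y in (0:ℝ)..X, h y = h X * (Me X - X) - ∫ y in (0:ℝ)..X, h' y * (Me y - y) := by
    have e5 : ∫ y in (0:ℝ)..X, h' y * (Me y - y) = (∫ y in (0:ℝ)..X, h' y * Me y) - ∫ y in (0:ℝ)..X, h' y * y := by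
      rw [← intervalIntegral.integral_sub hMi hyi]
      apply intervalIntegral.integral_congr
      intro y _
      simp only
      ring
    rw [e5, e3, e1]
    ring
  have hCM := CMe_pos
  have h5 := intervalIntegral.norm_integral_le_of_norm_le_const (a := 0) (b := X) (C := CMe * K) (f := fun y => h' y * (Me y - y)) (by
    intro y hy
    rw [uIoc_of_le hX.le] at hy
    rw [norm_mul, Real.norm_eq_abs, Real.norm_eq_abs, mul_comm]
    have h6 := hK y hy.1.le hy.2
    have h7 := mertens hy.1.le
    unfold Me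
    gcongr)
  rw [sub_zero, abs_of_pos hX, Real.norm_eq_abs] at h5
  rw [e4]
  have h8 : |h X * (Me X - X)| ≤ |h X| * CMe := by
    rw [abs_mul]
    have h7 := mertens hX.le
    unfold Me
    gcongr
  calc _ ≤ |h X * (Me X - X)| + |∫ y in (0:ℝ)..X, h' y * (Me y - y)| := abs_sub _ _
    _ ≤ |h X| * CMe + CMe * K * X := add_le_add h8 h5
    _ = _ := by ring

lemma cos_int_scale {L : ℝ} (hL : 0 < L) (u : ℝ) : ∫ y in (0:ℝ)..L, y * Real.cos (2 * Real.pi * u / L * y) = L ^ 2 * ∫ t in (0:ℝ)..1, t * Real.cos (2 * Real.pi * u * t) := by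
  have h1 := intervalIntegral.integral_comp_mul_left (a := 0) (b := 1) (fun y => y * Real.cos (2 * Real.pi * u / L * y)) hL.ne'
  rw [mul_zero, mul_one, smul_eq_mul] at h1
  have h2 : ∫ y in (0:ℝ)..L, y * Real.cos (2 * Real.pi * u / L * y) = L * ∫ t in (0:ℝ)..1, (L * t) * Real.cos (2 * Real.pi * u / L * (L * t)) := by
    rw [h1, ← mul_assoc, mul_inv_cancel₀ hL.ne', one_mul]
  rw [h2, ← intervalIntegral.integral_const_mul, ← intervalIntegral.integral_const_mul]
  apply intervalIntegral.integral_congr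
  intro t _
  simp only
  rw [show 2 * Real.pi * u / L * (L * t) = 2 * Real.pi * u * t by field_simp]
  ring

/-- the prime sum agrees with the linear form factor up to `O((1+|u|)/L)` -/
lemma PT_close {L : ℝ} (hL : 1 ≤ L) (u : ℝ) : |PT L u - 2 * ∫ t in (0:ℝ)..1, t * Real.cos (2 * Real.pi * u * t)| ≤ (2 * CNP + 4 * CMe + 4 * Real.pi * CMe * |u|) / L := by
  have hL0 : 0 < L := by linarith
  have hpi := Real.pi_pos
  have hCM := CMe_pos
  set δ : ℝ := 2 * Real.pi * u / L with hδ
  have h1 := psum_gen hL0 (hc_deriv δ) (by fun_prop) (by simp) (K := 1 + |δ| * L) (by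
    intro y hy0 hyL
    refine (abs_add_le _ _).trans ?_
    have a1 := Real.abs_cos_le_one (δ * y)
    have a2 := Real.abs_sin_le_one (δ * y)
    have a3 : |y * (-Real.sin (δ * y) * δ)| ≤ |δ| * L := by
      rw [abs_mul, abs_mul, abs_neg, abs_of_nonneg hy0]
      calc y * (|Real.sin (δ * y)| * |δ|) ≤ L * (1 * |δ|) := by gcongr
        _ = _ := by ring
    linarith)
  rw [cos_int_scale hL0] at h1
  have h2 : |(∑ n ∈ Finset.range (NX L + 1), Λ n ^ 2 / n * Real.cos (2 * Real.pi * u * (Real.log n / L))) - ∑ n ∈ Finset.range (NX L + 1), (Λ n / n) * (Real.log n * Real.cos (δ * Real.log n))| ≤ L * CNP := by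
    rw [← Finset.sum_sub_distrib]
    refine (Finset.abs_sum_le_sum_abs _ _).trans ?_
    have h3 : ∀ n ∈ Finset.range (NX L + 1), |Λ n ^ 2 / n * Real.cos (2 * Real.pi * u * (Real.log n / L)) - (Λ n / n) * (Real.log n * Real.cos (δ * Real.log n))| ≤ L * (aN n / n) := by
      intro n hn
      rw [Finset.mem_range] at hn
      have e1 : 2 * Real.pi * u * (Real.log n / L) = δ * Real.log n := by rw [hδ]; field_simp
      rw [e1]
      rcases Nat.eq_zero_or_pos n with rfl | hn0
      · simp
      have hn0' : (0:ℝ) < n := by exact_mod_cast hn0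
      have h4 : (n:ℝ) ≤ Real.exp L := (Nat.le_floor_iff (Real.exp_pos L).le).mp (by unfold NX at hn; omega)
      have h5 : Real.log n ≤ L := by rwa [Real.log_le_iff_le_exp hn0']
      have e2 : Λ n ^ 2 / n * Real.cos (δ * Real.log n) - (Λ n / n) * (Real.log n * Real.cos (δ * Real.log n)) = (Λ n * (Λ n - Real.log n) / n) * Real.cos (δ * Real.log n) := by ring
      rw [e2, abs_mul]
      have h6 : |Λ n * (Λ n - Real.log n) / n| ≤ L * (aN n / n) := by
        unfold aN
        split_ifs with hp
        · rw [ArithmeticFunction.vonMangoldt_apply_prime hp, sub_self]; simp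
        · have h9 := @ArithmeticFunction.vonMangoldt_nonneg n
          have h10 := @ArithmeticFunction.vonMangoldt_le_log n
          rw [abs_div, abs_mul, abs_of_nonneg h9, abs_of_nonpos (by linarith), abs_of_pos hn0']
          calc Λ n * -(Λ n - Real.log n) / n ≤ Λ n * L / n := by
                gcongr
                linarith
            _ = _ := by ring
      have h7 := Real.abs_cos_le_one (δ * Real.log n)
      have h8 : 0 ≤ L * (aN n / n) := by
        have := aN_nonneg n
        positivity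
      calc _ ≤ L * (aN n / n) * 1 := by gcongr
        _ = _ := mul_one _
    refine (Finset.sum_le_sum h3).trans ?_
    rw [← Finset.mul_sum]
    have := nonprime_sum (NX L)
    gcongr
  have h9 : |L * Real.cos (δ * L)| ≤ L := by
    rw [abs_mul, abs_of_pos hL0]
    have := Real.abs_cos_le_one (δ * L)
    nlinarith
  unfold PT
  obtain ⟨A, hA⟩ : ∃ A, A = ∑ n ∈ Finset.range (NX L + 1), Λ n ^ 2 / n * Real.cos (2 * Real.pi * u * (Real.log n / L)) := ⟨_, rfl⟩
  obtain ⟨B, hB⟩ : ∃ B, B = ∑ n ∈ Finset.range (NX L + 1), (Λ n / n) * (Real.log n * Real.cos (δ * Real.log n)) := ⟨_, rfl⟩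
  obtain ⟨J, hJ⟩ : ∃ J, J = ∫ t in (0:ℝ)..1, t * Real.cos (2 * Real.pi * u * t) := ⟨_, rfl⟩
  rw [← hA, ← hB] at h2
  rw [← hB, ← hJ] at h1
  rw [← hA, ← hJ]
  have e : 2 / L ^ 2 * A - 2 * J = 2 / L ^ 2 * ((A - B) + (B - L ^ 2 * J)) := by
    field_simp
    ring
  have hδL : |δ| * L = 2 * Real.pi * |u| := by
    rw [hδ, abs_div, abs_mul, abs_of_pos (by positivity : 0 < 2 * Real.pi), abs_of_pos hL0]
    field_simp
  rw [e, abs_mul, abs_of_pos (by positivity)]
  have h10 : |(A - B) + (B - L ^ 2 * J)| ≤ L * CNP + CMe * (L + (1 + 2 * Real.pi * |u|) * L) := by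
    refine (abs_add_le _ _).trans (add_le_add h2 (h1.trans ?_))
    rw [hδL]
    gcongr
  calc 2 / L ^ 2 * |(A - B) + (B - L ^ 2 * J)| ≤ 2 / L ^ 2 * (L * CNP + CMe * (L + (1 + 2 * Real.pi * |u|) * L)) := by gcongr
    _ = _ := by
        field_simp
        ring

/-- the correction is small -/
theorem KD_small {T : ℝ} (hT : 3 ≤ T) (u : ℝ) : |KD T u| ≤ (CAT + 2 * CNP + 4 * CMe + 4 * Real.pi * CMe) * (1 + |u|) / Real.log T := by
  have hL := one_le_log hT
  have hL0 : 0 < Real.log T := by linarith
  have h1 := AT_close hT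
  have h2 := PT_close hL u
  have hCM := CMe_pos
  have hCN := CNP_nonneg
  have hCA := CAT_pos
  have hpi := Real.pi_pos
  unfold KD
  have e : AT T - 1 + PT (Real.log T) u - 2 * (∫ t in (0:ℝ)..1, t * Real.cos (2 * Real.pi * u * t)) = (AT T - 1) + (PT (Real.log T) u - 2 * ∫ t in (0:ℝ)..1, t * Real.cos (2 * Real.pi * u * t)) := by ring
  rw [e]
  refine (abs_add_le _ _).trans ((add_le_add h1 h2).trans ?_)
  rw [← add_div]
  apply div_le_div_of_nonneg_right _ hL0.le
  have h3 : 0 ≤ |u| := abs_nonneg u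
  nlinarith [mul_nonneg hCA.le h3, mul_nonneg hCN h3, mul_nonneg hCM.le h3, mul_nonneg hpi.le hCM.le]

end Pool.Agent.Helper57.UB
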