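import Pool.Agent.Helper57.UB.AllK

namespace Pool.Agent.Helper57.UB

open Set MeasureTheory Filter Topology
open Pool.Agent.Helper57.LH
open Pool.Agent.Helper57.LS
open Pool.Agent.Helper57.UV
open Pool.Agent.Helper57.PC (pcDensity pcDensity_le_one pcDensity_nonneg SN SN_pos)
open Pool.Agent.Helper4.PU (AT AT_close CAT CAT_pos)
open Pool.Agent.Helper4.PC (Gs_integrable phiF_int pcDensity_measurable)
open scoped SchwartzMap

/-- what is known about the kernels at a given `T` -/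
def KerOK (C Y T : ℝ) : Prop :=
  (∀ B v : ℝ, 0 < B → B ≤ Y → |v| ≤ Y → |EF T (rh T) (fun u => Gm ((u - v) / B))| ≤ C / B ^ 2 * SN T) ∧
  (∀ B v : ℝ, 0 < B → |EF T (rh T) (fun u => Gm ((u - v) / B))| ≤ C * (1 + B) * SN T)

lemma even_law {C Y Z T M : ℝ} (hC : 0 ≤ C) (hY : 0 < Y) (hZ : 1 ≤ Z) (hZY : Z ^ 5 = Y ^ 2) (hS : 0 ≤ SN T) (hK : KerOK C Y T) (hM : ∀ u, |rh T u| ≤ M)
    (g : 𝓢(ℝ, ℝ)) (hg : ∀ x, g (-x) = g x) {R s : ℝ} (hR : 0 < R) (hRZ : R ≤ Z) (hs : |s| ≤ Z) :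
    |EF T (rh T) (fun u => g ((u - s) / R))| ≤ C * (7 * ∫ x in Ioi (0:ℝ), Dq (Ph g) x) / R ^ 2 * SN T := by
  set μ : Measure ℝ := volume.restrict (Ioi (0:ℝ)) with hμ
  set w : ℝ → ℝ := fun x => wg g x * x with hw
  set B : ℝ → ℝ := fun x => R / x with hB
  set v : ℝ → ℝ := fun _ => s with hv
  have hwm : Measurable w := (wg_cont g).measurable.mul measurable_id
  have hBm : Measurable B := measurable_const.div measurable_id
  have hvm : Measurable v := measurable_const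
  have hpos : ∀ᵐ x ∂μ, 0 < x := ae_restrict_mem measurableSet_Ioi
  have hBp : ∀ᵐ x ∂μ, 0 < B x := by
    filter_upwards [hpos] with x hx
    rw [hB]
    positivity
  have h1 : Integrable (fun x => |w x| * (1 + B x)) μ := by
    have j1 : IntegrableOn (fun x => |wg g x| * x ^ 1 + R * (|wg g x| * x ^ 0)) (Ioi 0) := (wg_int g 1).add ((wg_int g 0).const_mul R)
    refine j1.congr ?_
    filter_upwards [hpos] with x hx
    rw [hw, hB]
    simp only
    rw [abs_mul, abs_of_pos hx]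
    field_simp
  have hf : (fun u => g ((u - s) / R)) = fun u => ∫ x, w x * Gm ((u - v x) / B x) ∂μ := by
    funext u
    have h2 := super g ((u - s) / R)
    rw [hg] at h2
    have h3 : g ((u - s) / R) = ∫ x in Ioi (0:ℝ), wg g x * x * Gm (x * ((u - s) / R)) := by linarith
    rw [h3]
    apply setIntegral_congr_fun measurableSet_Ioi
    intro x hx
    have hx0 : 0 < x := hx
    rw [hw, hB, hv]
    simp only
    rw [show x * ((u - s) / R) = (u - s) / (R / x) by field_simp]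
  rw [hf]
  have h4 := law_fin (μ := μ) (b := fun x => Dq (Ph g) x * (1 / R ^ 2 + (1 + R) * (R ^ 2 + 2 * s ^ 2) / Y ^ 2)) hC hY hS hK.1 hK.2 hwm hBm hvm hBp h1 (rh_meas T) hM
    ((Dq_int (Ph g)).mul_const _) (by
      filter_upwards [hpos] with x hx
      rw [hw, hB, hv]
      simp only
      rw [abs_mul, abs_of_pos hx]
      have h5 : |wg g x| = x ^ 2 * (|D3 (Ph g) x| / 4) := wt_abs (Ph g) x
      rw [h5]
      exact bd_even hx hR hY (by positivity))
  refine h4.trans ?_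
  rw [integral_mul_const]
  have h6 := E_bd hR hRZ hs hZ hZY hY
  have h7 : 0 ≤ ∫ x, Dq (Ph g) x ∂μ := integral_nonneg fun x => Dq_nonneg _ x
  calc C * SN T * ((∫ x, Dq (Ph g) x ∂μ) * (1 / R ^ 2 + (1 + R) * (R ^ 2 + 2 * s ^ 2) / Y ^ 2)) ≤ C * SN T * ((∫ x, Dq (Ph g) x ∂μ) * (7 / R ^ 2)) := by gcongr
    _ = _ := by ring

lemma a1_sq_int (a : 𝓢(ℝ, ℝ)) : Integrable (fun t => |a1 a t| * (1 + 2 * t ^ 2)) := by
  have h0 : Integrable (fun x => ‖x‖ ^ 0 * ‖a x‖) := a.integrable_pow_mul volume 0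
  have h2 : Integrable (fun x => ‖x‖ ^ 2 * ‖a x‖) := a.integrable_pow_mul volume 2
  have h := h0.add (h2.const_mul 2)
  have h' := h.add h.comp_neg
  refine h'.mono' ?_ ?_
  · apply Continuous.aestronglyMeasurable
    have := a1_cont a
    fun_prop
  · filter_upwards with t
    rw [Real.norm_of_nonneg (by positivity)]
    simp only [Pi.add_apply, norm_neg, pow_zero, one_mul]
    have h3 : |a1 a t| ≤ ‖a t‖ + ‖a (-t)‖ := by
      unfold a1
      rw [abs_div, abs_two]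
      have h4 := norm_sub_le (a t) (a (-t))
      rw [Real.norm_eq_abs (a t - a (-t))] at h4
      have : 0 ≤ |a t - a (-t)| := abs_nonneg _
      linarith
    have h5 : ‖t‖ ^ 2 = t ^ 2 := by rw [Real.norm_eq_abs, sq_abs]
    rw [h5]
    calc |a1 a t| * (1 + 2 * t ^ 2) ≤ (‖a t‖ + ‖a (-t)‖) * (1 + 2 * t ^ 2) := by gcongr
      _ = _ := by ring

lemma odd_law' {a : 𝓢(ℝ, ℝ)} (ha : ∀ ξ ∈ Icc (0:ℝ) 1, ∫ t, a t * Real.sin (2 * Real.pi * t * ξ) = ξ)
    {C Y Z T M : ℝ} (hC : 0 ≤ C) (hY : 0 < Y) (hZ : 1 ≤ Z) (hZY : Z ^ 5 = Y ^ 2) (hS : 0 ≤ SN T) (hK : KerOK C Y T) (hM : ∀ u, |rh T u| ≤ M)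
    (g : 𝓢(ℝ, ℝ)) (hg : ∀ x, g (-x) = -g x) {R s : ℝ} (hR : 0 < R) (hRZ : R ≤ Z) (hs : |s| ≤ Z) :
    |EF T (rh T) (fun u => g ((u - s) / R))| ≤ C * (7 * (2 * Real.pi * (∫ x in Ioi (0:ℝ), Dq (Ph (prS g hg)) x) * ∫ t, |a1 a t| * (1 + 2 * t ^ 2))) / R ^ 2 * SN T := by
  have hpi := Real.pi_pos
  set q := wg (prS g hg) with hq
  have hqc : Continuous q := wg_cont _
  set μ : Measure (ℝ × ℝ) := (volume.restrict (Ioi (0:ℝ))).prod volume with hμ
  set w : ℝ × ℝ → ℝ := fun p => (-(2 * Real.pi) * q p.1 * p.1 ^ 2) * a1 a p.2 with hw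
  set B : ℝ × ℝ → ℝ := fun p => R / p.1 with hB
  set v : ℝ × ℝ → ℝ := fun p => s + p.2 * (R / p.1) with hv
  have hwm : Measurable w := by
    apply Continuous.measurable
    have := a1_cont a
    fun_prop
  have hBm : Measurable B := measurable_const.div measurable_fst
  have hvm : Measurable v := measurable_const.add (measurable_snd.mul (measurable_const.div measurable_fst))
  have hpos : ∀ᵐ p : ℝ × ℝ ∂μ, 0 < p.1 := by
    have h3 := Measure.quasiMeasurePreserving_fst (μ := volume.restrict (Ioi (0:ℝ))) (ν := (volume : Measure ℝ))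
    exact h3.ae (ae_restrict_mem measurableSet_Ioi)
  have hBp : ∀ᵐ p : ℝ × ℝ ∂μ, 0 < B p := by
    filter_upwards [hpos] with p hp
    rw [hB]
    positivity
  have h1 : Integrable (fun p => |w p| * (1 + B p)) μ := by
    have j1 : IntegrableOn (fun x => 2 * Real.pi * (|q x| * x ^ 2 + R * (|q x| * x ^ 1))) (Ioi 0) :=
      ((wg_int (prS g hg) 2).add ((wg_int (prS g hg) 1).const_mul R)).const_mul _
    have j2 := Integrable.mul_prod (f := fun x => 2 * Real.pi * (|q x| * x ^ 2 + R * (|q x| * x ^ 1))) (g := fun t => |a1 a t|) j1 (a1_int a).abs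
    refine j2.congr ?_
    filter_upwards [hpos] with p hp
    rw [hw, hB]
    simp only
    rw [abs_mul, abs_mul, abs_mul, abs_neg, abs_of_pos (by positivity : 0 < 2 * Real.pi), abs_of_nonneg (by positivity : 0 ≤ p.1 ^ 2)]
    field_simp
  have hf : (fun u => g ((u - s) / R)) = fun u => ∫ p, w p * Gm ((u - v p) / B p) ∂μ := by
    funext u
    have hint := gK_int (μ := μ) hwm hBm hvm hBp h1 u
    rw [hμ, integral_prod _ hint, odd_rep g hg]
    apply setIntegral_congr_fun measurableSet_Ioi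
    intro x hx
    have hx0 : 0 < x := hx
    simp only
    rw [Ho_conv' a ha, ← integral_const_mul]
    congr 1
    funext t
    rw [hw, hB, hv]
    simp only
    have e : x * ((u - s) / R) - t = (u - (s + t * (R / x))) / (R / x) := by
      field_simp
      ring
    rw [e]
    ring
  rw [hf]
  set E : ℝ := 1 / R ^ 2 + (1 + R) * (R ^ 2 + 2 * s ^ 2) / Y ^ 2 with hE
  have hbi : Integrable (fun p : ℝ × ℝ => (2 * Real.pi * Dq (Ph (prS g hg)) p.1 * E) * (|a1 a p.2| * (1 + 2 * p.2 ^ 2))) μ := by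
    have j1 : IntegrableOn (fun x => 2 * Real.pi * Dq (Ph (prS g hg)) x * E) (Ioi 0) := ((Dq_int (Ph (prS g hg))).const_mul _).mul_const _
    exact Integrable.mul_prod (f := fun x => 2 * Real.pi * Dq (Ph (prS g hg)) x * E) (g := fun t => |a1 a t| * (1 + 2 * t ^ 2)) j1 (a1_sq_int a)
  have h4 := law_fin (μ := μ) (b := fun p => (2 * Real.pi * Dq (Ph (prS g hg)) p.1 * E) * (|a1 a p.2| * (1 + 2 * p.2 ^ 2))) hC hY hS hK.1 hK.2 hwm hBm hvm hBp h1 (rh_meas T) hM hbi (by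
      filter_upwards [hpos] with p hp
      rw [hw, hB, hv]
      simp only
      rw [abs_mul, abs_mul, abs_mul, abs_neg, abs_of_pos (by positivity : 0 < 2 * Real.pi), abs_of_nonneg (by positivity : 0 ≤ p.1 ^ 2)]
      have h5 : |q p.1| = p.1 ^ 2 * (|D3 (Ph (prS g hg)) p.1| / 4) := wt_abs (Ph (prS g hg)) p.1
      rw [h5]
      have h6 := bd_odd (s := s) (t := p.2) (a := |a1 a p.2|) (d := |D3 (Ph (prS g hg)) p.1| / 4) hp hR hY (by positivity) (abs_nonneg _)
      exact h6)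
  refine h4.trans ?_
  rw [hμ, integral_prod_mul (fun x => 2 * Real.pi * Dq (Ph (prS g hg)) x * E) (fun t => |a1 a t| * (1 + 2 * t ^ 2)), integral_mul_const, integral_const_mul]
  have h6 := E_bd hR hRZ hs hZ hZY hY
  have h7 : 0 ≤ ∫ x in Ioi (0:ℝ), Dq (Ph (prS g hg)) x := integral_nonneg fun x => Dq_nonneg _ x
  have h8 : 0 ≤ ∫ t, |a1 a t| * (1 + 2 * t ^ 2) := integral_nonneg fun t => by positivity
  calc C * SN T * (2 * Real.pi * (∫ x in Ioi (0:ℝ), Dq (Ph (prS g hg)) x) * E * ∫ t, |a1 a t| * (1 + 2 * t ^ 2))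
      ≤ C * SN T * (2 * Real.pi * (∫ x in Ioi (0:ℝ), Dq (Ph (prS g hg)) x) * (7 / R ^ 2) * ∫ t, |a1 a t| * (1 + 2 * t ^ 2)) := by gcongr
    _ = _ := by ring

/-- the law for all Schwartz functions at all scales and positions up to a power of `T` -/
theorem large_scale_full : ∃ T₀ : ℝ, 3 ≤ T₀ ∧ ∀ g : 𝓢(ℝ, ℝ), ∃ K : ℝ, 0 ≤ K ∧ ∀ T : ℝ, T₀ ≤ T → ∀ R s : ℝ, 0 < R → R ≤ T ^ (1/250 : ℝ) → |s| ≤ T ^ (1/250 : ℝ) →
    |EF T (rh T) (fun u => g ((u - s) / R))| ≤ K / R ^ 2 * SN T := by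
  obtain ⟨C, hC, hev⟩ := EF_kernel
  obtain ⟨a, ha⟩ := exists_sine
  obtain ⟨T₀, hT₀⟩ := eventually_atTop.mp (hev.and ((eventually_ge_atTop 3).and (Real.tendsto_log_atTop.eventually_ge_atTop CAT)))
  refine ⟨max T₀ 3, le_max_right _ _, fun g => ?_⟩
  have hod : ∀ x, odS g (-x) = -odS g x := by
    intro x
    rw [odS_apply, odS_apply, neg_neg]
    ring
  have hevn : ∀ x, evS g (-x) = evS g x := by
    intro x
    rw [evS_apply, evS_apply, neg_neg]
    ring
  set K1 : ℝ := C * (7 * ∫ x in Ioi (0:ℝ), Dq (Ph (evS g)) x) with hK1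
  set K2 : ℝ := C * (7 * (2 * Real.pi * (∫ x in Ioi (0:ℝ), Dq (Ph (prS (odS g) hod)) x) * ∫ t, |a1 a t| * (1 + 2 * t ^ 2))) with hK2
  have hK1' : 0 ≤ K1 := by
    have : 0 ≤ ∫ x in Ioi (0:ℝ), Dq (Ph (evS g)) x := integral_nonneg fun x => Dq_nonneg _ x
    positivity
  have hK2' : 0 ≤ K2 := by
    have := Real.pi_pos
    have : 0 ≤ ∫ x in Ioi (0:ℝ), Dq (Ph (prS (odS g) hod)) x := integral_nonneg fun x => Dq_nonneg _ x
    have : 0 ≤ ∫ t, |a1 a t| * (1 + 2 * t ^ 2) := integral_nonneg fun t => by positivity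
    positivity
  refine ⟨K1 + K2, by positivity, fun T hT R s hR hRT hsT => ?_⟩
  obtain ⟨h1, h2, h3⟩ := hT₀ T ((le_max_left _ _).trans hT)
  have hT0 : 0 < T := by linarith
  have hL := one_le_log h2
  have hL0 : 0 < Real.log T := by linarith
  have hS := SN_pos (show 1 < T by linarith)
  have hA : |AT T| ≤ 2 := by
    have h5 := AT_close h2
    have h6 : CAT / Real.log T ≤ 1 := by rw [div_le_one hL0]; exact h3
    have h7 : |AT T| ≤ |AT T - 1| + |(1:ℝ)| := by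
      have := abs_add_le (AT T - 1) 1
      rwa [sub_add_cancel] at this
    rw [abs_one] at h7
    linarith
  have hM := rh_abs h2 hA
  have hY : 0 < T ^ (1/100 : ℝ) := Real.rpow_pos_of_pos hT0 _
  have hZ : 1 ≤ T ^ (1/250 : ℝ) := Real.one_le_rpow (by linarith) (by norm_num)
  have hZY : (T ^ (1/250 : ℝ)) ^ 5 = (T ^ (1/100 : ℝ)) ^ 2 := by
    rw [← Real.rpow_natCast, ← Real.rpow_natCast, ← Real.rpow_mul hT0.le, ← Real.rpow_mul hT0.le]
    norm_num
  have k1 := even_law hC.le hY hZ hZY hS.le h1 hM (evS g) hevn hR hRT hsT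
  have k2 := odd_law' ha hC.le hY hZ hZY hS.le h1 hM (odS g) hod hR hRT hsT
  have hsum : (fun u => g ((u - s) / R)) = fun u => evS g ((u - s) / R) + odS g ((u - s) / R) := by
    funext u
    rw [evS_apply, odS_apply]
    ring
  rw [hsum, EF_add (sch_comp_int _ hR s) (sch_comp_int _ hR s) (rh_meas T) hM]
  refine (abs_add_le _ _).trans ((add_le_add k1 k2).trans (le_of_eq ?_))
  rw [hK1, hK2]
  ring

end Pool.Agent.Helper57.UB
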