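import Pool.Agent.Helper57.UB.Scale

namespace Pool.Agent.Helper57.UB

open Set MeasureTheory Filter Topology
open Pool.Agent.Helper57.LH
open Pool.Agent.Helper57.LS
open Pool.Agent.Helper4.PC (Tr)

lemma swap_int {θ : ℝ → ℝ} (hθm : Measurable θ) {c d : ℝ} (hc : 0 ≤ c) (hθ : ∀ B ∈ Ioc c d, |θ B| ≤ 1) (X u : ℝ) :
    Integrable (Function.uncurry fun B ξ : ℝ => θ B * (B * tri (B * ξ) ^ 2) * Ww X u ξ) ((volume.restrict (Ioc c d)).prod volume) := by
  have hm : AEStronglyMeasurable (Function.uncurry fun B ξ : ℝ => θ B * (B * tri (B * ξ) ^ 2) * Ww X u ξ) ((volume.restrict (Ioc c d)).prod volume) := by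
    apply Measurable.aestronglyMeasurable
    have h1 := tri_cont.measurable
    have h2 := (Ww_cont X u).measurable
    have h3 : Measurable fun p : ℝ × ℝ => θ p.1 := hθm.comp measurable_fst
    have h4 : Measurable fun p : ℝ × ℝ => tri (p.1 * p.2) := h1.comp (measurable_fst.mul measurable_snd)
    have h5 : Measurable fun p : ℝ × ℝ => Ww X u p.2 := h2.comp measurable_snd
    exact (h3.mul (measurable_fst.mul (h4.pow_const 2))).mul h5
  have hbd : ∀ B ∈ Ioc c d, ∀ ξ, ‖θ B * (B * tri (B * ξ) ^ 2) * Ww X u ξ‖ ≤ 4 * (B * tri (B * ξ) ^ 2) := by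
    intro B hB ξ
    have hB0 : 0 < B := lt_of_le_of_lt hc hB.1
    have h1 : 0 ≤ B * tri (B * ξ) ^ 2 := by positivity
    rw [norm_mul, norm_mul, Real.norm_of_nonneg h1, Real.norm_eq_abs, Real.norm_eq_abs]
    have h2 := hθ B hB
    have h3 := Ww_abs X u ξ
    calc |θ B| * (B * tri (B * ξ) ^ 2) * |Ww X u ξ| ≤ 1 * (B * tri (B * ξ) ^ 2) * 4 := by gcongr
      _ = _ := by ring
  have hi : ∀ B ∈ Ioc c d, Integrable (fun ξ => θ B * (B * tri (B * ξ) ^ 2) * Ww X u ξ) := by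
    intro B hB
    have hB0 : 0 < B := lt_of_le_of_lt hc hB.1
    refine ((trisq_integrable hB0).const_mul 4).mono' ?_ (Eventually.of_forall (hbd B hB))
    have := tri_cont
    have := Ww_cont X u
    exact Continuous.aestronglyMeasurable (by fun_prop)
  rw [integrable_prod_iff hm]
  constructor
  · rw [ae_restrict_iff' measurableSet_Ioc]
    filter_upwards with B hB
    exact hi B hB
  · have hconst : Integrable (fun _ : ℝ => (8:ℝ)) (volume.restrict (Ioc c d)) := by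
      rw [← IntegrableOn, integrableOn_const_iff]
      right
      exact measure_Ioc_lt_top
    refine hconst.mono' hm.norm.integral_prod_right' ?_
    rw [ae_restrict_iff' measurableSet_Ioc]
    filter_upwards with B hB
    have hB0 : 0 < B := lt_of_le_of_lt hc hB.1
    rw [Real.norm_of_nonneg (integral_nonneg fun _ => norm_nonneg _)]
    simp only [Function.uncurry]
    calc ∫ ξ, ‖θ B * (B * tri (B * ξ) ^ 2) * Ww X u ξ‖ ≤ ∫ ξ, 4 * (B * tri (B * ξ) ^ 2) :=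
          integral_mono (hi B hB).norm ((trisq_integrable hB0).const_mul 4) (hbd B hB)
      _ ≤ 8 := by
          rw [integral_const_mul]
          have := trisq_integral hB0
          linarith

lemma swap {θ : ℝ → ℝ} (hθm : Measurable θ) {c d : ℝ} (hc : 0 ≤ c) (hcd : c ≤ d) (hθ : ∀ B ∈ Ioc c d, |θ B| ≤ 1) (X u : ℝ) :
    ∫ B in c..d, θ B * Dl X B u = ∫ ξ, (∫ B in c..d, θ B * (B * tri (B * ξ) ^ 2)) * Ww X u ξ := by
  rw [intervalIntegral.integral_of_le hcd]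
  have h1 : ∫ B in Ioc c d, θ B * Dl X B u = ∫ B in Ioc c d, ∫ ξ, θ B * (B * tri (B * ξ) ^ 2) * Ww X u ξ := by
    apply setIntegral_congr_fun measurableSet_Ioc
    intro B hB
    have hB0 : 0 < B := lt_of_le_of_lt hc hB.1
    simp only
    rw [Dl_eq hB0, ← integral_const_mul]
    congr 1
    funext ξ
    ring
  rw [h1, integral_integral_swap (swap_int hθm hc hθ X u)]
  congr 1
  funext ξ
  rw [integral_mul_const, intervalIntegral.integral_of_le hcd]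

lemma tri_abs (v : ℝ) : |tri v| ≤ 1 := by
  rw [abs_of_nonneg (tri_nonneg v)]; exact tri_le_one v

lemma tri_mul_abs (v : ℝ) : |v| * tri v ≤ 1 := by
  rcases le_total |v| 1 with h | h
  · have := tri_nonneg v
    have := tri_le_one v
    have := abs_nonneg v
    nlinarith
  · rw [tri_zero_of h]; norm_num

/-- a product of a bounded continuous function with the weight is integrable -/
lemma bd_int {X : ℝ} (hX : 0 < X) (u : ℝ) {M : ℝ → ℝ} (hM : Continuous M) {K : ℝ} (hK : ∀ ξ, |M ξ| ≤ K) :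
    Integrable (fun ξ => M ξ * Aw X u ξ) :=
  (Aw_integrable hX u).bdd_mul (c := K) hM.aestronglyMeasurable (Eventually.of_forall fun ξ => by rw [Real.norm_eq_abs]; exact hK ξ)

lemma low_eq {X b : ℝ} (hb : 0 < b) (u : ℝ) :
    3 / Real.pi ^ 2 * ∫ B in (0:ℝ)..b, Dl X B u = ∫ ξ, (1 - tri (b * ξ) ^ 3 * (1 + 3 * (b * |ξ|))) * Aw X u ξ := by
  have hpi := Real.pi_pos
  have h1 := swap (θ := fun _ => 1) measurable_const le_rfl hb.le (fun _ _ => by simp) X u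
  simp only [one_mul] at h1
  rw [h1, ← integral_const_mul]
  congr 1
  funext ξ
  have h2 := mult_low hb ξ
  simp only [one_mul] at h2
  rw [Ww_eq, ← h2]
  obtain ⟨J, hJ⟩ : ∃ J, J = ∫ B in (0:ℝ)..b, B * tri (B * ξ) ^ 2 := ⟨_, rfl⟩
  rw [← hJ]
  field_simp
  ring

lemma mid_eq {X b : ℝ} (hb : 0 < b) (u : ℝ) :
    3 / Real.pi ^ 2 * ∫ B in b..(2 * b), (b / B - 1) * Dl X B u =
      ∫ ξ, (4 * (b * |ξ|) * (tri (b * ξ) ^ 3 - tri (2 * b * ξ) ^ 3) - tri (b * ξ) ^ 3 * (1 + 3 * (b * |ξ|)) + tri (2 * b * ξ) ^ 3 * (1 + 6 * (b * |ξ|))) * Aw X u ξ := by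
  have hpi := Real.pi_pos
  have h1 := swap (θ := fun B => b / B - 1) (by fun_prop) hb.le (by linarith : b ≤ 2 * b) (fun B hB => by
    have hB0 : 0 < B := lt_trans hb hB.1
    have h3 : b / B ≤ 1 := by rw [div_le_one hB0]; exact hB.1.le
    have h4 : 0 ≤ b / B := by positivity
    rw [abs_le]; constructor <;> linarith) X u
  rw [h1, ← integral_const_mul]
  congr 1
  funext ξ
  have h2 := mult_mid hb ξ
  rw [Ww_eq, ← h2]
  obtain ⟨J, hJ⟩ : ∃ J, J = ∫ B in b..(2 * b), (b / B - 1) * (B * tri (B * ξ) ^ 2) := ⟨_, rfl⟩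
  rw [← hJ]
  field_simp
  ring

/-- the exact decomposition of the triangle into kernels -/
theorem ident {X b : ℝ} (hX : 0 < X) (hb : 0 < b) (u : ℝ) :
    Tr X u = 2 / b * (∫ v, Tr X v * Gm ((u - v) / b)) - 1 / (2 * b) * (∫ v, Tr X v * Gm ((u - v) / (2 * b))) +
      3 / Real.pi ^ 2 * (∫ B in (0:ℝ)..b, Dl X B u) + 3 / Real.pi ^ 2 * (∫ B in b..(2 * b), (b / B - 1) * Dl X B u) -
      b / (2 * Real.pi ^ 2) * Dl X b u + b / (2 * Real.pi ^ 2) * Dl X (2 * b) u := by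
  have hpi := Real.pi_pos
  have htc := tri_cont
  have h2b : 0 < 2 * b := by positivity
  set M1 : ℝ → ℝ := fun ξ => 2 * tri (b * ξ) ^ 2 with hM1
  set M2 : ℝ → ℝ := fun ξ => tri (2 * b * ξ) ^ 2 with hM2
  set M3 : ℝ → ℝ := fun ξ => 1 - tri (b * ξ) ^ 3 * (1 + 3 * (b * |ξ|)) with hM3
  set M4 : ℝ → ℝ := fun ξ => 4 * (b * |ξ|) * (tri (b * ξ) ^ 3 - tri (2 * b * ξ) ^ 3) - tri (b * ξ) ^ 3 * (1 + 3 * (b * |ξ|)) + tri (2 * b * ξ) ^ 3 * (1 + 6 * (b * |ξ|)) with hM4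
  set M5 : ℝ → ℝ := fun ξ => 2 * (b * |ξ|) ^ 2 * tri (b * ξ) ^ 2 with hM5
  set M6 : ℝ → ℝ := fun ξ => 4 * (b * |ξ|) ^ 2 * tri (2 * b * ξ) ^ 2 with hM6
  have e1 : 2 / b * (∫ v, Tr X v * Gm ((u - v) / b)) = ∫ ξ, M1 ξ * Aw X u ξ := by
    rw [conv_eq hX hb, ← integral_const_mul]
    congr 1
    funext ξ
    rw [hM1]
    field_simp
  have e2 : 1 / (2 * b) * (∫ v, Tr X v * Gm ((u - v) / (2 * b))) = ∫ ξ, M2 ξ * Aw X u ξ := by
    rw [conv_eq hX h2b, ← integral_const_mul]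
    congr 1
    funext ξ
    rw [hM2]
    field_simp
  have e3 : 3 / Real.pi ^ 2 * (∫ B in (0:ℝ)..b, Dl X B u) = ∫ ξ, M3 ξ * Aw X u ξ := low_eq hb u
  have e4 : 3 / Real.pi ^ 2 * (∫ B in b..(2 * b), (b / B - 1) * Dl X B u) = ∫ ξ, M4 ξ * Aw X u ξ := mid_eq hb u
  have e5 : b / (2 * Real.pi ^ 2) * Dl X b u = ∫ ξ, M5 ξ * Aw X u ξ := by
    rw [Dl_eq hb, ← integral_const_mul]
    congr 1
    funext ξ
    rw [hM5, Ww_eq]
    simp only
    rw [mul_pow, sq_abs]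
    field_simp
    try ring
  have e6 : b / (2 * Real.pi ^ 2) * Dl X (2 * b) u = ∫ ξ, M6 ξ * Aw X u ξ := by
    rw [Dl_eq h2b, ← integral_const_mul]
    congr 1
    funext ξ
    rw [hM6, Ww_eq]
    simp only
    rw [mul_pow, sq_abs]
    field_simp
    try ring
  have t1 : ∀ ξ, |b * |ξ| * tri (b * ξ)| ≤ 1 := by
    intro ξ
    rw [abs_of_nonneg (mul_nonneg (by positivity) (tri_nonneg _))]
    have := tri_mul_abs (b * ξ)
    rwa [abs_mul, abs_of_pos hb] at this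
  have t2 : ∀ ξ, |b * |ξ| * tri (2 * b * ξ)| ≤ 1 := by
    intro ξ
    rw [abs_of_nonneg (mul_nonneg (by positivity) (tri_nonneg _))]
    have := tri_mul_abs (2 * b * ξ)
    rw [abs_mul, abs_of_pos h2b] at this
    have h3 : 0 ≤ b * |ξ| * tri (2 * b * ξ) := mul_nonneg (by positivity) (tri_nonneg _)
    linarith
  have p1 : ∀ (k : ℕ) (v : ℝ), |tri v ^ k| ≤ 1 := by
    intro k v
    rw [abs_pow]
    exact pow_le_one₀ (abs_nonneg _) (tri_abs v)
  have i1 : Integrable (fun ξ => M1 ξ * Aw X u ξ) := by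
    apply bd_int hX u (by rw [hM1]; fun_prop) (K := 2)
    intro ξ
    rw [hM1]
    simp only
    rw [abs_mul, abs_two]
    have := p1 2 (b * ξ)
    linarith
  have i2 : Integrable (fun ξ => M2 ξ * Aw X u ξ) := by
    apply bd_int hX u (by rw [hM2]; fun_prop) (K := 1)
    intro ξ
    exact p1 2 _
  have q1 : ∀ ξ, |tri (b * ξ) ^ 3 * (b * |ξ|)| ≤ 1 := by
    intro ξ
    rw [show tri (b * ξ) ^ 3 * (b * |ξ|) = tri (b * ξ) ^ 2 * (b * |ξ| * tri (b * ξ)) by ring, abs_mul]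
    exact mul_le_one₀ (p1 2 _) (abs_nonneg _) (t1 ξ)
  have q2 : ∀ ξ, |tri (2 * b * ξ) ^ 3 * (b * |ξ|)| ≤ 1 := by
    intro ξ
    rw [show tri (2 * b * ξ) ^ 3 * (b * |ξ|) = tri (2 * b * ξ) ^ 2 * (b * |ξ| * tri (2 * b * ξ)) by ring, abs_mul]
    exact mul_le_one₀ (p1 2 _) (abs_nonneg _) (t2 ξ)
  have i3 : Integrable (fun ξ => M3 ξ * Aw X u ξ) := by
    apply bd_int hX u (by rw [hM3]; fun_prop) (K := 5)
    intro ξ
    rw [hM3]
    simp only
    have a1 := abs_le.mp (p1 3 (b * ξ))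
    have a2 := abs_le.mp (q1 ξ)
    rw [abs_le]
    constructor <;> nlinarith [a1.1, a1.2, a2.1, a2.2]
  have i4 : Integrable (fun ξ => M4 ξ * Aw X u ξ) := by
    apply bd_int hX u (by rw [hM4]; fun_prop) (K := 20)
    intro ξ
    rw [hM4]
    simp only
    have a1 := abs_le.mp (p1 3 (b * ξ))
    have a2 := abs_le.mp (q1 ξ)
    have a3 := abs_le.mp (p1 3 (2 * b * ξ))
    have a4 := abs_le.mp (q2 ξ)
    rw [abs_le]
    constructor <;> nlinarith [a1.1, a1.2, a2.1, a2.2, a3.1, a3.2, a4.1, a4.2]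
  have i5 : Integrable (fun ξ => M5 ξ * Aw X u ξ) := by
    apply bd_int hX u (by rw [hM5]; fun_prop) (K := 2)
    intro ξ
    rw [hM5]
    simp only
    rw [show 2 * (b * |ξ|) ^ 2 * tri (b * ξ) ^ 2 = 2 * (b * |ξ| * tri (b * ξ)) ^ 2 by ring, abs_mul, abs_two, abs_pow]
    have := pow_le_one₀ (n := 2) (abs_nonneg _) (t1 ξ)
    linarith
  have i6 : Integrable (fun ξ => M6 ξ * Aw X u ξ) := by
    apply bd_int hX u (by rw [hM6]; fun_prop) (K := 4)
    intro ξ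
    rw [hM6]
    simp only
    rw [show 4 * (b * |ξ|) ^ 2 * tri (2 * b * ξ) ^ 2 = 4 * (b * |ξ| * tri (2 * b * ξ)) ^ 2 by ring, abs_mul, abs_of_pos (by norm_num : (0:ℝ) < 4), abs_pow]
    have := pow_le_one₀ (n := 2) (abs_nonneg _) (t2 ξ)
    linarith
  rw [e1, e2, e3, e4, e5, e6, Tr_eq hX]
  have j12 : Integrable (fun ξ => M1 ξ * Aw X u ξ - M2 ξ * Aw X u ξ) := i1.sub i2
  have j3 : Integrable (fun ξ => M1 ξ * Aw X u ξ - M2 ξ * Aw X u ξ + M3 ξ * Aw X u ξ) := j12.add i3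
  have j4 : Integrable (fun ξ => M1 ξ * Aw X u ξ - M2 ξ * Aw X u ξ + M3 ξ * Aw X u ξ + M4 ξ * Aw X u ξ) := j3.add i4
  have j5 : Integrable (fun ξ => M1 ξ * Aw X u ξ - M2 ξ * Aw X u ξ + M3 ξ * Aw X u ξ + M4 ξ * Aw X u ξ - M5 ξ * Aw X u ξ) := j4.sub i5
  rw [← integral_sub i1 i2, ← integral_add j12 i3, ← integral_add j3 i4, ← integral_sub j4 i5, ← integral_add j5 i6]
  congr 1
  funext ξ
  have h := mult_sum hb ξ
  rw [hM1, hM2, hM3, hM4, hM5, hM6]
  simp only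
  linear_combination (-(Aw X u ξ)) * h

end Pool.Agent.Helper57.UB
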