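import Pool.Agent.Helper4.PC.NVe
import Pool.Agent.Helper57.LS.GmFT

namespace Pool.Agent.Helper57.UB

open Set MeasureTheory Filter Topology
open Pool.Agent.Helper57.LH
open Pool.Agent.Helper57.LS
open Pool.Agent.Helper4.PC (Tr)

lemma Tr_def (X u : ℝ) : Tr X u = X * tri (u / X) := rfl

lemma sc_sin (w : ℝ) : Real.pi ^ 2 * w ^ 2 * sc w = Real.sin (Real.pi * w) ^ 2 := by
  have hpi := Real.pi_pos
  by_cases h : w = 0
  · rw [h]; simp
  · rw [sc_eq h]
    unfold PC.sq
    field_simp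

/-- the frequency side of the triangle -/
noncomputable def Aw (X u ξ : ℝ) : ℝ := X ^ 2 * sc (X * ξ) * Real.cos (2 * Real.pi * u * ξ)

/-- second difference weight -/
noncomputable def Ww (X u ξ : ℝ) : ℝ := 2 * (1 - Real.cos (2 * Real.pi * X * ξ)) * Real.cos (2 * Real.pi * u * ξ)

lemma Ww_eq (X u ξ : ℝ) : Ww X u ξ = 4 * Real.pi ^ 2 * ξ ^ 2 * Aw X u ξ := by
  unfold Ww Aw
  have h := sc_sin (X * ξ)
  have h2 : Real.cos (2 * Real.pi * X * ξ) = 1 - 2 * Real.sin (Real.pi * (X * ξ)) ^ 2 := by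
    rw [show 2 * Real.pi * X * ξ = 2 * (Real.pi * (X * ξ)) by ring, Real.cos_two_mul, Real.cos_sq']
    ring
  rw [h2, ← h]
  ring

lemma Aw_cont (X u : ℝ) : Continuous (Aw X u) := by
  unfold Aw
  have := sc_cont
  fun_prop

lemma Ww_cont (X u : ℝ) : Continuous (Ww X u) := by
  unfold Ww
  fun_prop

lemma Ww_abs (X u ξ : ℝ) : |Ww X u ξ| ≤ 4 := by
  unfold Ww
  rw [abs_mul, abs_mul, abs_two]
  have h1 := Real.abs_cos_le_one (2 * Real.pi * u * ξ)
  have h2 : |1 - Real.cos (2 * Real.pi * X * ξ)| ≤ 2 := by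
    rw [abs_le]
    have := Real.cos_le_one (2 * Real.pi * X * ξ)
    have := Real.neg_one_le_cos (2 * Real.pi * X * ξ)
    constructor <;> linarith
  calc 2 * |1 - Real.cos (2 * Real.pi * X * ξ)| * |Real.cos (2 * Real.pi * u * ξ)| ≤ 2 * 2 * 1 := by gcongr
    _ = 4 := by norm_num

lemma Aw_integrable {X : ℝ} (hX : 0 < X) (u : ℝ) : Integrable (Aw X u) := by
  have h1 : Integrable (fun ξ => X ^ 2 * sc (X * ξ)) := (sc_integrable.comp_mul_left' hX.ne').const_mul _
  refine h1.mono' (Aw_cont X u).aestronglyMeasurable ?_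
  filter_upwards with ξ
  unfold Aw
  rw [Real.norm_eq_abs, abs_mul, abs_of_nonneg (mul_nonneg (by positivity) (sc_nonneg _))]
  exact mul_le_of_le_one_right (mul_nonneg (by positivity) (sc_nonneg _)) (Real.abs_cos_le_one _)

lemma Tr_eq {X : ℝ} (hX : 0 < X) (u : ℝ) : Tr X u = ∫ ξ, Aw X u ξ := by
  rw [Tr_def]
  unfold Aw
  rw [← sc_FT (u / X)]
  have h1 := Measure.integral_comp_mul_left (fun x => sc x * Real.cos (2 * Real.pi * (u / X) * x)) X
  rw [abs_of_pos (by positivity), smul_eq_mul] at h1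
  have h2 : ∫ ξ, X ^ 2 * sc (X * ξ) * Real.cos (2 * Real.pi * u * ξ) = X ^ 2 * ∫ ξ, sc (X * ξ) * Real.cos (2 * Real.pi * (u / X) * (X * ξ)) := by
    rw [← integral_const_mul]
    congr 1
    funext ξ
    rw [show 2 * Real.pi * (u / X) * (X * ξ) = 2 * Real.pi * u * ξ by field_simp]
    ring
  rw [h2, h1]
  field_simp

/-- the kernel at scale `B` -/
lemma Gm_scale {B : ℝ} (hB : 0 < B) (y : ℝ) : Gm (y / B) = ∫ ξ, B * tri (B * ξ) ^ 2 * Real.cos (2 * Real.pi * y * ξ) := by
  rw [Gm_int]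
  have h1 := Measure.integral_comp_mul_left (fun v => tri v ^ 2 * Real.cos (2 * Real.pi * (y / B) * v)) B
  rw [abs_of_pos (by positivity), smul_eq_mul] at h1
  have h2 : ∫ ξ, B * tri (B * ξ) ^ 2 * Real.cos (2 * Real.pi * y * ξ) = B * ∫ ξ, tri (B * ξ) ^ 2 * Real.cos (2 * Real.pi * (y / B) * (B * ξ)) := by
    rw [← integral_const_mul]
    congr 1
    funext ξ
    rw [show 2 * Real.pi * (y / B) * (B * ξ) = 2 * Real.pi * y * ξ by field_simp]
    ring
  rw [h2, h1]
  field_simp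

lemma trisq_integrable {B : ℝ} (hB : 0 < B) : Integrable (fun ξ => B * tri (B * ξ) ^ 2) := by
  have h1 : Integrable (fun x => tri x ^ 2) := by
    refine tri_integrable.mono' (tri_cont.pow 2).aestronglyMeasurable ?_
    filter_upwards with x
    rw [Real.norm_of_nonneg (by positivity)]
    have := tri_nonneg x
    have := tri_le_one x
    nlinarith
  exact (h1.comp_mul_left' hB.ne').const_mul _

lemma trisq_integral {B : ℝ} (hB : 0 < B) : ∫ ξ, B * tri (B * ξ) ^ 2 ≤ 2 := by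
  rw [integral_const_mul]
  have h1 := Measure.integral_comp_mul_left (fun v => tri v ^ 2) B
  rw [abs_of_pos (by positivity), smul_eq_mul] at h1
  rw [h1, ← mul_assoc, mul_inv_cancel₀ hB.ne', one_mul]
  have h2 := tri_half 2 two_ne_zero (fun _ => 1) (fun _ => rfl)
  simp only [mul_one] at h2
  rw [h2]
  have h3 : ∫ v in (0:ℝ)..1, (1 - v) ^ 2 ≤ ∫ v in (0:ℝ)..1, (1:ℝ) := by
    apply intervalIntegral.integral_mono_on zero_le_one
    · apply Continuous.intervalIntegrable; fun_prop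
    · apply Continuous.intervalIntegrable; fun_prop
    · intro x hx
      have h4 : 0 ≤ 1 - x := by linarith [hx.2]
      have h5 : 1 - x ≤ 1 := by linarith [hx.1]
      exact pow_le_one₀ h4 h5
  simp only [intervalIntegral.integral_const, smul_eq_mul, mul_one, sub_zero] at h3
  linarith

lemma cos_int {B : ℝ} (hB : 0 < B) (a : ℝ) : Integrable (fun ξ => B * tri (B * ξ) ^ 2 * Real.cos (a * ξ)) := by
  refine (trisq_integrable hB).mono' ?_ ?_
  · have := tri_cont
    exact Continuous.aestronglyMeasurable (by fun_prop)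
  · filter_upwards with ξ
    rw [norm_mul, Real.norm_of_nonneg (by positivity), Real.norm_eq_abs]
    exact mul_le_of_le_one_right (by positivity) (Real.abs_cos_le_one _)

/-- second difference of the kernel -/
noncomputable def Dl (X B u : ℝ) : ℝ := 2 * Gm (u / B) - Gm ((u - X) / B) - Gm ((u + X) / B)

lemma Dl_eq {B : ℝ} (hB : 0 < B) (X u : ℝ) : Dl X B u = ∫ ξ, B * tri (B * ξ) ^ 2 * Ww X u ξ := by
  unfold Dl
  rw [Gm_scale hB, Gm_scale hB, Gm_scale hB, ← integral_const_mul, ← integral_sub, ← integral_sub]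
  · congr 1
    funext ξ
    unfold Ww
    have e1 : Real.cos (2 * Real.pi * (u - X) * ξ) + Real.cos (2 * Real.pi * (u + X) * ξ) = 2 * Real.cos (2 * Real.pi * u * ξ) * Real.cos (2 * Real.pi * X * ξ) := by
      rw [show 2 * Real.pi * (u - X) * ξ = 2 * Real.pi * u * ξ - 2 * Real.pi * X * ξ by ring,
        show 2 * Real.pi * (u + X) * ξ = 2 * Real.pi * u * ξ + 2 * Real.pi * X * ξ by ring, Real.cos_sub, Real.cos_add]
      ring
    linear_combination (-(B * tri (B * ξ) ^ 2)) * e1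
  · exact ((cos_int hB _).const_mul _).sub (cos_int hB _)
  · exact cos_int hB _
  · exact (cos_int hB _).const_mul _
  · exact cos_int hB _

lemma Tr_integrable {X : ℝ} (hX : 0 < X) : Integrable (Tr X) := by
  exact (tri_integrable.comp_div hX.ne').const_mul _

lemma Tr_even (X u : ℝ) : Tr X (-u) = Tr X u := by
  rw [Tr_def, Tr_def, neg_div, tri_even]

lemma Tr_cos {X : ℝ} (hX : 0 < X) (w : ℝ) : ∫ x, Tr X x * Real.cos (2 * Real.pi * w * x) = X ^ 2 * sc (X * w) := by
  simp_rw [Tr_def]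
  have h1 := Measure.integral_comp_mul_left (fun x => X * tri (x / X) * Real.cos (2 * Real.pi * w * x)) X
  rw [abs_of_pos (by positivity), smul_eq_mul] at h1
  have h2 : ∫ x, X * tri (X * x / X) * Real.cos (2 * Real.pi * w * (X * x)) = X * sc (X * w) := by
    rw [← sc_int, ← integral_const_mul]
    congr 1
    funext x
    rw [mul_div_cancel_left₀ _ hX.ne', show 2 * Real.pi * w * (X * x) = 2 * Real.pi * (X * w) * x by ring]
    ring
  rw [h2] at h1
  obtain ⟨J, hJ⟩ : ∃ J, J = ∫ y, X * tri (y / X) * Real.cos (2 * Real.pi * w * y) := ⟨_, rfl⟩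
  rw [← hJ] at h1 ⊢
  field_simp at h1
  linarith

/-- the smoothed triangle -/
lemma conv_eq {X b : ℝ} (hX : 0 < X) (hb : 0 < b) (u : ℝ) :
    ∫ v, Tr X v * Gm ((u - v) / b) = ∫ ξ, b * tri (b * ξ) ^ 2 * Aw X u ξ := by
  have h1 := conv_tri (Tr_integrable hX) (Tr_even X) (trisq_integrable hb) u
  have h2 : ∀ v, Tr X v * Gm ((u - v) / b) = Tr X v * ∫ ξ, b * tri (b * ξ) ^ 2 * Real.cos (2 * Real.pi * (u - v) * ξ) := by
    intro v; rw [Gm_scale hb]
  simp_rw [h2]
  rw [h1]
  congr 1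
  funext ξ
  rw [Tr_cos hX]
  unfold Aw
  ring

end Pool.Agent.Helper57.UB
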