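import Pool.Agent.Helper57.UB.Dens
import Pool.Agent.Helper57.LS.Super

namespace Pool.Agent.Helper57.UB

open Set MeasureTheory Filter Topology
open Pool.Agent.Helper57.LH
open Pool.Agent.Helper57.LS
open Pool.Agent.Helper57.UV
open Pool.Agent.Helper57.PC (pcDensity pcDensity_le_one pcDensity_nonneg SN SN_pos)
open Pool.Agent.Helper4.PU (AT AT_close CAT CAT_pos)
open Pool.Agent.Helper4.PC (Gs_integrable phiF_int pcDensity_measurable)
open scoped ArithmeticFunction

lemma Gm_abs' (y : ℝ) : |Gm y| ≤ 1 := by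
  rw [abs_of_nonneg (Gm_nonneg y)]
  exact (Gm_le y).trans Pool.Agent.Helper4.PC.Gm_zero_le_one

lemma tri_sq_integrable : Integrable (fun v => tri v ^ 2) := by
  have := trisq_integrable one_pos
  simpa using this

/-- transform of the kernel -/
lemma Gm_cos (w : ℝ) : ∫ x, Gm x * Real.cos (2 * Real.pi * w * x) = tri w ^ 2 := by
  have h := inv_even (f := fun v => tri v ^ 2) (g := Gm) tri_sq_integrable (tri_cont.pow 2) (fun v => by rw [tri_even]) Gm_integrable Gm_even
    (fun w => by rw [Gm_int]) w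
  exact h

lemma GmB_cos {B : ℝ} (hB : 0 < B) (w : ℝ) : ∫ x, Gm (x / B) * Real.cos (2 * Real.pi * w * x) = B * tri (B * w) ^ 2 := by
  have h1 := Measure.integral_comp_div (fun x => Gm x * Real.cos (2 * Real.pi * (B * w) * x)) B
  rw [Gm_cos, abs_of_pos hB, smul_eq_mul] at h1
  rw [← h1]
  congr 1
  funext x
  rw [show 2 * Real.pi * (B * w) * (x / B) = 2 * Real.pi * w * x by field_simp]

lemma GmB_integrable {B : ℝ} (hB : 0 < B) : Integrable (fun x => Gm (x / B)) := Gm_integrable.comp_div hB.ne'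

lemma GmB_even (B x : ℝ) : Gm (-x / B) = Gm (x / B) := by rw [neg_div, Gm_even]

lemma Gs_cos {B : ℝ} (hB : 0 < B) (v ξ : ℝ) : ∫ u, Gm ((u - v) / B) * Real.cos (2 * Real.pi * u * ξ) = B * tri (B * ξ) ^ 2 * Real.cos (2 * Real.pi * v * ξ) := by
  have h1 := integral_sub_left_eq_self (fun u => Gm ((u - v) / B) * Real.cos (2 * Real.pi * u * ξ)) volume v
  rw [← h1]
  have h2 := int_shift_cos (GmB_integrable hB) (fun x => GmB_even B x) v ξ
  rw [GmB_cos hB] at h2
  have h3 : ∀ x, Gm ((v - x - v) / B) * Real.cos (2 * Real.pi * (v - x) * ξ) = Gm (x / B) * Real.cos (2 * Real.pi * (v - x) * ξ) := by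
    intro x
    rw [show v - x - v = -x by ring, GmB_even]
  simp_rw [h3]
  rw [h2]
  ring

/-- box indicator -/
noncomputable def bx (t : ℝ) : ℝ := (Icc (-1:ℝ) 1).indicator (fun _ => 1) t

lemma bx_int : Integrable bx := by
  unfold bx
  rw [integrable_indicator_iff measurableSet_Icc]
  exact integrableOn_const (by simp)

lemma bx_cos (u : ℝ) : ∫ t, bx t * Real.cos (2 * Real.pi * u * t) = 2 * ∫ t in (0:ℝ)..1, Real.cos (2 * Real.pi * u * t) := by
  have h1 : ∫ t, bx t * Real.cos (2 * Real.pi * u * t) = ∫ t in (-1:ℝ)..1, Real.cos (2 * Real.pi * u * t) := by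
    rw [intervalIntegral.integral_of_le (by norm_num), ← integral_Icc_eq_integral_Ioc, ← integral_indicator measurableSet_Icc]
    congr 1
    funext t
    unfold bx
    by_cases h : t ∈ Icc (-1:ℝ) 1
    · rw [indicator_of_mem h, indicator_of_mem h, one_mul]
    · rw [indicator_of_notMem h, indicator_of_notMem h, zero_mul]
  have hci : ∀ a b : ℝ, IntervalIntegrable (fun t => Real.cos (2 * Real.pi * u * t)) volume a b := by
    intro a b; apply Continuous.intervalIntegrable; fun_prop
  rw [h1, ← intervalIntegral.integral_add_adjacent_intervals (hci (-1) 0) (hci 0 1)]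
  have h2 : ∫ t in (-1:ℝ)..0, Real.cos (2 * Real.pi * u * t) = ∫ t in (0:ℝ)..1, Real.cos (2 * Real.pi * u * t) := by
    have h3 := intervalIntegral.integral_comp_neg (a := 0) (b := 1) (fun t => Real.cos (2 * Real.pi * u * t))
    rw [neg_zero] at h3
    rw [← h3]
    apply intervalIntegral.integral_congr
    intro t _
    simp only
    rw [mul_neg, Real.cos_neg]
  rw [h2]
  ring

/-- the kernel against the band limited delta -/
lemma Gs_box {B : ℝ} (hB : 0 < B) (v : ℝ) : ∫ u, Gm ((u - v) / B) * (2 * ∫ t in (0:ℝ)..1, Real.cos (2 * Real.pi * u * t)) = ∫ t, bx t * (Real.cos (2 * Real.pi * v * t) * (B * tri (B * t) ^ 2)) := by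
  have h1 := integral_sub_left_eq_self (fun u => Gm ((u - v) / B) * (2 * ∫ t in (0:ℝ)..1, Real.cos (2 * Real.pi * u * t))) volume v
  rw [← h1]
  have h2 := conv_tri (GmB_integrable hB) (fun x => GmB_even B x) bx_int v
  simp_rw [GmB_cos hB] at h2
  rw [← h2]
  congr 1
  funext x
  rw [show v - x - v = -x by ring, GmB_even, bx_cos]

/-- for scale at least one the band limit is invisible -/
lemma Gs_box_eq {B : ℝ} (hB : 1 ≤ B) (v : ℝ) : ∫ u, Gm ((u - v) / B) * (2 * ∫ t in (0:ℝ)..1, Real.cos (2 * Real.pi * u * t)) = Gm ((0 - v) / B) := by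
  have hB0 : 0 < B := by linarith
  rw [Gs_box hB0, zero_sub, GmB_even, Gm_scale hB0]
  congr 1
  funext t
  unfold bx
  by_cases h : t ∈ Icc (-1:ℝ) 1
  · rw [indicator_of_mem h]; ring
  · rw [indicator_of_notMem h]
    have h1 : 1 ≤ |B * t| := by
      rw [abs_mul, abs_of_pos hB0]
      have h2 : 1 < |t| := by
        by_contra h3
        push Not at h3
        exact h (abs_le.mp h3)
      nlinarith
    rw [tri_zero_of h1]
    ring

lemma box_bd {B : ℝ} (hB : 0 < B) (v : ℝ) : |∫ u, Gm ((u - v) / B) * (2 * ∫ t in (0:ℝ)..1, Real.cos (2 * Real.pi * u * t))| ≤ 2 * B := by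
  rw [Gs_box hB]
  have h1 : ∀ t, ‖bx t * (Real.cos (2 * Real.pi * v * t) * (B * tri (B * t) ^ 2))‖ ≤ bx t * B := by
    intro t
    have hb : 0 ≤ bx t := indicator_nonneg (fun _ _ => zero_le_one) _
    rw [norm_mul, norm_mul, Real.norm_of_nonneg hb, Real.norm_of_nonneg (by positivity : 0 ≤ B * tri (B * t) ^ 2), Real.norm_eq_abs]
    have h2 := Real.abs_cos_le_one (2 * Real.pi * v * t)
    have h3 : tri (B * t) ^ 2 ≤ 1 := pow_le_one₀ (tri_nonneg _) (tri_le_one _)
    have h4 : |Real.cos (2 * Real.pi * v * t)| * (B * tri (B * t) ^ 2) ≤ 1 * (B * 1) := by gcongr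
    calc bx t * (|Real.cos (2 * Real.pi * v * t)| * (B * tri (B * t) ^ 2)) ≤ bx t * (1 * (B * 1)) := by gcongr
      _ = _ := by ring
  have h2 := norm_integral_le_of_norm_le (bx_int.mul_const B) (Eventually.of_forall h1)
  rw [Real.norm_eq_abs, integral_mul_const] at h2
  have h3 : ∫ t, bx t = 2 := by
    unfold bx
    rw [integral_indicator measurableSet_Icc]
    simp
    norm_num
  rw [h3] at h2
  exact h2

/-- the density splits -/
lemma dens_eq {T u : ℝ} (hu : u ≠ 0) : pcDensity u + KD T u = AT T + PT (Real.log T) u - 2 * ∫ t in (0:ℝ)..1, Real.cos (2 * Real.pi * u * t) := by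
  have h1 : pcDensity u = 1 - sc u := by
    rw [sc_eq hu]
    rfl
  have h2 := sc_tri u
  have h3 : ∫ v in (0:ℝ)..1, (1 - v) * Real.cos (2 * Real.pi * u * v) = (∫ v in (0:ℝ)..1, Real.cos (2 * Real.pi * u * v)) - ∫ v in (0:ℝ)..1, v * Real.cos (2 * Real.pi * u * v) := by
    rw [← intervalIntegral.integral_sub]
    · apply intervalIntegral.integral_congr
      intro v _
      simp only
      ring
    · apply Continuous.intervalIntegrable; fun_prop
    · apply Continuous.intervalIntegrable; fun_prop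
  rw [h1, h2, h3]
  unfold KD
  ring

lemma PT_cont (L : ℝ) : Continuous (PT L) := by unfold PT; fun_prop

lemma PT_abs {L : ℝ} (hL : 1 ≤ L) (u : ℝ) : |PT L u| ≤ 2 * (1 + CMe) := by
  have hL0 : 0 < L := by linarith
  have hCM := CMe_pos
  unfold PT
  rw [abs_mul, abs_of_pos (by positivity)]
  have h1 : |∑ n ∈ Finset.range (NX L + 1), Λ n ^ 2 / n * Real.cos (2 * Real.pi * u * (Real.log n / L))| ≤ L * (L + CMe) := by
    refine (Finset.abs_sum_le_sum_abs _ _).trans ?_
    have h2 : ∀ n ∈ Finset.range (NX L + 1), |Λ n ^ 2 / n * Real.cos (2 * Real.pi * u * (Real.log n / L))| ≤ L * (Λ n / n) := by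
      intro n hn
      rw [Finset.mem_range] at hn
      have h9 := @ArithmeticFunction.vonMangoldt_nonneg n
      rcases Nat.eq_zero_or_pos n with rfl | hn0
      · simp
      have hn0' : (0:ℝ) < n := by exact_mod_cast hn0
      have h4 : (n:ℝ) ≤ Real.exp L := (Nat.le_floor_iff (Real.exp_pos L).le).mp (by unfold NX at hn; omega)
      have h5 : Real.log n ≤ L := by rwa [Real.log_le_iff_le_exp hn0']
      have h10 := @ArithmeticFunction.vonMangoldt_le_log n
      rw [abs_mul, abs_of_nonneg (by positivity)]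
      have h7 := Real.abs_cos_le_one (2 * Real.pi * u * (Real.log n / L))
      calc Λ n ^ 2 / n * |Real.cos (2 * Real.pi * u * (Real.log n / L))| ≤ Λ n ^ 2 / n * 1 := by gcongr
        _ = Λ n * (Λ n / n) := by ring
        _ ≤ L * (Λ n / n) := by
            gcongr
            linarith
    refine (Finset.sum_le_sum h2).trans ?_
    rw [← Finset.mul_sum]
    have h8 := (abs_le.mp (mertens hL0.le)).2
    gcongr
    linarith
  calc 2 / L ^ 2 * _ ≤ 2 / L ^ 2 * (L * (L + CMe)) := by gcongr
    _ = 2 * (1 + CMe / L) := by field_simp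
    _ ≤ 2 * (1 + CMe) := by
        gcongr
        exact div_le_self hCM.le hL

lemma bc_cont : Continuous (fun u : ℝ => 2 * ∫ t in (0:ℝ)..1, Real.cos (2 * Real.pi * u * t)) := by
  apply Continuous.mul continuous_const
  exact intervalIntegral.continuous_parametric_intervalIntegral_of_continuous' (f := fun u t => Real.cos (2 * Real.pi * u * t)) (by
    unfold Function.uncurry; fun_prop) 0 1

lemma bc_abs (u : ℝ) : |2 * ∫ t in (0:ℝ)..1, Real.cos (2 * Real.pi * u * t)| ≤ 2 := by
  rw [abs_mul, abs_two]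
  have h := intervalIntegral.norm_integral_le_of_norm_le_const (a := 0) (b := 1) (C := 1) (f := fun t => Real.cos (2 * Real.pi * u * t)) (by
    intro t _
    exact Real.abs_cos_le_one _)
  rw [Real.norm_eq_abs, sub_zero, abs_one, mul_one] at h
  linarith

lemma Gs_bdmul {B : ℝ} (hB : 0 < B) (v : ℝ) {ρ : ℝ → ℝ} (hρ : AEStronglyMeasurable ρ) {M : ℝ} (hM : ∀ u, |ρ u| ≤ M) : Integrable (fun u => Gm ((u - v) / B) * ρ u) :=
  (Gs_integrable hB v).mul_bdd (c := M) hρ (Eventually.of_forall fun u => by rw [Real.norm_eq_abs]; exact hM u)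

/-- integral of the kernel against the density -/
lemma Gs_dens {T B : ℝ} (hL : 1 ≤ Real.log T) (hB : 0 < B) (v : ℝ) :
    ∫ u, Gm ((u - v) / B) * (pcDensity u + KD T u) = AT T * B + 2 / Real.log T ^ 2 * (∑ n ∈ Finset.range (NX (Real.log T) + 1), Λ n ^ 2 / n * (B * tri (B * (Real.log n / Real.log T)) ^ 2 * Real.cos (2 * Real.pi * v * (Real.log n / Real.log T)))) -
      ∫ u, Gm ((u - v) / B) * (2 * ∫ t in (0:ℝ)..1, Real.cos (2 * Real.pi * u * t)) := by
  have e1 : ∫ u, Gm ((u - v) / B) * (pcDensity u + KD T u) = ∫ u, (Gm ((u - v) / B) * AT T + Gm ((u - v) / B) * PT (Real.log T) u - Gm ((u - v) / B) * (2 * ∫ t in (0:ℝ)..1, Real.cos (2 * Real.pi * u * t))) := by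
    apply integral_congr_ae
    have : ∀ᵐ u : ℝ, u ≠ 0 := by
      rw [ae_iff]; simp
    filter_upwards [this] with u hu
    rw [dens_eq hu]
    ring
  have i1 : Integrable (fun u => Gm ((u - v) / B) * AT T) := (Gs_integrable hB v).mul_const _
  have i2 : Integrable (fun u => Gm ((u - v) / B) * PT (Real.log T) u) := Gs_bdmul hB v (PT_cont _).aestronglyMeasurable (PT_abs hL)
  have i3 : Integrable (fun u => Gm ((u - v) / B) * (2 * ∫ t in (0:ℝ)..1, Real.cos (2 * Real.pi * u * t))) := Gs_bdmul hB v bc_cont.aestronglyMeasurable bc_abs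
  have i12 : Integrable (fun u => Gm ((u - v) / B) * AT T + Gm ((u - v) / B) * PT (Real.log T) u) := i1.add i2
  rw [e1, integral_sub i12 i3, integral_add i1 i2, integral_mul_const, Pool.Agent.Helper4.PU.Gs_int_eq hB]
  congr 2
  · ring
  · unfold PT
    have e2 : ∀ u, Gm ((u - v) / B) * (2 / Real.log T ^ 2 * ∑ n ∈ Finset.range (NX (Real.log T) + 1), Λ n ^ 2 / n * Real.cos (2 * Real.pi * u * (Real.log n / Real.log T))) =
        2 / Real.log T ^ 2 * ∑ n ∈ Finset.range (NX (Real.log T) + 1), Λ n ^ 2 / n * (Gm ((u - v) / B) * Real.cos (2 * Real.pi * u * (Real.log n / Real.log T))) := by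
      intro u
      rw [Finset.mul_sum, Finset.mul_sum, Finset.mul_sum]
      refine Finset.sum_congr rfl fun n _ => ?_
      ring
    simp_rw [e2]
    rw [integral_const_mul, integral_finsetSum]
    · congr 1
      refine Finset.sum_congr rfl fun n _ => ?_
      rw [integral_const_mul, Gs_cos hB]
    · intro n _
      apply Integrable.const_mul
      exact Gs_bdmul hB v (Continuous.aestronglyMeasurable (by fun_prop)) (fun u => Real.abs_cos_le_one _)

/-- the deviation from the arithmetic density -/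
noncomputable def EF (T : ℝ) (ρ φ : ℝ → ℝ) : ℝ := WP T φ - SN T * (φ 0 + ∫ u, φ u * ρ u)

/-- the density -/
noncomputable def rh (T u : ℝ) : ℝ := pcDensity u + KD T u

/-- prediction for kernels of scale at least one -/
lemma pred_eq {T B : ℝ} (hL : 1 ≤ Real.log T) (hB : 1 ≤ B) (v : ℝ) :
    Gm ((0 - v) / B) + ∫ u, Gm ((u - v) / B) * rh T u = AT T * B + PXc (Real.log T / B) (2 * Real.pi * v / Real.log T) / B := by
  have hB0 : 0 < B := by linarith
  have hL0 : 0 < Real.log T := by linarith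
  unfold rh
  rw [Gs_dens hL hB0, Gs_box_eq hB, PXc_fixed (B0 := 1) hL0 one_pos hB, div_one]
  have e : 2 / Real.log T ^ 2 * (∑ n ∈ Finset.range (NX (Real.log T) + 1), Λ n ^ 2 / n * (B * tri (B * (Real.log n / Real.log T)) ^ 2 * Real.cos (2 * Real.pi * v * (Real.log n / Real.log T)))) =
      (∑ n ∈ Finset.range (NX (Real.log T) + 1), 2 * (Λ n ^ 2 / n) * (B ^ 2 / Real.log T ^ 2) * mp (1 - B * (Real.log n / Real.log T)) ^ 2 * Real.cos (2 * Real.pi * v / Real.log T * Real.log n)) / B := by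
    rw [Finset.mul_sum, Finset.sum_div]
    refine Finset.sum_congr rfl fun n _ => ?_
    have h1 : 0 ≤ Real.log n / Real.log T := div_nonneg (Real.log_natCast_nonneg n) hL0.le
    rw [tri_mp hB0.le, abs_of_nonneg h1, show 2 * Real.pi * v / Real.log T * Real.log n = 2 * Real.pi * v * (Real.log n / Real.log T) by ring]
    field_simp
  rw [e]
  ring

/-- trivial bound for the prediction -/
lemma pred_bd {T B : ℝ} (hT : 3 ≤ T) (hA : |AT T| ≤ 2) (hB : 0 < B) (v : ℝ) :
    |Gm ((0 - v) / B) + ∫ u, Gm ((u - v) / B) * rh T u| ≤ (6 + 2 * CMe) * (1 + B) := by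
  have hL := one_le_log hT
  have hCM := CMe_pos
  have h1 := Gm_abs' ((0 - v) / B)
  have h2 : |∫ u, Gm ((u - v) / B) * rh T u| ≤ (6 + 2 * CMe) * B := by
    have e1 : ∫ u, Gm ((u - v) / B) * rh T u = ∫ u, Gm ((u - v) / B) * (AT T + PT (Real.log T) u - 2 * ∫ t in (0:ℝ)..1, Real.cos (2 * Real.pi * u * t)) := by
      apply integral_congr_ae
      have : ∀ᵐ u : ℝ, u ≠ 0 := by
        rw [ae_iff]; simp
      filter_upwards [this] with u hu
      unfold rh
      rw [dens_eq hu]
    have h3 : ∀ u, ‖Gm ((u - v) / B) * (AT T + PT (Real.log T) u - 2 * ∫ t in (0:ℝ)..1, Real.cos (2 * Real.pi * u * t))‖ ≤ Gm ((u - v) / B) * (6 + 2 * CMe) := by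
      intro u
      rw [norm_mul, Real.norm_of_nonneg (Gm_nonneg _), Real.norm_eq_abs]
      have a1 := PT_abs hL u
      have a2 := bc_abs u
      have a3 : |AT T + PT (Real.log T) u - 2 * ∫ t in (0:ℝ)..1, Real.cos (2 * Real.pi * u * t)| ≤ 6 + 2 * CMe := by
        refine (abs_sub _ _).trans ?_
        have := abs_add_le (AT T) (PT (Real.log T) u)
        linarith
      have := Gm_nonneg ((u - v) / B)
      gcongr
    have h4 := norm_integral_le_of_norm_le ((Gs_integrable hB v).mul_const (6 + 2 * CMe)) (Eventually.of_forall h3)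
    rw [integral_mul_const, Pool.Agent.Helper4.PU.Gs_int_eq hB, Real.norm_eq_abs] at h4
    rw [e1]
    linarith
  refine (abs_add_le _ _).trans ?_
  linarith

end Pool.Agent.Helper57.UB
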