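import Pool.Agent.Helper57.UB.Top

namespace Pool.Agent.Helper57.UB

open Set MeasureTheory Filter Topology
open Pool.Agent.Helper57.LH
open Pool.Agent.Helper57.LS
open Pool.Agent.Helper57.UV
open Pool.Agent.Helper4.PC (Tr)
open Pool.Agent.Helper57.PC (SN SN_pos)
open Pool.Agent.Helper4.PU (AT)

/-- the low scales -/
lemma low_bd {T X S C' B0 : ℝ} (hB0 : 0 ≤ B0) (hS : 0 ≤ S) (hC : 0 ≤ C') (hg : ∀ B v, 0 ≤ GW T B v) (hu : ∀ B : ℝ, 0 < B → ∀ v : ℝ, GW T B v ≤ C' * (1 + B) * S) :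
    |∫ B in (0:ℝ)..B0, DW T X B| ≤ 4 * C' * (1 + B0) * B0 * S := by
  have h1 : ∀ B ∈ uIoc 0 B0, ‖DW T X B‖ ≤ 4 * C' * (1 + B0) * S := by
    intro B hB
    rw [uIoc_of_le hB0] at hB
    have a1 := hu B hB.1 0
    have a2 := hu B hB.1 X
    have a3 := hu B hB.1 (-X)
    have b1 := hg B 0
    have b2 := hg B X
    have b3 := hg B (-X)
    have c1 : C' * (1 + B) * S ≤ C' * (1 + B0) * S := by
      have := hB.2
      gcongr
    rw [Real.norm_eq_abs, DW_eq, abs_le]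
    constructor <;> linarith
  have h2 := intervalIntegral.norm_integral_le_of_norm_le_const h1
  rw [Real.norm_eq_abs, sub_zero, abs_of_nonneg hB0] at h2
  calc |∫ B in (0:ℝ)..B0, DW T X B| ≤ 4 * C' * (1 + B0) * S * B0 := h2
    _ = _ := by ring

lemma inv_sq_int {c d : ℝ} (hc : 0 < c) (hcd : c ≤ d) : ∫ B in c..d, 1 / B ^ 2 ≤ 1 / c := by
  have h1 : ∀ x ∈ uIcc c d, HasDerivAt (fun B : ℝ => -(1 / B)) (1 / x ^ 2) x := by
    intro x hx
    rw [uIcc_of_le hcd] at hx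
    have hx0 : x ≠ 0 := by linarith [hx.1]
    have := (hasDerivAt_inv hx0).neg
    simp only [one_div]
    refine this.congr_deriv ?_
    rw [neg_neg]
  have h2 : IntervalIntegrable (fun B : ℝ => 1 / B ^ 2) volume c d := by
    apply ContinuousOn.intervalIntegrable
    intro x hx
    rw [uIcc_of_le hcd] at hx
    have hx0 : x ≠ 0 := by linarith [hx.1]
    apply ContinuousAt.continuousWithinAt
    fun_prop (disch := positivity)
  rw [intervalIntegral.integral_eq_sub_of_hasDerivAt h1 h2]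
  have : 0 < 1 / d := by have : 0 < d := by linarith
                         positivity
  linarith

lemma inv_sq_ii {c d : ℝ} (hc : 0 < c) (hcd : c ≤ d) : IntervalIntegrable (fun B : ℝ => 1 / B ^ 2) volume c d := by
  apply ContinuousOn.intervalIntegrable
  intro x hx
  rw [uIcc_of_le hcd] at hx
  have hx0 : x ≠ 0 := by linarith [hx.1]
  apply ContinuousAt.continuousWithinAt
  fun_prop (disch := positivity)

/-- the middle scales -/
lemma mid_bd {T X S A C y B0 b : ℝ} {P : ℝ → ℝ → ℝ} (hXy : |X| ≤ y) (hy : 0 ≤ y) (hB0 : 1 ≤ B0) (hb : B0 ≤ b) (hby : b ≤ y) (hS : 0 ≤ S) (hC : 0 ≤ C)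
    (hPe : ∀ B, P B (-X) = P B X) (hPi : IntervalIntegrable (fun B => 2 * (P B 0 - P B X) / B) volume B0 b)
    (h : ∀ B v, B0 ≤ B → B ≤ y → |v| ≤ y → |GW T B v - S * (A * B + P B v / B)| ≤ C * (S / B ^ 2)) :
    |(∫ B in B0..b, DW T X B) - S * ∫ B in B0..b, 2 * (P B 0 - P B X) / B| ≤ 4 * C * S := by
  have hB0' : 0 < B0 := by linarith
  have i1 : IntervalIntegrable (fun B => DW T X B) volume B0 b := by
    have := DW_ii T X (θ := fun _ => 1) measurable_const hb (fun _ _ => by simp)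
    simpa using this
  have i2 : IntervalIntegrable (fun B => S * (2 * (P B 0 - P B X) / B)) volume B0 b := hPi.const_mul S
  rw [← intervalIntegral.integral_const_mul, ← intervalIntegral.integral_sub i1 i2]
  have h1 : ∀ B ∈ Ioc B0 b, ‖DW T X B - S * (2 * (P B 0 - P B X) / B)‖ ≤ 4 * C * S * (1 / B ^ 2) := by
    intro B hB
    rw [Real.norm_eq_abs]
    have h3 := DW_law (A := A) hXy hy (hPe B) (h B · hB.1.le (hB.2.trans hby))
    calc _ ≤ 4 * (C * (S / B ^ 2)) := h3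
      _ = _ := by ring
  have h2 := intervalIntegral.norm_integral_le_of_norm_le hb (Eventually.of_forall h1) ((inv_sq_ii hB0' hb).const_mul _)
  rw [intervalIntegral.integral_const_mul, Real.norm_eq_abs] at h2
  have h3 := inv_sq_int hB0' hb
  have h4 : 1 / B0 ≤ 1 := by rw [div_le_one hB0']; exact hB0
  calc _ ≤ 4 * C * S * ∫ B in B0..b, 1 / B ^ 2 := h2
    _ ≤ 4 * C * S * 1 := by gcongr; linarith
    _ = _ := mul_one _

/-- the transition scales -/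
lemma trans_bd {T X S A C y b : ℝ} {P : ℝ → ℝ → ℝ} (hXy : |X| ≤ y) (hy : 0 ≤ y) (hb : 1 ≤ b) (hby : 2 * b ≤ y) (hS : 0 ≤ S) (hC : 0 ≤ C)
    (hP : ∀ B v, 0 < B → |P B v| ≤ 4) (hPe : ∀ B, P B (-X) = P B X)
    (h : ∀ B v, b ≤ B → B ≤ y → |v| ≤ y → |GW T B v - S * (A * B + P B v / B)| ≤ C * (S / B ^ 2)) :
    |∫ B in b..(2 * b), (b / B - 1) * DW T X B| ≤ (16 + 4 * C) * S := by
  have hb0 : 0 < b := by linarith
  have h1 : ∀ B ∈ uIoc b (2 * b), ‖(b / B - 1) * DW T X B‖ ≤ (16 + 4 * C) * S / b := by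
    intro B hB
    rw [uIoc_of_le (by linarith)] at hB
    have hB0 : 0 < B := lt_trans hb0 hB.1
    have h3 : b / B ≤ 1 := by rw [div_le_one hB0]; exact hB.1.le
    have h4 : 0 ≤ b / B := by positivity
    have h5 : |b / B - 1| ≤ 1 := by rw [abs_le]; constructor <;> linarith
    have h6 := DW_bd (A := A) hXy hy (by linarith [hB.1]) hS hC (hP B · hB0) (hPe B) (h B · hB.1.le (hB.2.trans hby))
    have h7 : (16 + 4 * C) * S / B ≤ (16 + 4 * C) * S / b := by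
      have := hB.1
      gcongr
    rw [norm_mul, Real.norm_eq_abs, Real.norm_eq_abs]
    calc |b / B - 1| * |DW T X B| ≤ 1 * ((16 + 4 * C) * S / b) := by
          gcongr
          exact h6.trans h7
      _ = _ := one_mul _
  have h2 := intervalIntegral.norm_integral_le_of_norm_le_const h1
  rw [Real.norm_eq_abs, show 2 * b - b = b by ring, abs_of_pos hb0] at h2
  calc _ ≤ (16 + 4 * C) * S / b * b := h2
    _ = _ := by field_simp

/-- combination of all scales -/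
theorem comb {T X S A C C' y B0 b : ℝ} {P : ℝ → ℝ → ℝ} (hX : 0 < X) (hXb : X ≤ b) (hB0 : 1 ≤ B0) (hb : B0 ≤ b) (hby : 2 * b ≤ y)
    (hS : 0 ≤ S) (hC : 0 ≤ C) (hC' : 0 ≤ C') (hP : ∀ B v, 0 < B → |P B v| ≤ 4) (hPe : ∀ B, P B (-X) = P B X)
    (hPi : IntervalIntegrable (fun B => 2 * (P B 0 - P B X) / B) volume B0 b)
    (h : ∀ B v, B0 ≤ B → B ≤ y → |v| ≤ y → |GW T B v - S * (A * B + P B v / B)| ≤ C * (S / B ^ 2))
    (hg : ∀ B v, 0 ≤ GW T B v) (hu : ∀ B : ℝ, 0 < B → ∀ v : ℝ, GW T B v ≤ C' * (1 + B) * S) :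
    |WP T (Tr X) - S * (A * X ^ 2 + 3 / Real.pi ^ 2 * ∫ B in B0..b, 2 * (P B 0 - P B X) / B)| ≤ (100 + 30 * C + 4 * C' * (1 + B0) * B0) * S := by
  have hpi := Real.pi_gt_three
  have hpi2 : 9 < Real.pi ^ 2 := by nlinarith
  have hb0 : 0 < b := by linarith
  have hb1 : 1 ≤ b := by linarith
  have hy : 0 ≤ y := by linarith
  have hXy : |X| ≤ y := by rw [abs_of_pos hX]; linarith
  have t1 := top hX hXb hS hC hb1 (P := P b) (hP b · hb0) (fun v hv => h b v hb (by linarith) (by linarith))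
  have t2 := top hX (by linarith : X ≤ 2 * b) hS hC (by linarith : 1 ≤ 2 * b) (P := P (2 * b)) (hP (2 * b) · (by linarith))
    (fun v hv => h (2 * b) v (by linarith) hby (by linarith))
  have t3 := low_bd (X := X) (by linarith : 0 ≤ B0) hS hC' hg hu
  have t4 := mid_bd hXy hy hB0 hb (by linarith) hS hC hPe hPi h
  have t5 := trans_bd hXy hy hb1 hby hS hC hP hPe (fun B v hB hBy hv => h B v (hb.trans hB) hBy hv)
  have t6 := DW_bd (A := A) hXy hy hb1 hS hC (hP b · hb0) (hPe b) (h b · hb (by linarith))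
  have t7 := DW_bd (A := A) hXy hy (by linarith : 1 ≤ 2 * b) hS hC (hP (2 * b) · (by linarith)) (hPe (2 * b)) (h (2 * b) · (by linarith) hby)
  have hsplit : (∫ B in (0:ℝ)..b, DW T X B) = (∫ B in (0:ℝ)..B0, DW T X B) + ∫ B in B0..b, DW T X B := by
    have j1 := DW_ii T X (θ := fun _ => 1) measurable_const (by linarith : (0:ℝ) ≤ B0) (fun _ _ => by simp)
    have j2 := DW_ii T X (θ := fun _ => 1) measurable_const hb (fun _ _ => by simp)
    simp only [one_mul] at j1 j2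
    rw [intervalIntegral.integral_add_adjacent_intervals j1 j2]
  have hid := WP_ident hX hb0 T
  rw [hsplit] at hid
  obtain ⟨I1, hI1⟩ : ∃ I1, I1 = ∫ v, Tr X v * GW T b v := ⟨_, rfl⟩
  obtain ⟨I2, hI2⟩ : ∃ I2, I2 = ∫ v, Tr X v * GW T (2 * b) v := ⟨_, rfl⟩
  obtain ⟨I3, hI3⟩ : ∃ I3, I3 = ∫ B in (0:ℝ)..B0, DW T X B := ⟨_, rfl⟩
  obtain ⟨I4, hI4⟩ : ∃ I4, I4 = ∫ B in B0..b, DW T X B := ⟨_, rfl⟩
  obtain ⟨I5, hI5⟩ : ∃ I5, I5 = ∫ B in b..(2 * b), (b / B - 1) * DW T X B := ⟨_, rfl⟩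
  obtain ⟨I6, hI6⟩ : ∃ I6, I6 = DW T X b := ⟨_, rfl⟩
  obtain ⟨I7, hI7⟩ : ∃ I7, I7 = DW T X (2 * b) := ⟨_, rfl⟩
  obtain ⟨J, hJ⟩ : ∃ J, J = ∫ B in B0..b, 2 * (P B 0 - P B X) / B := ⟨_, rfl⟩
  rw [← hI1, ← hI2, ← hI3, ← hI4, ← hI5, ← hI6, ← hI7] at hid
  rw [← hI1] at t1
  rw [← hI2] at t2
  rw [← hI3] at t3
  rw [← hI4, ← hJ] at t4
  rw [← hI5] at t5
  rw [← hI6] at t6
  rw [← hI7] at t7
  rw [← hJ, hid]
  have e : 2 / b * I1 - 1 / (2 * b) * I2 + 3 / Real.pi ^ 2 * (I3 + I4) + 3 / Real.pi ^ 2 * I5 - b / (2 * Real.pi ^ 2) * I6 + b / (2 * Real.pi ^ 2) * I7 -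
      S * (A * X ^ 2 + 3 / Real.pi ^ 2 * J) = 2 * (1 / b * I1 - S * A * X ^ 2) - (1 / (2 * b) * I2 - S * A * X ^ 2) + 3 / Real.pi ^ 2 * I3 + 3 / Real.pi ^ 2 * (I4 - S * J) +
      3 / Real.pi ^ 2 * I5 - 1 / (2 * Real.pi ^ 2) * (b * I6) + 1 / (2 * Real.pi ^ 2) * (b * I7) := by
    ring
  rw [e]
  have k3 : 3 / Real.pi ^ 2 ≤ 1 := by rw [div_le_one (by positivity)]; linarith
  have k4 : 1 / (2 * Real.pi ^ 2) ≤ 1 := by rw [div_le_one (by positivity)]; linarith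
  have k30 : 0 ≤ 3 / Real.pi ^ 2 := by positivity
  have k40 : 0 ≤ 1 / (2 * Real.pi ^ 2) := by positivity
  have s3 : |3 / Real.pi ^ 2 * I3| ≤ 4 * C' * (1 + B0) * B0 * S := by
    rw [abs_mul, abs_of_nonneg k30]
    calc 3 / Real.pi ^ 2 * |I3| ≤ 1 * (4 * C' * (1 + B0) * B0 * S) := by gcongr
      _ = _ := one_mul _
  have s4 : |3 / Real.pi ^ 2 * (I4 - S * J)| ≤ 4 * C * S := by
    rw [abs_mul, abs_of_nonneg k30]
    calc 3 / Real.pi ^ 2 * |I4 - S * J| ≤ 1 * (4 * C * S) := by gcongr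
      _ = _ := one_mul _
  have s5 : |3 / Real.pi ^ 2 * I5| ≤ (16 + 4 * C) * S := by
    rw [abs_mul, abs_of_nonneg k30]
    calc 3 / Real.pi ^ 2 * |I5| ≤ 1 * ((16 + 4 * C) * S) := by gcongr
      _ = _ := one_mul _
  have s6 : |1 / (2 * Real.pi ^ 2) * (b * I6)| ≤ (16 + 4 * C) * S := by
    rw [abs_mul, abs_mul, abs_of_nonneg k40, abs_of_pos hb0]
    calc 1 / (2 * Real.pi ^ 2) * (b * |I6|) ≤ 1 * (b * ((16 + 4 * C) * S / b)) := by gcongr
      _ = _ := by field_simp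
  have s7 : |1 / (2 * Real.pi ^ 2) * (b * I7)| ≤ (16 + 4 * C) * S := by
    rw [abs_mul, abs_mul, abs_of_nonneg k40, abs_of_pos hb0]
    calc 1 / (2 * Real.pi ^ 2) * (b * |I7|) ≤ 1 * (b * ((16 + 4 * C) * S / (2 * b))) := by gcongr
      _ = (16 + 4 * C) * S / 2 := by field_simp
      _ ≤ _ := by
          have : 0 ≤ (16 + 4 * C) * S := by positivity
          linarith
  have hCS : 0 ≤ C * S := by positivity
  have u1 := abs_le.mp t1
  have u2 := abs_le.mp t2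
  have u3 := abs_le.mp s3
  have u4 := abs_le.mp s4
  have u5 := abs_le.mp s5
  have u6 := abs_le.mp s6
  have u7 := abs_le.mp s7
  rw [abs_le]
  constructor
  · linarith [u1.1, u1.2, u2.1, u2.2, u3.1, u4.1, u5.1, u6.2, u7.1]
  · linarith [u1.1, u1.2, u2.1, u2.2, u3.2, u4.2, u5.2, u6.1, u7.2]

end Pool.Agent.Helper57.UB
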