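import Pool.Agent.Helper57.UB.Mid
import Pool.Agent.Helper57.LS.Mertens

namespace Pool.Agent.Helper57.UB

open Set MeasureTheory Filter Topology
open Pool.Agent.Helper57.LH
open Pool.Agent.Helper57.LS
open Pool.Agent.Helper57.UV
open scoped ArithmeticFunction

lemma ap_half {X : ℝ} (hX : 0 < X) (n : ℕ) : 1 / 2 * ap X n ^ 2 = 2 * (Λ n ^ 2 / n) * (1 / X ^ 2) * mp (1 - Real.log n / X) ^ 2 := by
  rcases Nat.lt_or_ge n 1 with h | h
  · rw [ap_zero_lt (by omega)]
    have : n = 0 := by omega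
    subst this
    simp
  have hn0 : (0:ℝ) < n := by exact_mod_cast h
  rcases lt_or_ge (NX X) n with h2 | h2
  · rw [ap_zero_ge hX h2]
    have h3 : Real.exp X < n := (Nat.floor_lt (Real.exp_pos X).le).mp h2
    have h4 : X < Real.log n := by rwa [Real.lt_log_iff_exp_lt hn0]
    rw [mp_zero]
    · ring
    · rw [sub_nonpos, one_le_div hX]; exact h4.le
  · rw [ap_eq hX h h2]
    have h3 : (n:ℝ) ≤ Real.exp X := (Nat.le_floor_iff (Real.exp_pos X).le).mp h2
    have h4 : Real.log n ≤ X := by rwa [Real.log_le_iff_le_exp hn0]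
    rw [mp_of (by rw [sub_nonneg, div_le_one hX]; exact h4)]
    have hs := Real.sq_sqrt hn0.le
    calc 1 / 2 * (2 / X * (Λ n * (1 - Real.log n / X) / Real.sqrt n)) ^ 2 = 2 * (Λ n ^ 2 / Real.sqrt n ^ 2) * (1 / X ^ 2) * (1 - Real.log n / X) ^ 2 := by ring
      _ = _ := by rw [hs]

lemma NX_mono {X Y : ℝ} (h : X ≤ Y) : NX X ≤ NX Y := by
  unfold NX
  exact Nat.floor_le_floor (Real.exp_le_exp.mpr h)

/-- the prime term over a fixed range -/
lemma PXc_fixed {L B B0 : ℝ} (hL : 0 < L) (hB0 : 0 < B0) (hB : B0 ≤ B) (δ : ℝ) :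
    PXc (L / B) δ = ∑ n ∈ Finset.range (NX (L / B0) + 1), 2 * (Λ n ^ 2 / n) * (B ^ 2 / L ^ 2) * mp (1 - B * (Real.log n / L)) ^ 2 * Real.cos (δ * Real.log n) := by
  have hB' : 0 < B := by linarith
  have hX : 0 < L / B := by positivity
  have hle : NX (L / B) ≤ NX (L / B0) := NX_mono (by gcongr)
  unfold PXc
  have h1 : ∑ n ∈ Finset.range (NX (L / B) + 1), ap (L / B) n ^ 2 * Real.cos (δ * Real.log n) =
      ∑ n ∈ Finset.range (NX (L / B0) + 1), ap (L / B) n ^ 2 * Real.cos (δ * Real.log n) := by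
    apply Finset.sum_subset
    · intro n hn
      rw [Finset.mem_range] at hn ⊢
      omega
    · intro n _ hn
      rw [Finset.mem_range] at hn
      rw [ap_zero_ge hX (by omega)]
      ring
  rw [h1, Finset.mul_sum]
  refine Finset.sum_congr rfl fun n _ => ?_
  rw [← mul_assoc, ap_half hX]
  have e1 : Real.log n / (L / B) = B * (Real.log n / L) := by field_simp
  have e2 : 1 / (L / B) ^ 2 = B ^ 2 / L ^ 2 := by field_simp
  rw [e1, e2]

/-- difference of prime terms -/
noncomputable def QB (L h : ℝ) (N : ℕ) (B : ℝ) : ℝ := ∑ n ∈ Finset.range (N + 1), 4 * (Λ n ^ 2 / n) * (1 - Real.cos (h * Real.log n)) * (1 / L ^ 2) * (B * mp (1 - B * (Real.log n / L)) ^ 2)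

lemma QB_cont (L h : ℝ) (N : ℕ) : Continuous (QB L h N) := by
  unfold QB
  have := mp_cont
  fun_prop

lemma QB_eq {L B B0 : ℝ} (hL : 0 < L) (hB0 : 0 < B0) (hB : B0 ≤ B) (h : ℝ) :
    2 * (PXc (L / B) 0 - PXc (L / B) h) / B = QB L h (NX (L / B0)) B := by
  have hB' : 0 < B := by linarith
  rw [PXc_fixed hL hB0 hB, PXc_fixed hL hB0 hB, ← Finset.sum_sub_distrib, Finset.mul_sum, Finset.sum_div]
  unfold QB
  refine Finset.sum_congr rfl fun n _ => ?_
  rw [zero_mul, Real.cos_zero]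
  field_simp
  ring

/-- the cut-off -/
noncomputable def Rc (x : ℝ) : ℝ := mp (1 - x) ^ 3 * (1 + 3 * x)

lemma QB_int {L B0 b : ℝ} (hL : 0 < L) (hbL : L ≤ b * Real.log 2) (h : ℝ) (N : ℕ) :
    3 / Real.pi ^ 2 * ∫ B in B0..b, QB L h N B = 1 / Real.pi ^ 2 * ∑ n ∈ Finset.range (N + 1), Λ n ^ 2 / (n * Real.log n ^ 2) * (1 - Real.cos (h * Real.log n)) * Rc (B0 * (Real.log n / L)) := by
  have hpi := Real.pi_pos
  unfold QB
  rw [intervalIntegral.integral_finsetSum]
  · rw [Finset.mul_sum, Finset.mul_sum]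
    refine Finset.sum_congr rfl fun n _ => ?_
    rw [intervalIntegral.integral_const_mul]
    rcases Nat.lt_or_ge n 2 with hn | hn
    · have : Λ n = 0 := by interval_cases n <;> simp
      rw [this]
      ring
    have hn2 : (2:ℝ) ≤ n := by exact_mod_cast hn
    have hl : 0 < Real.log n := Real.log_pos (by linarith)
    have h1 := J_one (Real.log n / L) B0 b
    have h2 : mp (1 - b * (Real.log n / L)) = 0 := by
      apply mp_zero
      have h3 : Real.log 2 ≤ Real.log n := Real.log_le_log (by norm_num) hn2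
      have hlog2 : 0 < Real.log 2 := Real.log_pos (by norm_num)
      have hb0 : 0 < b := by
        by_contra h4
        push Not at h4
        have := mul_nonpos_of_nonpos_of_nonneg h4 hlog2.le
        linarith
      rw [sub_nonpos, ← mul_div_assoc, one_le_div hL]
      calc L ≤ b * Real.log 2 := hbL
        _ ≤ b * Real.log n := by gcongr
    rw [h2, zero_pow three_ne_zero, zero_mul, sub_zero] at h1
    obtain ⟨J, hJ⟩ : ∃ J, J = ∫ B in B0..b, B * mp (1 - B * (Real.log n / L)) ^ 2 := ⟨_, rfl⟩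
    rw [← hJ] at h1 ⊢
    have h5 : J = mp (1 - B0 * (Real.log n / L)) ^ 3 * (1 + 3 * B0 * (Real.log n / L)) / (12 * (Real.log n / L) ^ 2) := by
      rw [← h1]
      field_simp
    rw [h5]
    unfold Rc
    field_simp
    ring
  · intro n _
    apply Continuous.intervalIntegrable
    have := mp_cont
    fun_prop

lemma Rc_bd {x : ℝ} (hx0 : 0 ≤ x) (hx1 : x ≤ 1) : |Rc x - 1| ≤ 6 * x ^ 2 := by
  unfold Rc
  rw [mp_of (by linarith)]
  have e : (1 - x) ^ 3 * (1 + 3 * x) - 1 = -(x ^ 2 * (6 - 8 * x + 3 * x ^ 2)) := by ring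
  rw [e, abs_neg, abs_of_nonneg]
  · have : x ^ 2 * (6 - 8 * x + 3 * x ^ 2) ≤ x ^ 2 * 6 := by
      gcongr
      nlinarith
    linarith
  · have : 0 ≤ 6 - 8 * x + 3 * x ^ 2 := by nlinarith [sq_nonneg (3 * x - 4)]
    positivity

/-- the arithmetic sum -/
noncomputable def EN (h : ℝ) (N : ℕ) : ℝ := ∑ n ∈ Finset.range (N + 1), Λ n ^ 2 / (n * Real.log n ^ 2) * (1 - Real.cos (h * Real.log n))

lemma EN_cmp {L B0 : ℝ} (hB0 : 1 ≤ B0) (hL : B0 ≤ L) (h : ℝ) :
    |(∑ n ∈ Finset.range (NX (L / B0) + 1), Λ n ^ 2 / (n * Real.log n ^ 2) * (1 - Real.cos (h * Real.log n)) * Rc (B0 * (Real.log n / L))) - EN h (NX (L / B0))| ≤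
      12 * (1 + CMe) := by
  have hB0' : 0 < B0 := by linarith
  have hL0 : 0 < L := by linarith
  have hX : 0 < L / B0 := by positivity
  unfold EN
  rw [← Finset.sum_sub_distrib]
  have h1 : ∀ n ∈ Finset.range (NX (L / B0) + 1), |Λ n ^ 2 / (n * Real.log n ^ 2) * (1 - Real.cos (h * Real.log n)) * Rc (B0 * (Real.log n / L)) -
      Λ n ^ 2 / (n * Real.log n ^ 2) * (1 - Real.cos (h * Real.log n))| ≤ 12 * B0 / L * (Λ n / n) := by
    intro n hn
    rw [Finset.mem_range] at hn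
    have hv := @ArithmeticFunction.vonMangoldt_nonneg n
    rcases Nat.lt_or_ge n 2 with hn2 | hn2
    · have : Λ n = 0 := by interval_cases n <;> simp
      rw [this]
      simp
    have hn2' : (2:ℝ) ≤ n := by exact_mod_cast hn2
    have hn0 : (0:ℝ) < n := by linarith
    have hl : 0 < Real.log n := Real.log_pos (by linarith)
    have h3 : (n:ℝ) ≤ Real.exp (L / B0) := (Nat.le_floor_iff (Real.exp_pos _).le).mp (show n ≤ NX (L / B0) by omega)
    have h4 : Real.log n ≤ L / B0 := by rwa [Real.log_le_iff_le_exp hn0]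
    have hx0 : 0 ≤ B0 * (Real.log n / L) := by positivity
    have hx1 : B0 * (Real.log n / L) ≤ 1 := by
      rw [← mul_div_assoc, div_le_one hL0]
      rwa [le_div_iff₀' hB0'] at h4
    have h5 := Rc_bd hx0 hx1
    have h6 : |1 - Real.cos (h * Real.log n)| ≤ 2 := by
      have := Real.cos_le_one (h * Real.log n)
      have := Real.neg_one_le_cos (h * Real.log n)
      rw [abs_le]; constructor <;> linarith
    have h7 := @ArithmeticFunction.vonMangoldt_le_log n
    rw [show Λ n ^ 2 / (n * Real.log n ^ 2) * (1 - Real.cos (h * Real.log n)) * Rc (B0 * (Real.log n / L)) -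
      Λ n ^ 2 / (n * Real.log n ^ 2) * (1 - Real.cos (h * Real.log n)) = Λ n ^ 2 / (n * Real.log n ^ 2) * (1 - Real.cos (h * Real.log n)) * (Rc (B0 * (Real.log n / L)) - 1) by ring,
      abs_mul, abs_mul, abs_of_nonneg (by positivity : 0 ≤ Λ n ^ 2 / (n * Real.log n ^ 2))]
    calc Λ n ^ 2 / (n * Real.log n ^ 2) * |1 - Real.cos (h * Real.log n)| * |Rc (B0 * (Real.log n / L)) - 1|
        ≤ Λ n ^ 2 / (n * Real.log n ^ 2) * 2 * (6 * (B0 * (Real.log n / L)) ^ 2) := by gcongr
      _ = 12 * B0 / L * (Λ n / n) * (Λ n * B0 / L) := by field_simp; ring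
      _ ≤ 12 * B0 / L * (Λ n / n) * 1 := by
          gcongr
          rw [div_le_one hL0]
          calc Λ n * B0 ≤ (L / B0) * B0 := by gcongr; linarith
            _ = L := by field_simp
      _ = _ := mul_one _
  refine (Finset.abs_sum_le_sum_abs _ _).trans ((Finset.sum_le_sum h1).trans ?_)
  rw [← Finset.mul_sum]
  have h8 := (abs_le.mp (mertens hX.le)).2
  have hC := CMe_pos
  calc 12 * B0 / L * ∑ n ∈ Finset.range (NX (L / B0) + 1), Λ n / n ≤ 12 * B0 / L * (L / B0 + CMe) := by gcongr; linarith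
    _ = 12 * (1 + CMe * (B0 / L)) := by field_simp
    _ ≤ 12 * (1 + CMe * 1) := by
        gcongr
        rw [div_le_one hL0]; exact hL
    _ = _ := by ring

end Pool.Agent.Helper57.UB
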