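import Pool.Agent.Helper57.UB.Ident

namespace Pool.Agent.Helper57.UB

open Set MeasureTheory Filter Topology
open Pool.Agent.Helper57.LH
open Pool.Agent.Helper57.LS
open Pool.Agent.Helper4.PC (Tr)

/-- positive part -/
noncomputable def mp (y : ℝ) : ℝ := max 0 y

lemma mp_cont : Continuous mp := by unfold mp; fun_prop
lemma mp_nonneg (y : ℝ) : 0 ≤ mp y := le_max_left _ _
lemma mp_mul (y : ℝ) : mp y * mp y = mp y * y := by
  unfold mp
  rcases le_total 0 y with h | h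
  · rw [max_eq_right h]
  · rw [max_eq_left h]; ring

lemma mp_of {y : ℝ} (h : 0 ≤ y) : mp y = y := max_eq_right h
lemma mp_zero {y : ℝ} (h : y ≤ 0) : mp y = 0 := max_eq_left h

lemma mp_cube (y : ℝ) : HasDerivAt (fun x => mp x ^ 3) (3 * mp y ^ 2) y := by
  rcases lt_trichotomy y 0 with h | h | h
  · rw [mp_zero h.le]
    have h1 : HasDerivAt (fun _ : ℝ => (0:ℝ)) (3 * 0 ^ 2) y := by
      norm_num
      exact hasDerivAt_const _ _
    refine h1.congr_of_eventuallyEq ?_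
    filter_upwards [gt_mem_nhds h] with x hx
    rw [mp_zero hx.le]; norm_num
  · subst h
    rw [mp_zero le_rfl]
    rw [hasDerivAt_iff_isLittleO_nhds_zero]
    simp only [zero_add, mp_zero le_rfl]
    rw [Asymptotics.isLittleO_iff]
    intro c hc
    have h1 : ∀ᶠ x : ℝ in 𝓝 0, |x| < min c 1 := by
      have := Metric.ball_mem_nhds (0:ℝ) (lt_min hc one_pos)
      filter_upwards [this] with x hx
      rwa [Metric.mem_ball, dist_zero_right, Real.norm_eq_abs] at hx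
    filter_upwards [h1] with x hx
    have h2 : |mp x| ≤ |x| := by
      rw [abs_of_nonneg (mp_nonneg x)]
      exact max_le (abs_nonneg _) (le_abs_self _)
    have h3 : |x| ≤ c := hx.le.trans (min_le_left _ _)
    have h4 : |x| ≤ 1 := hx.le.trans (min_le_right _ _)
    have e : mp x ^ 3 - 0 ^ 3 - x • ((3:ℝ) * 0 ^ 2) = mp x ^ 3 := by
      rw [smul_eq_mul]; ring
    rw [e, norm_pow, Real.norm_eq_abs, Real.norm_eq_abs]
    have h5 := abs_nonneg x
    calc |mp x| ^ 3 ≤ |x| ^ 3 := by gcongr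
      _ = |x| * |x| * |x| := by ring
      _ ≤ c * 1 * |x| := by gcongr
      _ = c * |x| := by ring
  · rw [mp_of h.le]
    have h1 : HasDerivAt (fun x : ℝ => x ^ 3) (3 * y ^ 2) y := by
      have := hasDerivAt_pow 3 y
      norm_num at this
      exact this
    refine h1.congr_of_eventuallyEq ?_
    filter_upwards [lt_mem_nhds h] with x hx
    rw [mp_of hx.le]

lemma mp_cube_lin (η t : ℝ) : HasDerivAt (fun B => mp (1 - B * η) ^ 3) (3 * mp (1 - t * η) ^ 2 * (-η)) t := by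
  have h1 : HasDerivAt (fun B : ℝ => 1 - B * η) (-η) t := by
    have := (hasDerivAt_id t).mul_const η
    simpa using this.const_sub 1
  exact (mp_cube (1 - t * η)).comp t h1

/-- the truncated multiplier -/
lemma J_one (η c d : ℝ) : 12 * η ^ 2 * ∫ B in c..d, B * mp (1 - B * η) ^ 2 =
    mp (1 - c * η) ^ 3 * (1 + 3 * c * η) - mp (1 - d * η) ^ 3 * (1 + 3 * d * η) := by
  have h1 : ∀ x ∈ uIcc c d, HasDerivAt (fun B => -(mp (1 - B * η) ^ 3 * (1 + 3 * B * η))) (12 * η ^ 2 * (x * mp (1 - x * η) ^ 2)) x := by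
    intro x _
    have h2 : HasDerivAt (fun B : ℝ => 1 + 3 * B * η) (3 * η) x := by
      have := ((hasDerivAt_id x).const_mul 3).mul_const η
      simpa using this.const_add 1
    have h3 := ((mp_cube_lin η x).mul h2).neg
    refine h3.congr_deriv ?_
    have h4 := mp_mul (1 - x * η)
    have h5 : mp (1 - x * η) ^ 3 = mp (1 - x * η) ^ 2 * (1 - x * η) := by
      calc mp (1 - x * η) ^ 3 = mp (1 - x * η) * (mp (1 - x * η) * mp (1 - x * η)) := by ring
        _ = _ := by rw [h4]; ring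
    rw [h5]
    ring
  have h6 := intervalIntegral.integral_eq_sub_of_hasDerivAt h1 (by
    apply Continuous.intervalIntegrable
    have := mp_cont
    fun_prop)
  rw [intervalIntegral.integral_const_mul] at h6
  rw [h6]
  ring

lemma J_two (η c d : ℝ) : 3 * η * ∫ B in c..d, mp (1 - B * η) ^ 2 = mp (1 - c * η) ^ 3 - mp (1 - d * η) ^ 3 := by
  have h1 : ∀ x ∈ uIcc c d, HasDerivAt (fun B => -(mp (1 - B * η) ^ 3)) (3 * η * mp (1 - x * η) ^ 2) x := by
    intro x _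
    refine (mp_cube_lin η x).neg.congr_deriv ?_
    ring
  have h6 := intervalIntegral.integral_eq_sub_of_hasDerivAt h1 (by
    apply Continuous.intervalIntegrable
    have := mp_cont
    fun_prop)
  rw [intervalIntegral.integral_const_mul] at h6
  rw [h6]
  ring

lemma tri_mp {B : ℝ} (hB : 0 ≤ B) (ξ : ℝ) : tri (B * ξ) = mp (1 - B * |ξ|) := by
  unfold tri mp
  rw [abs_mul, abs_of_nonneg hB]

/-- the multiplier of the low scales -/
lemma mult_low {b : ℝ} (hb : 0 < b) (ξ : ℝ) : 12 * ξ ^ 2 * ∫ B in (0:ℝ)..b, 1 * (B * tri (B * ξ) ^ 2) =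
    1 - tri (b * ξ) ^ 3 * (1 + 3 * (b * |ξ|)) := by
  have h1 : ∫ B in (0:ℝ)..b, 1 * (B * tri (B * ξ) ^ 2) = ∫ B in (0:ℝ)..b, B * mp (1 - B * |ξ|) ^ 2 := by
    apply intervalIntegral.integral_congr
    intro B hB
    rw [uIcc_of_le hb.le] at hB
    simp only
    rw [one_mul, tri_mp hB.1]
  rw [h1, ← sq_abs ξ, J_one, tri_mp hb.le]
  rw [zero_mul, sub_zero, mp_of zero_le_one]
  ring

/-- the multiplier of the transition scales -/
lemma mult_mid {b : ℝ} (hb : 0 < b) (ξ : ℝ) : 12 * ξ ^ 2 * ∫ B in b..(2 * b), (b / B - 1) * (B * tri (B * ξ) ^ 2) =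
    4 * (b * |ξ|) * (tri (b * ξ) ^ 3 - tri (2 * b * ξ) ^ 3) - tri (b * ξ) ^ 3 * (1 + 3 * (b * |ξ|)) + tri (2 * b * ξ) ^ 3 * (1 + 6 * (b * |ξ|)) := by
  have h1 : ∫ B in b..(2 * b), (b / B - 1) * (B * tri (B * ξ) ^ 2) =
      b * (∫ B in b..(2 * b), mp (1 - B * |ξ|) ^ 2) - ∫ B in b..(2 * b), B * mp (1 - B * |ξ|) ^ 2 := by
    rw [← intervalIntegral.integral_const_mul, ← intervalIntegral.integral_sub]
    · apply intervalIntegral.integral_congr
      intro B hB
      rw [uIcc_of_le (by linarith)] at hB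
      have hB0 : 0 < B := by linarith [hB.1]
      simp only
      rw [tri_mp hB0.le]
      field_simp
    · apply Continuous.intervalIntegrable
      have := mp_cont
      fun_prop
    · apply Continuous.intervalIntegrable
      have := mp_cont
      fun_prop
  have h2 := J_one |ξ| b (2 * b)
  have h3 := J_two |ξ| b (2 * b)
  rw [h1, tri_mp hb.le, tri_mp (by linarith : (0:ℝ) ≤ 2 * b), ← sq_abs ξ]
  linear_combination 4 * b * |ξ| * h3 - h2

/-- the algebraic identity between multipliers -/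
lemma mult_sum {b : ℝ} (hb : 0 < b) (ξ : ℝ) :
    2 * tri (b * ξ) ^ 2 - tri (2 * b * ξ) ^ 2 + (1 - tri (b * ξ) ^ 3 * (1 + 3 * (b * |ξ|))) +
      (4 * (b * |ξ|) * (tri (b * ξ) ^ 3 - tri (2 * b * ξ) ^ 3) - tri (b * ξ) ^ 3 * (1 + 3 * (b * |ξ|)) + tri (2 * b * ξ) ^ 3 * (1 + 6 * (b * |ξ|))) -
      2 * (b * |ξ|) ^ 2 * tri (b * ξ) ^ 2 + 4 * (b * |ξ|) ^ 2 * tri (2 * b * ξ) ^ 2 = 1 := by
  rw [tri_mp hb.le, tri_mp (by linarith : (0:ℝ) ≤ 2 * b)]
  have e1 := mp_mul (1 - b * |ξ|)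
  have e2 := mp_mul (1 - 2 * b * |ξ|)
  have c1 : mp (1 - b * |ξ|) ^ 3 = mp (1 - b * |ξ|) ^ 2 * (1 - b * |ξ|) := by
    calc mp (1 - b * |ξ|) ^ 3 = mp (1 - b * |ξ|) * (mp (1 - b * |ξ|) * mp (1 - b * |ξ|)) := by ring
      _ = _ := by rw [e1]; ring
  have c2 : mp (1 - 2 * b * |ξ|) ^ 3 = mp (1 - 2 * b * |ξ|) ^ 2 * (1 - 2 * b * |ξ|) := by
    calc mp (1 - 2 * b * |ξ|) ^ 3 = mp (1 - 2 * b * |ξ|) * (mp (1 - 2 * b * |ξ|) * mp (1 - 2 * b * |ξ|)) := by ring
      _ = _ := by rw [e2]; ring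
  rw [c1, c2]
  ring

end Pool.Agent.Helper57.UB
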