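import Pool.Agent.Helper57.UB.KerK
import Pool.Agent.Helper57.UV.Full
import Pool.Agent.Helper57.LS.AllG

namespace Pool.Agent.Helper57.UB

open Set MeasureTheory Filter Topology
open Pool.Agent.Helper57.LH
open Pool.Agent.Helper57.LS
open Pool.Agent.Helper57.UV
open Pool.Agent.Helper57.PC (pcDensity pcDensity_le_one pcDensity_nonneg SN SN_pos)
open Pool.Agent.Helper4.PU (AT AT_close CAT CAT_pos)
open Pool.Agent.Helper4.PC (Gs_integrable phiF_int pcDensity_measurable)

/-- the kernel law relative to the arithmetic density, at all scales and shifts -/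
theorem EF_kernel : ∃ C : ℝ, 0 < C ∧ ∀ᶠ T : ℝ in atTop,
    (∀ B v : ℝ, 0 < B → B ≤ T ^ (1/100 : ℝ) → |v| ≤ T ^ (1/100 : ℝ) → |EF T (rh T) (fun u => Gm ((u - v) / B))| ≤ C / B ^ 2 * SN T) ∧
    (∀ B v : ℝ, 0 < B → |EF T (rh T) (fun u => Gm ((u - v) / B))| ≤ C * (1 + B) * SN T) := by
  obtain ⟨C, hC, hU⟩ := ULawP_holds
  obtain ⟨C', hC', hu⟩ := uni
  have hCM := CMe_pos
  unfold ULawP at hU
  set D : ℝ := C' + (6 + 2 * CMe) with hD
  have hD0 : 0 < D := by rw [hD]; positivity
  refine ⟨D * (9601 * 9600 ^ 2) + C, by positivity, ?_⟩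
  filter_upwards [hU, hu, eventually_ge_atTop 3, Real.tendsto_log_atTop.eventually_ge_atTop CAT] with T h1 h2 h3 h4
  have hL := one_le_log h3
  have hL0 : 0 < Real.log T := by linarith
  have hS := SN_pos (show 1 < T by linarith)
  have hA : |AT T| ≤ 2 := by
    have h5 := AT_close h3
    have h6 : CAT / Real.log T ≤ 1 := by rw [div_le_one hL0]; exact h4
    have h7 : |AT T| ≤ |AT T - 1| + |(1:ℝ)| := by
      have := abs_add_le (AT T - 1) 1
      rwa [sub_add_cancel] at this
    rw [abs_one] at h7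
    linarith
  have hall : ∀ B v : ℝ, 0 < B → |EF T (rh T) (fun u => Gm ((u - v) / B))| ≤ D * (1 + B) * SN T := by
    intro B v hB
    unfold EF
    refine (abs_sub _ _).trans ?_
    have a1 : |WP T (fun u => Gm ((u - v) / B))| ≤ C' * (1 + B) * SN T := by
      rw [abs_of_nonneg (WP_nonneg fun _ => Gm_nonneg _)]
      exact h2 B hB v
    have a2 := pred_bd h3 hA hB v
    rw [abs_mul, abs_of_pos hS]
    calc _ ≤ C' * (1 + B) * SN T + SN T * ((6 + 2 * CMe) * (1 + B)) := by gcongr
      _ = _ := by rw [hD]; ring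
  refine ⟨fun B v hB hBY hv => ?_, fun B v hB => (hall B v hB).trans ?_⟩
  · rcases le_total 9600 B with hB1 | hB1
    · have k := h1 B v hB1 hBY hv
      unfold EF
      rw [pred_eq hL (by linarith) v]
      refine k.trans ?_
      have : 0 ≤ D * (9601 * 9600 ^ 2) * (SN T / B ^ 2) := by positivity
      calc C * (SN T / B ^ 2) ≤ C * (SN T / B ^ 2) + D * (9601 * 9600 ^ 2) * (SN T / B ^ 2) := by linarith
        _ = _ := by ring
    · refine (hall B v hB).trans ?_
      have h5 : (1 + B) * B ^ 2 ≤ 9601 * 9600 ^ 2 := by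
        have : 1 + B ≤ 9601 := by linarith
        gcongr
      have h6 : 1 + B ≤ 9601 * 9600 ^ 2 / B ^ 2 := by rwa [le_div_iff₀ (by positivity)]
      have h7 : D * (1 + B) ≤ (D * (9601 * 9600 ^ 2) + C) / B ^ 2 := by
        calc D * (1 + B) ≤ D * (9601 * 9600 ^ 2 / B ^ 2) := by gcongr
          _ = (D * (9601 * 9600 ^ 2)) / B ^ 2 := by ring
          _ ≤ _ := by
              gcongr
              linarith
      gcongr
  · have : D ≤ D * (9601 * 9600 ^ 2) + C := by nlinarith
    have hB1 : 0 ≤ 1 + B := by linarith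
    gcongr

section gen

variable {X : Type*} [MeasurableSpace X] {μ : Measure X} [SFinite μ] {w B v : X → ℝ} {ρ : ℝ → ℝ} {M : ℝ}

lemma gR_prod (hw : Measurable w) (hBm : Measurable B) (hv : Measurable v) (hB : ∀ᵐ x ∂μ, 0 < B x)
    (h1 : Integrable (fun x => |w x| * (1 + B x)) μ) (hρ : Measurable ρ) (hM : ∀ u, |ρ u| ≤ M) :
    Integrable (fun p : X × ℝ => w p.1 * Gm ((p.2 - v p.1) / B p.1) * ρ p.2) (μ.prod volume) := by
  have hM0 : 0 ≤ M := (abs_nonneg _).trans (hM 0)
  have hm : AEStronglyMeasurable (fun p : X × ℝ => w p.1 * Gm ((p.2 - v p.1) / B p.1) * ρ p.2) (μ.prod volume) := by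
    apply Measurable.aestronglyMeasurable
    apply Measurable.mul
    · exact (hw.comp measurable_fst).mul (Gm_cont.measurable.comp ((measurable_snd.sub (hv.comp measurable_fst)).div (hBm.comp measurable_fst)))
    · exact hρ.comp measurable_snd
  rw [integrable_prod_iff hm]
  have hF : ∀ x : X, 0 < B x → Integrable (fun u => w x * Gm ((u - v x) / B x) * ρ u) := by
    intro x hx
    have := (Gs_bdmul hx (v x) hρ.aestronglyMeasurable hM).const_mul (w x)
    refine this.congr ?_
    filter_upwards with u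
    ring
  constructor
  · filter_upwards [hB] with x hx
    exact hF x hx
  · refine (h1.mul_const M).mono' ?_ ?_
    · exact (hm.norm.integral_prod_right')
    · filter_upwards [hB] with x hx
      rw [Real.norm_of_nonneg (integral_nonneg fun _ => norm_nonneg _)]
      have h2 : ∫ u, ‖w x * Gm ((u - v x) / B x) * ρ u‖ ≤ ∫ u, |w x| * M * Gm ((u - v x) / B x) := by
        apply integral_mono (hF x hx).norm ((Gs_integrable hx _).const_mul _)
        intro u
        simp only
        rw [norm_mul, norm_mul, Real.norm_eq_abs, Real.norm_of_nonneg (Gm_nonneg _), Real.norm_eq_abs]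
        have := Gm_nonneg ((u - v x) / B x)
        have := hM u
        calc |w x| * Gm ((u - v x) / B x) * |ρ u| ≤ |w x| * Gm ((u - v x) / B x) * M := by gcongr
          _ = _ := by ring
      refine h2.trans ?_
      rw [integral_const_mul, Gs_integral hx]
      have : |w x| * M * B x ≤ |w x| * M * (1 + B x) := by
        gcongr
        linarith
      calc _ ≤ |w x| * M * (1 + B x) := this
        _ = _ := by ring

/-- the deviation of a general superposition of kernels -/
theorem EF_gen (hw : Measurable w) (hBm : Measurable B) (hv : Measurable v) (hB : ∀ᵐ x ∂μ, 0 < B x)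
    (h1 : Integrable (fun x => |w x| * (1 + B x)) μ) (hρ : Measurable ρ) (hM : ∀ u, |ρ u| ≤ M) (T : ℝ) :
    EF T ρ (fun u => ∫ x, w x * Gm ((u - v x) / B x) ∂μ) = ∫ x, w x * EF T ρ (fun u => Gm ((u - v x) / B x)) ∂μ := by
  have hprod := gR_prod hw hBm hv hB h1 hρ hM
  have hKi : ∀ u, Integrable (fun x => w x * Gm ((u - v x) / B x)) μ := gK_int hw hBm hv hB h1
  have hi1 : Integrable (fun x => WP T (fun u => w x * Gm ((u - v x) / B x))) μ := by
    unfold WP
    apply integrable_finsetSum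
    intro p _
    exact (hKi _).const_mul _
  have hi2 : Integrable (fun x => w x * Gm ((0 - v x) / B x)) μ := hKi 0
  have hi3 : Integrable (fun x => ∫ u, w x * Gm ((u - v x) / B x) * ρ u) μ := hprod.integral_prod_left
  have he : ∀ x, w x * EF T ρ (fun u => Gm ((u - v x) / B x)) = WP T (fun u => w x * Gm ((u - v x) / B x)) -
      SN T * (w x * Gm ((0 - v x) / B x) + ∫ u, w x * Gm ((u - v x) / B x) * ρ u) := by
    intro x
    unfold EF
    have h1 : WP T (fun u => w x * Gm ((u - v x) / B x)) = w x * WP T (fun u => Gm ((u - v x) / B x)) := by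
      rw [WP_smul]
    have h2 : ∫ u, w x * Gm ((u - v x) / B x) * ρ u = w x * ∫ u, Gm ((u - v x) / B x) * ρ u := by
      rw [← integral_const_mul]
      congr 1
      funext u
      ring
    rw [h1, h2]
    ring
  simp_rw [he]
  have e1 : ∫ x, (WP T (fun u => w x * Gm ((u - v x) / B x)) - SN T * (w x * Gm ((0 - v x) / B x) + ∫ u, w x * Gm ((u - v x) / B x) * ρ u)) ∂μ =
      (∫ x, WP T (fun u => w x * Gm ((u - v x) / B x)) ∂μ) - SN T * ((∫ x, w x * Gm ((0 - v x) / B x) ∂μ) + ∫ x, ∫ u, w x * Gm ((u - v x) / B x) * ρ u ∂volume ∂μ) := by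
    have i4 : Integrable (fun x => SN T * (w x * Gm ((0 - v x) / B x) + ∫ u, w x * Gm ((u - v x) / B x) * ρ u)) μ := (hi2.add hi3).const_mul (SN T)
    rw [integral_sub hi1 i4, integral_const_mul, integral_add hi2 hi3]
  rw [e1]
  unfold EF
  rw [WP_integral' μ T (fun x u => w x * Gm ((u - v x) / B x)) hKi]
  congr 3
  have h3 : ∀ u, (∫ x, w x * Gm ((u - v x) / B x) ∂μ) * ρ u = ∫ x, w x * Gm ((u - v x) / B x) * ρ u ∂μ := by
    intro u
    rw [integral_mul_const]
  simp_rw [h3]
  exact (integral_integral_swap hprod).symm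

/-- the law for a general superposition, at finite `T` -/
theorem law_fin {C Y T : ℝ} (hC : 0 ≤ C) (hY : 0 < Y) (hS : 0 ≤ SN T)
    (hL : ∀ B v : ℝ, 0 < B → B ≤ Y → |v| ≤ Y → |EF T ρ (fun u => Gm ((u - v) / B))| ≤ C / B ^ 2 * SN T)
    (hU : ∀ B v : ℝ, 0 < B → |EF T ρ (fun u => Gm ((u - v) / B))| ≤ C * (1 + B) * SN T)
    (hw : Measurable w) (hBm : Measurable B) (hv : Measurable v) (hB : ∀ᵐ x ∂μ, 0 < B x)
    (h1 : Integrable (fun x => |w x| * (1 + B x)) μ) (hρ : Measurable ρ) (hM : ∀ u, |ρ u| ≤ M)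
    {b : X → ℝ} (hb : Integrable b μ) (hbb : ∀ᵐ x ∂μ, |w x| * (1 / B x ^ 2 + (1 + B x) * ((B x / Y) ^ 2 + (v x / Y) ^ 2)) ≤ b x) :
    |EF T ρ (fun u => ∫ x, w x * Gm ((u - v x) / B x) ∂μ)| ≤ C * SN T * ∫ x, b x ∂μ := by
  rw [EF_gen hw hBm hv hB h1 hρ hM T]
  have h2 : ∀ᵐ x ∂μ, ‖w x * EF T ρ (fun u => Gm ((u - v x) / B x))‖ ≤ C * SN T * b x := by
    filter_upwards [hB, hbb] with x hx hx2
    have hCS : 0 ≤ C * SN T := by positivity
    have h3 : |EF T ρ (fun u => Gm ((u - v x) / B x))| ≤ C * SN T * (1 / B x ^ 2 + (1 + B x) * ((B x / Y) ^ 2 + (v x / Y) ^ 2)) := by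
      have hn : 0 ≤ (1 + B x) * ((B x / Y) ^ 2 + (v x / Y) ^ 2) := by positivity
      have hn2 : 0 ≤ 1 / B x ^ 2 := by positivity
      by_cases h4 : B x ≤ Y ∧ |v x| ≤ Y
      · refine (hL _ _ hx h4.1 h4.2).trans ?_
        have h10 : 1 / B x ^ 2 ≤ 1 / B x ^ 2 + (1 + B x) * ((B x / Y) ^ 2 + (v x / Y) ^ 2) := by linarith
        calc C / B x ^ 2 * SN T = C * SN T * (1 / B x ^ 2) := by ring
          _ ≤ _ := mul_le_mul_of_nonneg_left h10 hCS
      · have h5 : 1 ≤ (B x / Y) ^ 2 + (v x / Y) ^ 2 := by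
          rcases not_and_or.mp h4 with h6 | h6
          · push Not at h6
            have h7 : 1 ≤ B x / Y := by rw [one_le_div hY]; exact h6.le
            have h8 : 1 ≤ (B x / Y) ^ 2 := one_le_pow₀ h7
            have := sq_nonneg (v x / Y)
            linarith
          · push Not at h6
            have h7 : 1 ≤ |v x| / Y := by rw [one_le_div hY]; exact h6.le
            have h8 : 1 ≤ (|v x| / Y) ^ 2 := one_le_pow₀ h7
            rw [div_pow, sq_abs, ← div_pow] at h8
            have := sq_nonneg (B x / Y)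
            linarith
        refine (hU _ _ hx).trans ?_
        have h9 : 1 + B x ≤ (1 + B x) * ((B x / Y) ^ 2 + (v x / Y) ^ 2) := le_mul_of_one_le_right (by linarith) h5
        have h10 : 1 + B x ≤ 1 / B x ^ 2 + (1 + B x) * ((B x / Y) ^ 2 + (v x / Y) ^ 2) := by linarith
        calc C * (1 + B x) * SN T = C * SN T * (1 + B x) := by ring
          _ ≤ _ := mul_le_mul_of_nonneg_left h10 hCS
    rw [norm_mul, Real.norm_eq_abs, Real.norm_eq_abs]
    calc |w x| * |EF T ρ (fun u => Gm ((u - v x) / B x))| ≤ |w x| * (C * SN T * (1 / B x ^ 2 + (1 + B x) * ((B x / Y) ^ 2 + (v x / Y) ^ 2))) := by gcongr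
      _ = C * SN T * (|w x| * (1 / B x ^ 2 + (1 + B x) * ((B x / Y) ^ 2 + (v x / Y) ^ 2))) := by ring
      _ ≤ C * SN T * b x := by gcongr
  have h3 := norm_integral_le_of_norm_le (hb.const_mul (C * SN T)) h2
  rw [integral_const_mul, Real.norm_eq_abs] at h3
  exact h3

end gen

end Pool.Agent.Helper57.UB
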