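import Pool.Agent.Helper57.UB.Wid
import Pool.Agent.Helper4.PU.NVU

namespace Pool.Agent.Helper57.UB

open Set MeasureTheory Filter Topology
open Pool.Agent.Helper57.LH
open Pool.Agent.Helper57.LS
open Pool.Agent.Helper57.UV
open Pool.Agent.Helper4.PC (Tr)
open Pool.Agent.Helper57.PC (SN SN_pos)
open Pool.Agent.Helper4.PU (AT)

lemma TrGW_int {X : ℝ} (hX : 0 < X) (T b : ℝ) : Integrable (fun v => Tr X v * GW T b v) := by
  unfold GW WP
  have e : (fun v => Tr X v * ∑ p ∈ Zeta.Zf T ×ˢ Zeta.Zf T, (PC.mult p.1 : ℝ) * (PC.mult p.2 : ℝ) * Gm ((PC.nd T p - v) / b)) =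
      fun v => ∑ p ∈ Zeta.Zf T ×ˢ Zeta.Zf T, ((PC.mult p.1 : ℝ) * (PC.mult p.2 : ℝ)) * (Tr X v * Gm ((PC.nd T p - v) / b)) := by
    funext v
    rw [Finset.mul_sum]
    refine Finset.sum_congr rfl fun p _ => ?_
    ring
  rw [e]
  exact integrable_finsetSum _ fun p _ => (TrG_int hX b _).const_mul _

lemma DW_ii (T X : ℝ) {θ : ℝ → ℝ} (hθm : Measurable θ) {c d : ℝ} (hcd : c ≤ d) (hθ : ∀ B ∈ Ioc c d, |θ B| ≤ 1) :
    IntervalIntegrable (fun B => θ B * DW T X B) volume c d := by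
  rw [intervalIntegrable_iff_integrableOn_Ioc_of_le hcd]
  unfold DW WP
  have e : (fun B => θ B * ∑ p ∈ Zeta.Zf T ×ˢ Zeta.Zf T, (PC.mult p.1 : ℝ) * (PC.mult p.2 : ℝ) * Dl X B (PC.nd T p)) =
      fun B => ∑ p ∈ Zeta.Zf T ×ˢ Zeta.Zf T, ((PC.mult p.1 : ℝ) * (PC.mult p.2 : ℝ)) * (θ B * Dl X B (PC.nd T p)) := by
    funext v
    rw [Finset.mul_sum]
    refine Finset.sum_congr rfl fun p _ => ?_
    ring
  rw [e]
  exact integrable_finsetSum _ fun p _ => (Dl_ii X _ hθm hcd hθ).const_mul _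

lemma Tr_nonneg {X : ℝ} (hX : 0 < X) (v : ℝ) : 0 ≤ Tr X v := by
  rw [Tr_def]
  exact mul_nonneg hX.le (tri_nonneg _)

lemma Tr_zero {X v : ℝ} (hX : 0 < X) (hv : X ≤ |v|) : Tr X v = 0 := by
  rw [Tr_def, tri_zero_of, mul_zero]
  rw [abs_div, abs_of_pos hX, le_div_iff₀ hX, one_mul]
  exact hv

/-- the smoothed triangle at the top scale -/
lemma top {T X b S A C : ℝ} {P : ℝ → ℝ} (hX : 0 < X) (hXb : X ≤ b) (hS : 0 ≤ S) (hC : 0 ≤ C) (hb : 1 ≤ b)
    (hP : ∀ v, |P v| ≤ 4) (h : ∀ v, |v| ≤ b → |GW T b v - S * (A * b + P v / b)| ≤ C * (S / b ^ 2)) :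
    |1 / b * (∫ v, Tr X v * GW T b v) - S * A * X ^ 2| ≤ (4 + C) * S := by
  have hb0 : 0 < b := by linarith
  have h1 : ∀ v, ‖Tr X v * GW T b v - S * A * b * Tr X v‖ ≤ Tr X v * ((4 + C) * S / b) := by
    intro v
    have hT0 := Tr_nonneg hX v
    rcases le_total X |v| with hv | hv
    · rw [Tr_zero hX hv]; simp
    have h2 := h v (hv.trans hXb)
    have h3 : |GW T b v - S * A * b| ≤ (4 + C) * S / b := by
      have e1 : GW T b v - S * A * b = (GW T b v - S * (A * b + P v / b)) + S * (P v / b) := by ring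
      rw [e1]
      refine (abs_add_le _ _).trans ?_
      have h4 : |S * (P v / b)| ≤ 4 * S / b := by
        rw [abs_mul, abs_div, abs_of_nonneg hS, abs_of_pos hb0]
        have := hP v
        calc S * (|P v| / b) ≤ S * (4 / b) := by gcongr
          _ = _ := by ring
      have h5 : C * (S / b ^ 2) ≤ C * S / b := by
        rw [← mul_div_assoc]
        apply div_le_div_of_nonneg_left (by positivity) hb0
        nlinarith
      calc |GW T b v - S * (A * b + P v / b)| + |S * (P v / b)| ≤ C * S / b + 4 * S / b := by linarith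
        _ = _ := by ring
    rw [show Tr X v * GW T b v - S * A * b * Tr X v = Tr X v * (GW T b v - S * A * b) by ring, norm_mul, Real.norm_of_nonneg hT0, Real.norm_eq_abs]
    gcongr
  have i1 := TrGW_int hX T b
  have i2 : Integrable (fun v => S * A * b * Tr X v) := (Tr_integrable hX).const_mul _
  have h6 := norm_integral_le_of_norm_le ((Tr_integrable hX).mul_const ((4 + C) * S / b)) (Eventually.of_forall h1)
  rw [integral_sub i1 i2, integral_const_mul, integral_mul_const, Pool.Agent.Helper4.PU.Tr_integral hX, Real.norm_eq_abs] at h6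
  have e2 : 1 / b * (∫ v, Tr X v * GW T b v) - S * A * X ^ 2 = (1 / b) * ((∫ v, Tr X v * GW T b v) - S * A * b * X ^ 2) := by
    obtain ⟨J, hJ⟩ : ∃ J, J = ∫ v, Tr X v * GW T b v := ⟨_, rfl⟩
    rw [← hJ]
    field_simp
  rw [e2, abs_mul, abs_of_pos (by positivity)]
  have h7 : X ^ 2 ≤ b ^ 2 := by gcongr
  calc 1 / b * |(∫ v, Tr X v * GW T b v) - S * A * b * X ^ 2| ≤ 1 / b * (X ^ 2 * ((4 + C) * S / b)) := by gcongr
    _ ≤ 1 / b * (b ^ 2 * ((4 + C) * S / b)) := by gcongr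
    _ = (4 + C) * S := by field_simp

/-- the law for second differences -/
lemma DW_law {T X B S A C y : ℝ} {P : ℝ → ℝ} (hXy : |X| ≤ y) (hy : 0 ≤ y)
    (hPe : P (-X) = P X) (h : ∀ v, |v| ≤ y → |GW T B v - S * (A * B + P v / B)| ≤ C * (S / B ^ 2)) :
    |DW T X B - S * (2 * (P 0 - P X) / B)| ≤ 4 * (C * (S / B ^ 2)) := by
  have h0 := abs_le.mp (h 0 (by rw [abs_zero]; exact hy))
  have h1 := abs_le.mp (h X hXy)
  have h2 := abs_le.mp (h (-X) (by rw [abs_neg]; exact hXy))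
  rw [hPe] at h2
  rw [DW_eq, abs_le]
  have e : S * (2 * (P 0 - P X) / B) = 2 * (S * (A * B + P 0 / B)) - S * (A * B + P X / B) - S * (A * B + P X / B) := by ring
  rw [e]
  constructor <;> linarith [h0.1, h0.2, h1.1, h1.2, h2.1, h2.2]

lemma DW_bd {T X B S C y : ℝ} {P : ℝ → ℝ} {A : ℝ} (hXy : |X| ≤ y) (hy : 0 ≤ y) (hB : 1 ≤ B) (hS : 0 ≤ S) (hC : 0 ≤ C) (hP : ∀ v, |P v| ≤ 4)
    (hPe : P (-X) = P X) (h : ∀ v, |v| ≤ y → |GW T B v - S * (A * B + P v / B)| ≤ C * (S / B ^ 2)) :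
    |DW T X B| ≤ (16 + 4 * C) * S / B := by
  have hB0 : 0 < B := by linarith
  have h1 := DW_law (A := A) hXy hy hPe h
  have h2 : |S * (2 * (P 0 - P X) / B)| ≤ 16 * S / B := by
    rw [abs_mul, abs_div, abs_mul, abs_of_nonneg hS, abs_of_pos hB0, abs_two]
    have h3 : |P 0 - P X| ≤ 8 := by
      refine (abs_sub _ _).trans ?_
      linarith [hP 0, hP X]
    calc S * (2 * |P 0 - P X| / B) ≤ S * (2 * 8 / B) := by gcongr
      _ = _ := by ring
  have h5 : 4 * (C * (S / B ^ 2)) ≤ 4 * C * S / B := by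
    have : C * (S / B ^ 2) ≤ C * S / B := by
      rw [← mul_div_assoc]
      apply div_le_div_of_nonneg_left (by positivity) hB0
      nlinarith
    calc 4 * (C * (S / B ^ 2)) ≤ 4 * (C * S / B) := by gcongr
      _ = _ := by ring
  calc |DW T X B| = |(DW T X B - S * (2 * (P 0 - P X) / B)) + S * (2 * (P 0 - P X) / B)| := by congr 1; ring
    _ ≤ 4 * C * S / B + 16 * S / B := (abs_add_le _ _).trans (add_le_add (h1.trans h5) h2)
    _ = _ := by ring

end Pool.Agent.Helper57.UB
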