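import Pool.Agent.Helper57.UB.Fub
import Pool.Agent.Helper57.UV.Full
import Pool.Agent.Helper57.LS.Super

namespace Pool.Agent.Helper57.UB

open Set MeasureTheory Filter Topology
open Pool.Agent.Helper57.LH
open Pool.Agent.Helper57.LS
open Pool.Agent.Helper57.UV
open Pool.Agent.Helper4.PC (Tr)
open Pool.Agent.Helper57.PC (SN SN_pos)
open Pool.Agent.Helper4.PU (AT)

/-- pair sums of the kernel -/
noncomputable def GW (T B v : ℝ) : ℝ := WP T (fun u => Gm ((u - v) / B))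

/-- pair sums of the second difference -/
noncomputable def DW (T X B : ℝ) : ℝ := WP T (Dl X B)

lemma Gm_abs (y : ℝ) : |Gm y| ≤ 1 := by
  rw [abs_of_nonneg (Gm_nonneg y)]
  exact (Gm_le y).trans Pool.Agent.Helper4.PC.Gm_zero_le_one

lemma DW_eq (T X B : ℝ) : DW T X B = 2 * GW T B 0 - GW T B X - GW T B (-X) := by
  unfold DW GW WP Dl
  rw [Finset.mul_sum, ← Finset.sum_sub_distrib, ← Finset.sum_sub_distrib]
  refine Finset.sum_congr rfl fun p _ => ?_
  simp only [sub_zero, sub_neg_eq_add]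
  ring

lemma Dl_abs (X B u : ℝ) : |Dl X B u| ≤ 4 := by
  unfold Dl
  have h1 := abs_le.mp (Gm_abs (u / B))
  have h2 := abs_le.mp (Gm_abs ((u - X) / B))
  have h3 := abs_le.mp (Gm_abs ((u + X) / B))
  rw [abs_le]
  constructor <;> linarith [h1.1, h1.2, h2.1, h2.2, h3.1, h3.2]

lemma Dl_meas (X u : ℝ) : Measurable (fun B => Dl X B u) := by
  unfold Dl
  have h := Gm_cont.measurable
  have h1 : ∀ y : ℝ, Measurable fun B : ℝ => Gm (y / B) := fun y => h.comp (by fun_prop)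
  exact (((h1 u).const_mul 2).sub (h1 (u - X))).sub (h1 (u + X))

lemma Dl_ii (X u : ℝ) {θ : ℝ → ℝ} (hθm : Measurable θ) {c d : ℝ} (hcd : c ≤ d) (hθ : ∀ B ∈ Ioc c d, |θ B| ≤ 1) :
    IntegrableOn (fun B => θ B * Dl X B u) (Ioc c d) := by
  have hconst : Integrable (fun _ : ℝ => (4:ℝ)) (volume.restrict (Ioc c d)) := by
    rw [← IntegrableOn, integrableOn_const_iff]
    right
    exact measure_Ioc_lt_top
  refine hconst.mono' (hθm.mul (Dl_meas X u)).aestronglyMeasurable ?_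
  rw [ae_restrict_iff' measurableSet_Ioc]
  filter_upwards with B hB
  rw [norm_mul, Real.norm_eq_abs, Real.norm_eq_abs]
  have h1 := hθ B hB
  have h2 := Dl_abs X B u
  calc |θ B| * |Dl X B u| ≤ 1 * 4 := by gcongr
    _ = 4 := one_mul _

lemma WP_Dl_int (T X : ℝ) {θ : ℝ → ℝ} (hθm : Measurable θ) {c d : ℝ} (hcd : c ≤ d) (hθ : ∀ B ∈ Ioc c d, |θ B| ≤ 1) :
    WP T (fun u => ∫ B in c..d, θ B * Dl X B u) = ∫ B in c..d, θ B * DW T X B := by
  simp_rw [intervalIntegral.integral_of_le hcd]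
  rw [WP_integral' (volume.restrict (Ioc c d)) T (fun B u => θ B * Dl X B u) (fun u => Dl_ii X u hθm hcd hθ)]
  congr 1
  funext B
  unfold DW
  exact WP_smul T (θ B) (Dl X B)

lemma TrG_int {X : ℝ} (hX : 0 < X) (b u : ℝ) : Integrable (fun v => Tr X v * Gm ((u - v) / b)) := by
  refine (Tr_integrable hX).mul_bdd (c := 1) ?_ ?_
  · have := Gm_cont
    exact Continuous.aestronglyMeasurable (by fun_prop)
  · filter_upwards with v
    rw [Real.norm_eq_abs]
    exact Gm_abs _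

lemma WP_conv {X : ℝ} (hX : 0 < X) (T b : ℝ) : WP T (fun u => ∫ v, Tr X v * Gm ((u - v) / b)) = ∫ v, Tr X v * GW T b v := by
  rw [WP_integral T (fun v u => Tr X v * Gm ((u - v) / b)) (fun u => TrG_int hX b u)]
  congr 1
  funext v
  exact WP_smul T (Tr X v) _

/-- the exact decomposition for pair sums -/
theorem WP_ident {X b : ℝ} (hX : 0 < X) (hb : 0 < b) (T : ℝ) :
    WP T (Tr X) = 2 / b * (∫ v, Tr X v * GW T b v) - 1 / (2 * b) * (∫ v, Tr X v * GW T (2 * b) v) +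
      3 / Real.pi ^ 2 * (∫ B in (0:ℝ)..b, DW T X B) + 3 / Real.pi ^ 2 * (∫ B in b..(2 * b), (b / B - 1) * DW T X B) -
      b / (2 * Real.pi ^ 2) * DW T X b + b / (2 * Real.pi ^ 2) * DW T X (2 * b) := by
  have e0 : WP T (Tr X) = WP T (fun u => 2 / b * (∫ v, Tr X v * Gm ((u - v) / b)) + (-(1 / (2 * b))) * (∫ v, Tr X v * Gm ((u - v) / (2 * b))) +
      3 / Real.pi ^ 2 * (∫ B in (0:ℝ)..b, Dl X B u) + 3 / Real.pi ^ 2 * (∫ B in b..(2 * b), (b / B - 1) * Dl X B u) +
      (-(b / (2 * Real.pi ^ 2))) * Dl X b u + b / (2 * Real.pi ^ 2) * Dl X (2 * b) u) := by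
    refine congrArg (WP T) (funext fun u => ?_)
    rw [ident hX hb u]
    ring
  rw [e0, WP_add, WP_add, WP_add, WP_add, WP_add, WP_smul, WP_smul, WP_smul, WP_smul, WP_smul, WP_smul, WP_conv hX, WP_conv hX]
  have h1 := WP_Dl_int T X (θ := fun _ => 1) measurable_const hb.le (fun _ _ => by simp)
  simp only [one_mul] at h1
  have h2 := WP_Dl_int T X (θ := fun B => b / B - 1) (by fun_prop) (by linarith : b ≤ 2 * b) (fun B hB => by
    have hB0 : 0 < B := lt_trans hb hB.1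
    have h3 : b / B ≤ 1 := by rw [div_le_one hB0]; exact hB.1.le
    have h4 : 0 ≤ b / B := by positivity
    rw [abs_le]; constructor <;> linarith)
  rw [h1, h2]
  have h3 : WP T (fun x => Dl X b x) = DW T X b := rfl
  have h4 : WP T (fun x => Dl X (2 * b) x) = DW T X (2 * b) := rfl
  rw [h3, h4]
  ring

end Pool.Agent.Helper57.UB
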