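import Pool.Agent.Helper57.UB.Pr

namespace Pool.Agent.Helper57.UB

open Set MeasureTheory Filter Topology
open Pool.Agent.Helper57.LH
open Pool.Agent.Helper57.LS
open Pool.Agent.Helper57.UV
open scoped ArithmeticFunction

lemma cpow_norm {n : ℕ} (hn : 2 ≤ n) (σ h : ℝ) : ‖(n : ℂ) ^ (-((σ : ℂ) + h * Complex.I))‖ = (n:ℝ) ^ (-σ) := by
  rw [Complex.norm_natCast_cpow_of_pos (by omega)]
  simp

lemma cpow_re {n : ℕ} (hn : 2 ≤ n) (σ h : ℝ) : ((n : ℂ) ^ (-((σ : ℂ) + h * Complex.I))).re = (n:ℝ) ^ (-σ) * Real.cos (h * Real.log n) := by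
  have hn0 : (0:ℝ) < n := by
    have : 0 < n := by omega
    exact_mod_cast this
  have hn1 : (n : ℂ) ≠ 0 := by
    have : n ≠ 0 := by omega
    exact_mod_cast this
  rw [Complex.cpow_def_of_ne_zero hn1, ← Complex.natCast_log, Real.rpow_def_of_pos hn0]
  have e : (Real.log n : ℂ) * -((σ : ℂ) + h * Complex.I) = ((Real.log n * -σ : ℝ) : ℂ) + ((-(h * Real.log n) : ℝ) : ℂ) * Complex.I := by
    push_cast
    ring
  rw [e, Complex.exp_add, ← Complex.ofReal_exp, Complex.re_ofReal_mul, Complex.exp_ofReal_mul_I_re, Real.cos_neg]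

/-- sum of inverse squares of primes -/
noncomputable def Kp : ℝ := ∑' p : Nat.Primes, (p : ℝ) ^ (-(2:ℝ))

lemma Kp_summable : Summable (fun p : Nat.Primes => (p : ℝ) ^ (-(2:ℝ))) := Nat.Primes.summable_rpow.mpr (by norm_num)

lemma Kp_nonneg : 0 ≤ Kp := tsum_nonneg fun p => by positivity

lemma prime_cast (p : Nat.Primes) : (2:ℝ) ≤ (p : ℕ) := by exact_mod_cast p.2.two_le

lemma psum {σ : ℝ} (hσ : 1 < σ) : Summable (fun p : Nat.Primes => (p : ℝ) ^ (-σ)) := Nat.Primes.summable_rpow.mpr (by linarith)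

lemma psum_cos {σ : ℝ} (hσ : 1 < σ) (h : ℝ) : Summable (fun p : Nat.Primes => (p : ℝ) ^ (-σ) * Real.cos (h * Real.log p)) := by
  refine Summable.of_norm_bounded (psum hσ) fun p => ?_
  rw [norm_mul, Real.norm_of_nonneg (by positivity), Real.norm_eq_abs]
  exact mul_le_of_le_one_right (by positivity) (Real.abs_cos_le_one _)

lemma log_zeta {σ : ℝ} (hσ : 1 < σ) (h : ℝ) :
    |Real.log ‖riemannZeta ((σ : ℂ) + h * Complex.I)‖ - ∑' p : Nat.Primes, (p : ℝ) ^ (-σ) * Real.cos (h * Real.log p)| ≤ Kp := by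
  set s : ℂ := (σ : ℂ) + h * Complex.I with hs
  have hre : 1 < s.re := by rw [hs]; simpa using hσ
  have hz : ∀ p : Nat.Primes, ‖((p : ℕ) : ℂ) ^ (-s)‖ = (p : ℝ) ^ (-σ) := fun p => cpow_norm p.2.two_le σ h
  have hhalf : ∀ p : Nat.Primes, (p : ℝ) ^ (-σ) ≤ 1 / 2 := by
    intro p
    have h2 := prime_cast p
    calc (p : ℝ) ^ (-σ) ≤ (p : ℝ) ^ (-(1:ℝ)) := Real.rpow_le_rpow_of_exponent_le (by linarith) (by linarith)
      _ = 1 / p := by rw [Real.rpow_neg_one, one_div]
      _ ≤ 1 / 2 := by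
          apply one_div_le_one_div_of_le (by norm_num) h2
  have hsumz : Summable (fun p : Nat.Primes => ((p : ℕ) : ℂ) ^ (-s)) := by
    apply Summable.of_norm
    simp_rw [hz]
    exact psum hσ
  have hsuml : Summable (fun p : Nat.Primes => -Complex.log (1 - ((p : ℕ) : ℂ) ^ (-s))) := hsumz.clog_one_sub.neg
  have he := riemannZeta_eulerProduct_exp_log hre
  have h1 : Real.log ‖riemannZeta s‖ = (∑' p : Nat.Primes, -Complex.log (1 - ((p : ℕ) : ℂ) ^ (-s))).re := by
    rw [← he, Complex.norm_exp, Real.log_exp]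
  rw [h1, Complex.re_tsum hsuml]
  have hbd : ∀ p : Nat.Primes, ‖(-Complex.log (1 - ((p : ℕ) : ℂ) ^ (-s))).re - (p : ℝ) ^ (-σ) * Real.cos (h * Real.log p)‖ ≤ (p : ℝ) ^ (-(2:ℝ)) := by
    intro p
    have h2 := prime_cast p
    rw [← cpow_re p.2.two_le σ h, ← hs, ← Complex.sub_re, Real.norm_eq_abs]
    refine (Complex.abs_re_le_norm _).trans ?_
    set z : ℂ := ((p : ℕ) : ℂ) ^ (-s) with hzd
    have hz1 : ‖z‖ ≤ 1 / 2 := by rw [hzd, hz]; exact hhalf p
    have h3 := Complex.norm_log_one_add_sub_self_le (z := -z) (by rw [norm_neg]; linarith)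
    rw [norm_neg, ← sub_eq_add_neg] at h3
    have e : -Complex.log (1 - z) - z = -(Complex.log (1 - z) - -z) := by ring
    rw [e, norm_neg]
    have h4 : (1 - ‖z‖)⁻¹ ≤ 2 := by
      rw [inv_le_comm₀ (by linarith) (by norm_num)]
      linarith
    have h5 : ‖z‖ ≤ (p : ℝ) ^ (-(1:ℝ)) := by
      rw [hzd, hz]
      exact Real.rpow_le_rpow_of_exponent_le (by linarith) (by linarith)
    calc ‖Complex.log (1 - z) - -z‖ ≤ ‖z‖ ^ 2 * (1 - ‖z‖)⁻¹ / 2 := h3
      _ ≤ ‖z‖ ^ 2 * 2 / 2 := by gcongr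
      _ = ‖z‖ ^ 2 := by ring
      _ ≤ ((p : ℝ) ^ (-(1:ℝ))) ^ 2 := by gcongr
      _ = (p : ℝ) ^ (-(2:ℝ)) := by
          rw [← Real.rpow_natCast, ← Real.rpow_mul (by linarith)]
          norm_num
  have hs1 : Summable (fun p : Nat.Primes => (-Complex.log (1 - ((p : ℕ) : ℂ) ^ (-s))).re) := (Complex.hasSum_re hsuml.hasSum).summable
  rw [← hs1.tsum_sub (psum_cos hσ h)]
  have := tsum_of_norm_bounded Kp_summable.hasSum hbd
  rwa [Real.norm_eq_abs] at this

/-- von Mangoldt sum just to the right of 1 -/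
lemma vM_right {L : ℝ} (hL : 0 < L) (M : ℕ) : ∑ n ∈ Finset.range M, Λ n / n * (n:ℝ) ^ (-(1 / L)) ≤ L + CMe := by
  have e1 : ∀ n ∈ Finset.range M, Λ n / n * (n:ℝ) ^ (-(1 / L)) = ∫ t in Ioi (0:ℝ), Λ n / n * (Ioi (Real.log n / L)).indicator (fun t => Real.exp (-t)) t := by
    intro n _
    rcases Nat.lt_or_ge n 2 with hn | hn
    · have : Λ n = 0 := by interval_cases n <;> simp
      rw [this]
      simp
    have hn2 : (2:ℝ) ≤ n := by exact_mod_cast hn
    have hl : 0 ≤ Real.log n / L := by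
      have : 0 ≤ Real.log n := Real.log_nonneg (by linarith)
      positivity
    rw [integral_const_mul, setIntegral_indicator measurableSet_Ioi, Ioi_inter_Ioi, max_eq_right hl, integral_exp_neg_Ioi,
      Real.rpow_def_of_pos (by linarith)]
    congr 2
    ring
  have hint : ∀ n : ℕ, IntegrableOn (fun t => Λ n / n * (Ioi (Real.log n / L)).indicator (fun t => Real.exp (-t)) t) (Ioi 0) := by
    intro n
    apply Integrable.const_mul
    have h := integrableOn_exp_neg_Ioi 0
    exact h.indicator measurableSet_Ioi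
  rw [Finset.sum_congr rfl e1, ← integral_finsetSum _ (fun n _ => hint n)]
  have hC := CMe_pos
  have hG : IntegrableOn (fun t => Real.exp (-t) * t ^ ((2:ℝ) - 1)) (Ioi 0) := Real.GammaIntegral_convergent (by norm_num)
  have hG1 : ∫ t in Ioi (0:ℝ), Real.exp (-t) * t ^ ((2:ℝ) - 1) = 1 := by
    rw [← Real.Gamma_eq_integral (by norm_num)]
    exact Real.Gamma_two
  have hi2 : IntegrableOn (fun t => L * (Real.exp (-t) * t ^ ((2:ℝ) - 1)) + CMe * Real.exp (-t)) (Ioi 0) :=
    (hG.const_mul L).add ((integrableOn_exp_neg_Ioi 0).const_mul CMe)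
  have h2 : ∫ t in Ioi (0:ℝ), ∑ n ∈ Finset.range M, Λ n / n * (Ioi (Real.log n / L)).indicator (fun t => Real.exp (-t)) t ≤
      ∫ t in Ioi (0:ℝ), (L * (Real.exp (-t) * t ^ ((2:ℝ) - 1)) + CMe * Real.exp (-t)) := by
    apply setIntegral_mono_on (integrable_finsetSum _ fun n _ => hint n) hi2 measurableSet_Ioi
    intro t ht
    have ht0 : 0 < t := ht
    have h3 : ∑ n ∈ Finset.range M, Λ n / n * (Ioi (Real.log n / L)).indicator (fun t => Real.exp (-t)) t ≤
        Real.exp (-t) * ∑ n ∈ Finset.range (NX (t * L) + 1), Λ n / n := by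
      rw [Finset.mul_sum]
      have h4 : ∑ n ∈ Finset.range M, Λ n / n * (Ioi (Real.log n / L)).indicator (fun t => Real.exp (-t)) t ≤
          ∑ n ∈ Finset.range (M + (NX (t * L) + 1)), Λ n / n * (Ioi (Real.log n / L)).indicator (fun t => Real.exp (-t)) t := by
        apply Finset.sum_le_sum_of_subset_of_nonneg
        · intro n hn
          rw [Finset.mem_range] at hn ⊢
          omega
        · intro n _ _
          have := @ArithmeticFunction.vonMangoldt_nonneg n
          apply mul_nonneg (by positivity)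
          apply indicator_nonneg
          intro x _
          exact (Real.exp_pos _).le
      refine h4.trans ?_
      have h5 : ∑ n ∈ Finset.range (M + (NX (t * L) + 1)), Λ n / n * (Ioi (Real.log n / L)).indicator (fun t => Real.exp (-t)) t =
          ∑ n ∈ Finset.range (NX (t * L) + 1), Λ n / n * (Ioi (Real.log n / L)).indicator (fun t => Real.exp (-t)) t := by
        symm
        apply Finset.sum_subset
        · intro n hn
          rw [Finset.mem_range] at hn ⊢
          omega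
        · intro n _ hn
          rw [Finset.mem_range] at hn
          have hn' : NX (t * L) < n := by omega
          have h6 : Real.exp (t * L) < n := (Nat.floor_lt (Real.exp_pos _).le).mp hn'
          have hn0 : (0:ℝ) < n := lt_trans (Real.exp_pos _) h6
          have h7 : t * L < Real.log n := by rwa [Real.lt_log_iff_exp_lt hn0]
          rw [indicator_of_notMem, mul_zero]
          rw [mem_Ioi, not_lt, le_div_iff₀ hL]
          exact h7.le
      rw [h5]
      apply Finset.sum_le_sum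
      intro n _
      have := @ArithmeticFunction.vonMangoldt_nonneg n
      rw [mul_comm (Real.exp (-t))]
      apply mul_le_mul_of_nonneg_left _ (by positivity)
      apply indicator_le_self'
      intro _ _
      exact (Real.exp_pos _).le
    have h8 := (abs_le.mp (mertens (y := t * L) (by positivity))).2
    have h9 : t ^ ((2:ℝ) - 1) = t := by
      rw [show (2:ℝ) - 1 = 1 by norm_num, Real.rpow_one]
    rw [h9]
    calc _ ≤ Real.exp (-t) * ∑ n ∈ Finset.range (NX (t * L) + 1), Λ n / n := h3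
      _ ≤ Real.exp (-t) * (t * L + CMe) := by
          gcongr
          linarith
      _ = _ := by ring
  refine h2.trans ?_
  rw [integral_add (hG.const_mul L) ((integrableOn_exp_neg_Ioi 0).const_mul CMe), integral_const_mul, integral_const_mul, hG1, integral_exp_neg_Ioi]
  simp

/-- behaviour at the pole -/
lemma zeta_pole : ∀ᶠ L : ℝ in atTop, |Real.log ‖riemannZeta (((1 + 1 / L : ℝ) : ℂ) + (0:ℝ) * Complex.I)‖ - Real.log L| ≤ 1 := by
  have h1 : Tendsto (fun L : ℝ => ((1 + 1 / L : ℝ) : ℂ)) atTop (𝓝[≠] 1) := by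
    rw [tendsto_nhdsWithin_iff]
    constructor
    · have h0 : Tendsto (fun L : ℝ => 1 / L) atTop (𝓝 0) := by
        simp_rw [one_div]
        exact tendsto_inv_atTop_zero
      have h2 : Tendsto (fun L : ℝ => 1 + 1 / L) atTop (𝓝 (1 + 0)) := tendsto_const_nhds.add h0
      rw [add_zero] at h2
      have := (Complex.continuous_ofReal.tendsto 1).comp h2
      rw [Complex.ofReal_one] at this
      exact this
    · filter_upwards [eventually_gt_atTop 0] with L hL
      rw [mem_compl_iff, mem_singleton_iff]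
      intro h3
      have h4 : (1 + 1 / L : ℝ) = 1 := by exact_mod_cast h3
      have : 0 < 1 / L := by positivity
      linarith
  have h2 := riemannZeta_residue_one.comp h1
  have h3 : Tendsto (fun L : ℝ => Real.log ‖(((1 + 1 / L : ℝ) : ℂ) - 1) * riemannZeta ((1 + 1 / L : ℝ) : ℂ)‖) atTop (𝓝 (Real.log ‖(1:ℂ)‖)) := by
    have h4 := h2.norm
    exact (Real.continuousAt_log (by simp)).tendsto.comp h4
  rw [norm_one, Real.log_one] at h3
  have h5 : ∀ᶠ L : ℝ in atTop, |Real.log ‖(((1 + 1 / L : ℝ) : ℂ) - 1) * riemannZeta ((1 + 1 / L : ℝ) : ℂ)‖| < 1 := by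
    have := h3.abs
    rw [abs_zero] at this
    exact this.eventually (gt_mem_nhds one_pos)
  filter_upwards [h5, eventually_gt_atTop 0] with L h6 hL
  have hz : riemannZeta ((1 + 1 / L : ℝ) : ℂ) ≠ 0 := by
    apply riemannZeta_ne_zero_of_one_lt_re
    rw [Complex.ofReal_re]
    have : 0 < 1 / L := by positivity
    linarith
  have e1 : (((1 + 1 / L : ℝ) : ℂ) - 1) = ((1 / L : ℝ) : ℂ) := by push_cast; ring
  rw [e1, norm_mul, Real.log_mul (by rw [norm_ne_zero_iff]; exact_mod_cast (by positivity : (1 / L : ℝ) ≠ 0)) (norm_ne_zero_iff.mpr hz),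
    Complex.norm_real, Real.norm_of_nonneg (by positivity), one_div, Real.log_inv] at h6
  have e2 : ((1 + 1 / L : ℝ) : ℂ) + (0:ℝ) * Complex.I = ((1 + 1 / L : ℝ) : ℂ) := by simp
  rw [e2]
  have e3 : Real.log ‖riemannZeta ((1 + 1 / L : ℝ) : ℂ)‖ - Real.log L = -Real.log L + Real.log ‖riemannZeta ((1 + 1 / L : ℝ) : ℂ)‖ := by ring
  rw [e3, one_div]
  exact h6.le

end Pool.Agent.Helper57.UB
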